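import Pool.Agent.SQR.GenL

/-!
# SQR module MSP: orthogonal integer matrices are signed permutation matrices

PROOF. With `A = !![a, b; c, d]`: `a² + b² = 1`, `c² + d² = 1`, `a c + b d = 0` over the integers.  So
`(a, b)` is `(± 1, 0)` or `(0, ± 1)`, and likewise `(c, d)`; `a c + b d = 0` excludes the two mixed cases.
If `b = 0`: `g = ⟨a, d, false⟩`; if `a = 0`: `g = ⟨b, c, true⟩`.
`mat_inv`: `mat g⁻¹ = (mat g)ᵀ` by cases; `mat_symm`: by cases (`mat g` is symmetric iff `w = false` or the signs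
agree).
-/

set_option autoImplicit false

open AddMonoidAlgebra

namespace Pool.Agent.SQR

private theorem sq_sum_one (a b : ℤ) (h : a * a + b * b = 1) :
    (a = 0 ∧ (b = 1 ∨ b = -1)) ∨ (b = 0 ∧ (a = 1 ∨ a = -1)) := by
  have ha : a ≤ 1 := by nlinarith [mul_self_nonneg b, mul_self_nonneg a]
  have ha' : -1 ≤ a := by nlinarith [mul_self_nonneg b, mul_self_nonneg a]
  have hb : b ≤ 1 := by nlinarith [mul_self_nonneg b, mul_self_nonneg a]
  have hb' : -1 ≤ b := by nlinarith [mul_self_nonneg b, mul_self_nonneg a]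
  interval_cases a <;> interval_cases b <;> simp_all

private theorem unit_of (a : ℤ) (h : a = 1 ∨ a = -1) : ∃ u : ℤˣ, (u : ℤ) = a := by
  rcases h with h | h
  · exact ⟨1, by simp [h]⟩
  · exact ⟨-1, by simp [h]⟩

theorem exists_mat (A : Matrix (Fin 2) (Fin 2) ℤ) (h : A * A.transpose = 1) : ∃ g : SP, mat g = A := by
  have h00 := congrFun (congrFun h 0) 0
  have h01 := congrFun (congrFun h 0) 1
  have h11 := congrFun (congrFun h 1) 1
  simp [Matrix.mul_apply, Fin.sum_univ_two] at h00 h01 h11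
  have hA : A = !![A 0 0, A 0 1; A 1 0, A 1 1] := by
    ext i j; fin_cases i <;> fin_cases j <;> rfl
  rcases sq_sum_one _ _ h00 with ⟨h1, h2⟩ | ⟨h1, h2⟩
  · rcases sq_sum_one _ _ h11 with ⟨h3, h4⟩ | ⟨h3, h4⟩
    · exfalso
      rw [h1, h3] at h01
      rcases h2 with h2 | h2 <;> rcases h4 with h4 | h4 <;> rw [h2, h4] at h01 <;> norm_num at h01
    · obtain ⟨u, hu⟩ := unit_of _ h2
      obtain ⟨v, hv⟩ := unit_of _ h4
      refine ⟨⟨u, v, true⟩, ?_⟩
      rw [hA, h1, h3, ← hu, ← hv]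
      simp [mat]
  · rcases sq_sum_one _ _ h11 with ⟨h3, h4⟩ | ⟨h3, h4⟩
    · obtain ⟨u, hu⟩ := unit_of _ h2
      obtain ⟨v, hv⟩ := unit_of _ h4
      refine ⟨⟨u, v, false⟩, ?_⟩
      rw [hA, h1, h3, ← hu, ← hv]
      simp [mat]
    · exfalso
      rw [h1, h3] at h01
      rcases h2 with h2 | h2 <;> rcases h4 with h4 | h4 <;> rw [h2, h4] at h01 <;> norm_num at h01

theorem mat_inv (g : SP) : mat g⁻¹ = (mat g).transpose := by
  cases h : g.w <;> ext i j <;> fin_cases i <;> fin_cases j <;> simp [mat, h]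

theorem mat_symm (g : SP) (h : (mat g).transpose = mat g) (hw : g.w = true) : g.s = g.t := by
  have h1 := congrFun (congrFun h 0) 1
  simp [mat, hw] at h1
  exact Units.ext h1.symm

end Pool.Agent.SQR
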