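import Pool.Agent.SQR.Main
import Pool.Agent.SQR.Msp

/-!
# SQR: transport to `EuclideanSpace ℝ (Fin 2)`
-/

set_option autoImplicit false

namespace Pool.Agent.SQR

/-- The coordinates. -/
noncomputable def eV : EuclideanSpace ℝ (Fin 2) ≃ₜ V :=
  (EuclideanSpace.equiv (Fin 2) ℝ).toHomeomorph.trans (Homeomorph.finTwoArrow (X := ℝ))

@[simp] theorem eV_apply (x : EuclideanSpace ℝ (Fin 2)) : eV x = (x 0, x 1) := rfl

theorem mv_mat (g : SP) (a c x : EuclideanSpace ℝ (Fin 2)) :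
    (∀ k, x k = (∑ l, ((mat g k l : ℤ) : ℝ) * a l) + c k) ↔ eV x = mv g (eV c) (eV a) := by
  rw [Fin.forall_fin_two]
  cases h : g.w <;>
    simp [mv, act, mat, h, Fin.sum_univ_two, Prod.ext_iff, zsmul_eq_mul]

theorem mem_sq (x : EuclideanSpace ℝ (Fin 2)) : (∀ c, 0 ≤ x c ∧ x c ≤ 1) ↔ eV x ∈ sq := by
  rw [Fin.forall_fin_two]
  exact Iff.rfl

theorem fin_main (p : ℕ) (hp : p.Prime) (hp2 : p ≠ 2) (A : Set (EuclideanSpace ℝ (Fin 2)))
    (g : Fin p → Matrix (Fin 2) (Fin 2) ℤ) (hg : ∀ i, g i * (g i).transpose = 1)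
    (c : Fin p → EuclideanSpace ℝ (Fin 2)) (P : Fin p → Set (EuclideanSpace ℝ (Fin 2)))
    (hP : ∀ i, P i = {x | ∃ a ∈ A, ∀ k, x k = (∑ l, ((g i k l : ℤ) : ℝ) * a l) + c i k})
    (hreg : ∀ i, closure (interior (P i)) = P i)
    (hconn : ∀ i, IsConnected (interior (P i)))
    (hdisj : ∀ i j, i ≠ j → Disjoint (interior (P i)) (interior (P j)))
    (hcov : (⋃ i, P i) = {x : EuclideanSpace ℝ (Fin 2) | ∀ c, 0 ≤ x c ∧ x c ≤ 1})
    (hyp : (∀ i j, ((g i).transpose * g j).transpose = (g i).transpose * g j) ∨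
      ¬ (p : ℤ) ∣ (∑ i, g i).det) :
    ∃ σ : Equiv.Perm (Fin p),
      (∀ k : Fin p, P (σ k) =
        {x : EuclideanSpace ℝ (Fin 2) | (∀ c, 0 ≤ x c ∧ x c ≤ 1) ∧
          ((k : ℕ) : ℝ) / p ≤ x 1 ∧ x 1 ≤ (((k : ℕ) : ℝ) + 1) / p}) ∨
      (∀ k : Fin p, P (σ k) =
        {x : EuclideanSpace ℝ (Fin 2) | (∀ c, 0 ≤ x c ∧ x c ≤ 1) ∧
          ((k : ℕ) : ℝ) / p ≤ x 0 ∧ x 0 ≤ (((k : ℕ) : ℝ) + 1) / p}) := by
  choose γ hγ using fun i => exists_mat (g i) (hg i)
  set A' : Set V := eV '' A with hA'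
  -- the pieces in the plane
  have hP' : ∀ i, eV '' P i = mv (γ i) (eV (c i)) '' A' := by
    intro i
    rw [hP i]
    ext z
    constructor
    · rintro ⟨x, ⟨a, ha, hx⟩, rfl⟩
      refine ⟨eV a, ⟨a, ha, rfl⟩, ?_⟩
      rw [← hγ i] at hx
      exact ((mv_mat (γ i) a (c i) x).1 hx).symm
    · rintro ⟨_, ⟨a, ha, rfl⟩, rfl⟩
      refine ⟨eV.symm (mv (γ i) (eV (c i)) (eV a)), ⟨a, ha, ?_⟩, by simp⟩
      rw [← hγ i]
      rw [mv_mat, Homeomorph.apply_symm_apply]
  have him : ∀ i (B : Set V), mv (γ i) (eV (c i)) '' B = mvH (γ i) (eV (c i)) '' B := fun i B => rfl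
  let i0 : Fin p := ⟨0, hp.pos⟩
  -- `A'` is regular closed
  have hA1 : closure (interior A') = A' := by
    have h1 : eV '' closure (interior (P i0)) = eV '' P i0 := by rw [hreg]
    rw [eV.image_closure, eV.image_interior, hP', him, ← Homeomorph.image_interior,
      ← Homeomorph.image_closure] at h1
    exact (mvH (γ i0) (eV (c i0))).injective.image_injective h1
  have hInt : ∀ i, eV '' interior (P i) = mv (γ i) (eV (c i)) '' interior A' := by
    intro i
    rw [eV.image_interior, hP', him, him, ← Homeomorph.image_interior]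
  have hT : IsTil p (interior A') γ (fun i => eV (c i)) := by
    refine ⟨isOpen_interior, ?_, ?_, ?_, ?_⟩
    · rw [hA1]
    · have h1 : IsConnected (mvH (γ i0) (eV (c i0)) '' interior A') := by
        rw [← him, ← hInt]
        exact (hconn i0).image _ eV.continuous.continuousOn
      have h2 := h1.image _ (mvH (γ i0) (eV (c i0))).symm.continuous.continuousOn
      rwa [← Set.image_comp, Homeomorph.symm_comp_self, Set.image_id] at h2
    · intro i j hij
      rw [← hInt, ← hInt]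
      exact (Set.disjoint_image_iff eV.injective).2 (hdisj i j hij)
    · rw [hA1]
      have h1 : ⋃ i, mv (γ i) (eV (c i)) '' A' = eV '' ⋃ i, P i := by
        rw [Set.image_iUnion]
        simp only [hP']
      rw [h1, hcov]
      ext z
      constructor
      · rintro ⟨x, hx, rfl⟩
        exact (mem_sq x).1 hx
      · intro hz
        refine ⟨eV.symm z, ?_, by simp⟩
        rw [Set.mem_setOf_eq, mem_sq, Homeomorph.apply_symm_apply]
        exact hz
  have hH : Hyp p γ := by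
    rcases hyp with h | h
    · left
      intro i j hw
      refine mat_symm _ ?_ hw
      have h1 := h i j
      rw [← hγ i, ← hγ j, ← mat_inv, ← mat_mul] at h1
      exact h1
    · right
      intro hd
      apply h
      have h1 : ∑ i, g i = ∑ i, mat (γ i) := Finset.sum_congr rfl fun i _ => (hγ i).symm
      rw [h1]
      exact hd
  obtain ⟨σ, hσ⟩ := til_main p hp hp2 _ γ _ hT hH
  rw [hA1] at hσ
  have key : ∀ (i : Fin p) (B : Set V), mv (γ i) (eV (c i)) '' A' = B → P i = eV ⁻¹' B := by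
    intro i B hB
    rw [← hB, ← hP', Set.preimage_image_eq _ eV.injective]
  refine ⟨σ, ?_⟩
  rcases hσ with hσ | hσ
  · right
    intro k
    rw [key _ _ (hσ k)]
    ext x
    simp only [Set.mem_preimage, Set.mem_setOf_eq, mem_sq, eV_apply]
  · left
    intro k
    rw [key _ _ (hσ k)]
    ext x
    simp only [Set.mem_preimage, Set.mem_setOf_eq, mem_sq, eV_apply]

end Pool.Agent.SQR
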