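import Pool.Agent.SQR.GenL

/-!
# SQR module STAR: the identity `A A* = B B*` with `p` signs modulo `p`

PROOF. Strong induction on a bound `m` for all `|b i - b j|` (`i, j` both in `I` or both in `J`); statement for all
`l, b`.
Step 1: if `l' : Fin p → ℤˣ` and `u = ∑ i ∈ I, l' i`, `w = ∑ j ∈ J, l' j` (integers) satisfy `u² ≡ w² mod p`, then
`l'` is constant on `I` and constant on `J`: `p ∣ (u - w) * (u + w)`, so `p ∣ u - w` or `p ∣ u + w`; both are sums of
`p` signs, so odd (as `p` is odd), in particular nonzero, and of absolute value at most `p`; so one of them is `± p`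
and all the signs occurring in it are equal.
Step 2: evaluate the hypothesis at `y = 1` (the ring homomorphism `aug`): `u² = w²` in `ZMod p` with `l' = l`, so
`l` is constant on `I` and on `J`.  Evaluate at `y = -1` (the ring homomorphism with `single b a ↦ a * (-1)^b`,
built with `AddMonoidAlgebra.lift` as `evx` in `Defs.lean`): `l' i = l i * (-1) ^ (b i)` (for the second factor use
`(-1)^(-b) = (-1)^b`) is also constant on `I` and on `J`.  So `b i - b j` is even for `i, j ∈ I` and for `i, j ∈ J`.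
Step 3: choose (if nonempty) `i₀ ∈ I`, `j₀ ∈ J` and write `b i = b i₀ + 2 b' i` on `I`, `b j = b j₀ + 2 b' j` on
`J`.  The factors `single (b i₀) 1`, `single (- b i₀) 1` cancel, so
`∑ i ∈ I, single (2 b' i) .. * ∑ i ∈ I, single (- 2 b' i) ..` equals the analogous product for `J`; the ring
homomorphism `mapDomainRingHom` induced by `b ↦ 2 b` is injective (`AddMonoidAlgebra.mapDomain_injective`), so the
hypothesis holds for `b'`.  The differences within a class are halved; if all are `0` we are done, otherwise apply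
the induction hypothesis.
-/

set_option autoImplicit false

open AddMonoidAlgebra

namespace Pool.Agent.SQR

/-- If `p` divides a sum of `p` signs, all the signs are equal. -/
theorem star_all_eq (p : ℕ) (hp : p.Prime) (hp2 : p ≠ 2) (f : Fin p → ℤˣ)
    (h : (p : ℤ) ∣ ∑ i, ((f i : ℤˣ) : ℤ)) : ∀ i j, f i = f j := by
  have hs : ∑ i, ((f i : ℤˣ) : ℤ) = 2 * ((Finset.univ.filter fun i => f i = 1).card : ℤ) - p := by
    have h1 : ∀ i, ((f i : ℤˣ) : ℤ) = 2 * (if f i = 1 then (1 : ℤ) else 0) - 1 := by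
      intro i
      rcases Int.units_eq_one_or (f i) with h | h <;> simp [h]
    rw [Finset.sum_congr rfl fun i _ => h1 i, Finset.sum_sub_distrib, ← Finset.mul_sum, Finset.sum_boole]
    simp
  rw [hs] at h
  have h2 : (p : ℤ) ∣ 2 * ((Finset.univ.filter fun i => f i = 1).card : ℤ) := by
    have h3 := dvd_add h (dvd_refl (p : ℤ))
    simpa using h3
  have h4 : p ∣ 2 * (Finset.univ.filter fun i => f i = 1).card := by exact_mod_cast h2
  have h5 : p ∣ (Finset.univ.filter fun i => f i = 1).card := by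
    rcases (Nat.Prime.dvd_mul hp).1 h4 with h6 | h6
    · exact absurd ((Nat.prime_dvd_prime_iff_eq hp Nat.prime_two).1 h6) hp2
    · exact h6
  have h7 : (Finset.univ.filter fun i => f i = 1).card ≤ p := by
    have h8 := Finset.card_filter_le (Finset.univ : Finset (Fin p)) (fun i => f i = 1)
    simpa using h8
  rcases Nat.eq_zero_or_pos (Finset.univ.filter fun i => f i = 1).card with h9 | h9
  · have h10 : ∀ i, f i = -1 := by
      intro i
      rcases Int.units_eq_one_or (f i) with h | h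
      · exfalso
        rw [Finset.card_eq_zero] at h9
        have h11 : i ∈ (Finset.univ.filter fun i => f i = 1) := by simp [h]
        rw [h9] at h11
        simp at h11
      · exact h
    intro i j
    rw [h10, h10]
  · have h10 : (Finset.univ.filter fun i => f i = 1).card = p := le_antisymm h7 (Nat.le_of_dvd h9 h5)
    have h11 : (Finset.univ.filter fun i => f i = 1) = Finset.univ := by
      rw [← Finset.card_eq_iff_eq_univ, h10, Fintype.card_fin]
    have h12 : ∀ i, f i = 1 := by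
      intro i
      have h13 : i ∈ (Finset.univ.filter fun i => f i = 1) := by rw [h11]; exact Finset.mem_univ i
      simpa using h13
    intro i j
    rw [h12, h12]

theorem star_step (p : ℕ) (hp : p.Prime) (hp2 : p ≠ 2) (I J : Finset (Fin p)) (hIJ : Disjoint I J)
    (hU : I ∪ J = Finset.univ) (l : Fin p → ℤˣ)
    (h : (∑ i ∈ I, (((l i : ℤˣ) : ℤ) : ZMod p)) * (∑ i ∈ I, (((l i : ℤˣ) : ℤ) : ZMod p)) =
      (∑ i ∈ J, (((l i : ℤˣ) : ℤ) : ZMod p)) * (∑ i ∈ J, (((l i : ℤˣ) : ℤ) : ZMod p))) :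
    (∀ i ∈ I, ∀ j ∈ I, l i = l j) ∧ (∀ i ∈ J, ∀ j ∈ J, l i = l j) := by
  have hd : ∀ e : ℤˣ, (p : ℤ) ∣ (∑ i ∈ I, ((l i : ℤˣ) : ℤ)) + (e : ℤ) * (∑ i ∈ J, ((l i : ℤˣ) : ℤ)) →
      (∀ i ∈ I, ∀ j ∈ I, l i = l j) ∧ (∀ i ∈ J, ∀ j ∈ J, l i = l j) := by
    intro e he
    have h1 : (∑ i ∈ I, ((l i : ℤˣ) : ℤ)) + (e : ℤ) * (∑ i ∈ J, ((l i : ℤˣ) : ℤ)) =
        ∑ i, (((if i ∈ I then l i else e * l i) : ℤˣ) : ℤ) := by
      rw [← hU, Finset.sum_union hIJ, Finset.mul_sum]
      congr 1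
      · refine Finset.sum_congr rfl fun i hi => ?_
        rw [if_pos hi]
      · refine Finset.sum_congr rfl fun i hi => ?_
        rw [if_neg (fun h2 => (Finset.disjoint_left.1 hIJ) h2 hi), Units.val_mul]
    rw [h1] at he
    have h2 := star_all_eq p hp hp2 _ he
    constructor
    · intro i hi j hj
      have h3 := h2 i j
      simpa [hi, hj] using h3
    · intro i hi j hj
      have h3 := h2 i j
      have h4 : i ∉ I := fun h5 => (Finset.disjoint_left.1 hIJ) h5 hi
      have h5 : j ∉ I := fun h6 => (Finset.disjoint_left.1 hIJ) h6 hj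
      simpa [h4, h5] using h3
  have : Fact p.Prime := ⟨hp⟩
  have h1 : ((((∑ i ∈ I, ((l i : ℤˣ) : ℤ)) + (∑ i ∈ J, ((l i : ℤˣ) : ℤ))) *
      ((∑ i ∈ I, ((l i : ℤˣ) : ℤ)) - (∑ i ∈ J, ((l i : ℤˣ) : ℤ))) : ℤ) : ZMod p) = 0 := by
    push_cast
    linear_combination h
  rw [ZMod.intCast_zmod_eq_zero_iff_dvd] at h1
  have hpp : Prime (p : ℤ) := Nat.prime_iff_prime_int.1 hp
  rcases hpp.dvd_or_dvd h1 with h2 | h2
  · apply hd 1
    simpa using h2
  · apply hd (-1)
    simpa [sub_eq_add_neg] using h2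

/-- evaluation at a sign -/
noncomputable def starEv (p : ℕ) (e : ℤˣ) : AddMonoidAlgebra (ZMod p) ℤ →+* ZMod p :=
  ((AddMonoidAlgebra.lift (ZMod p) (ZMod p) ℤ)
    ((Int.castRingHom (ZMod p) : ℤ →* ZMod p).comp ((Units.coeHom ℤ).comp (zpowersHom ℤˣ e)))).toRingHom

theorem starEv_single (p : ℕ) (e : ℤˣ) (b : ℤ) (a : ZMod p) :
    starEv p e (single b a) = a * (((e ^ b : ℤˣ) : ℤ) : ZMod p) := by
  have h1 : starEv p e (single b a) = a • ((((e ^ b : ℤˣ) : ℤ) : ZMod p)) := by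
    exact AddMonoidAlgebra.lift_single _ _ _
  rw [h1, smul_eq_mul]

theorem star_eval (p : ℕ) (hp : p.Prime) (hp2 : p ≠ 2) (I J : Finset (Fin p)) (hIJ : Disjoint I J)
    (hU : I ∪ J = Finset.univ) (l : Fin p → ℤˣ) (b : Fin p → ℤ)
    (h : (∑ i ∈ I, (single (b i) (((l i : ℤˣ) : ℤ) : ZMod p) : AddMonoidAlgebra (ZMod p) ℤ)) *
        (∑ i ∈ I, (single (-b i) (((l i : ℤˣ) : ℤ) : ZMod p) : AddMonoidAlgebra (ZMod p) ℤ)) =
      (∑ j ∈ J, (single (b j) (((l j : ℤˣ) : ℤ) : ZMod p) : AddMonoidAlgebra (ZMod p) ℤ)) *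
        (∑ j ∈ J, (single (-b j) (((l j : ℤˣ) : ℤ) : ZMod p) : AddMonoidAlgebra (ZMod p) ℤ))) (e : ℤˣ) :
    (∀ i ∈ I, ∀ j ∈ I, l i * e ^ (b i) = l j * e ^ (b j)) ∧
      (∀ i ∈ J, ∀ j ∈ J, l i * e ^ (b i) = l j * e ^ (b j)) := by
  have h1 := congrArg (starEv p e) h
  rw [map_mul, map_mul, map_sum, map_sum, map_sum, map_sum] at h1
  simp only [starEv_single] at h1
  have h2 : ∀ i, (e ^ (-b i) : ℤˣ) = e ^ (b i) := by
    intro i
    rw [zpow_neg, Int.units_inv_eq_self]
  simp only [h2] at h1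
  refine star_step p hp hp2 I J hIJ hU (fun i => l i * e ^ (b i)) ?_
  simpa [Units.val_mul] using h1

theorem star_half (p : ℕ) (I : Finset (Fin p)) (a : Fin p → ZMod p) (b b' : Fin p → ℤ) (c : ℤ)
    (hb : ∀ i ∈ I, b i = c + 2 * b' i) :
    (∑ i ∈ I, (single (b i) (a i) : AddMonoidAlgebra (ZMod p) ℤ)) *
        (∑ i ∈ I, (single (-b i) (a i) : AddMonoidAlgebra (ZMod p) ℤ)) =
      mapDomainRingHom (ZMod p) (AddMonoidHom.mulLeft (2 : ℤ))
        ((∑ i ∈ I, (single (b' i) (a i) : AddMonoidAlgebra (ZMod p) ℤ)) *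
        (∑ i ∈ I, (single (-b' i) (a i) : AddMonoidAlgebra (ZMod p) ℤ))) := by
  have h1 : ∑ i ∈ I, (single (b i) (a i) : AddMonoidAlgebra (ZMod p) ℤ) = single c 1 *
      mapDomainRingHom (ZMod p) (AddMonoidHom.mulLeft (2 : ℤ))
        (∑ i ∈ I, (single (b' i) (a i) : AddMonoidAlgebra (ZMod p) ℤ)) := by
    rw [map_sum, Finset.mul_sum]
    refine Finset.sum_congr rfl fun i hi => ?_
    simp only [mapDomainRingHom_apply, mapDomain_single, AddMonoidHom.coe_mulLeft, single_mul_single,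
      one_mul, hb i hi]
  have h2 : ∑ i ∈ I, (single (-b i) (a i) : AddMonoidAlgebra (ZMod p) ℤ) = single (-c) 1 *
      mapDomainRingHom (ZMod p) (AddMonoidHom.mulLeft (2 : ℤ))
        (∑ i ∈ I, (single (-b' i) (a i) : AddMonoidAlgebra (ZMod p) ℤ)) := by
    rw [map_sum, Finset.mul_sum]
    refine Finset.sum_congr rfl fun i hi => ?_
    simp only [mapDomainRingHom_apply, mapDomain_single, AddMonoidHom.coe_mulLeft, single_mul_single,
      one_mul, hb i hi]
    congr 1
    ring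
  have h3 : (single c (1 : ZMod p) : AddMonoidAlgebra (ZMod p) ℤ) * single (-c) 1 = 1 := by
    rw [single_mul_single, AddMonoidAlgebra.one_def]
    simp
  rw [h1, h2, map_mul]
  rw [mul_mul_mul_comm, h3, one_mul]

theorem star_ind (p : ℕ) (hp : p.Prime) (hp2 : p ≠ 2) (I J : Finset (Fin p)) (hIJ : Disjoint I J)
    (hU : I ∪ J = Finset.univ) (l : Fin p → ℤˣ) (n : ℕ) : ∀ (b : Fin p → ℤ)
    (_ : ∀ i ∈ I, ∀ j ∈ I, |b i - b j| < 2 ^ n) (_ : ∀ i ∈ J, ∀ j ∈ J, |b i - b j| < 2 ^ n)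
    (_ : (∑ i ∈ I, (single (b i) (((l i : ℤˣ) : ℤ) : ZMod p) : AddMonoidAlgebra (ZMod p) ℤ)) *
        (∑ i ∈ I, (single (-b i) (((l i : ℤˣ) : ℤ) : ZMod p) : AddMonoidAlgebra (ZMod p) ℤ)) =
      (∑ j ∈ J, (single (b j) (((l j : ℤˣ) : ℤ) : ZMod p) : AddMonoidAlgebra (ZMod p) ℤ)) *
        (∑ j ∈ J, (single (-b j) (((l j : ℤˣ) : ℤ) : ZMod p) : AddMonoidAlgebra (ZMod p) ℤ))),
    (∀ i ∈ I, ∀ j ∈ I, b i = b j) ∧ (∀ i ∈ J, ∀ j ∈ J, b i = b j) := by
  induction n with
  | zero =>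
    intro b h1 h2 _
    constructor
    · intro i hi j hj
      have h3 := h1 i hi j hj
      rw [pow_zero, Int.abs_lt_one_iff, sub_eq_zero] at h3
      exact h3
    · intro i hi j hj
      have h3 := h2 i hi j hj
      rw [pow_zero, Int.abs_lt_one_iff, sub_eq_zero] at h3
      exact h3
  | succ n ih =>
    intro b h1 h2 h
    have h3 := star_eval p hp hp2 I J hIJ hU l b h 1
    have h4 := star_eval p hp hp2 I J hIJ hU l b h (-1)
    simp only [one_zpow, mul_one] at h3
    have key : ∀ i j, l i = l j → l i * (-1) ^ (b i) = l j * (-1) ^ (b j) → Even (b i - b j) := by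
      intro i j e1 e2
      rw [e1] at e2
      have e3 := mul_left_cancel e2
      have e4 : ((-1 : ℤˣ)) ^ (b i - b j) = 1 := by
        rw [zpow_sub, e3, mul_inv_cancel]
      by_contra h5
      rw [Int.not_even_iff_odd] at h5
      obtain ⟨k, hk⟩ := h5
      rw [hk, zpow_add, zpow_mul] at e4
      revert e4
      simp
    have key2 : ∀ K : Finset (Fin p), (∀ i ∈ K, ∀ j ∈ K, Even (b i - b j)) →
        ∃ c : ℤ, ∀ i ∈ K, b i = c + 2 * ((b i - c) / 2) := by
      intro K hK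
      rcases K.eq_empty_or_nonempty with h5 | ⟨k, hk⟩
      · refine ⟨0, ?_⟩
        intro i hi
        rw [h5] at hi
        simp at hi
      · refine ⟨b k, ?_⟩
        intro i hi
        obtain ⟨m, hm⟩ := hK i hi k hk
        omega
    obtain ⟨c, hc⟩ := key2 I fun i hi j hj => key i j (h3.1 i hi j hj) (h4.1 i hi j hj)
    obtain ⟨d, hd⟩ := key2 J fun i hi j hj => key i j (h3.2 i hi j hj) (h4.2 i hi j hj)
    set b' : Fin p → ℤ := fun i => if i ∈ I then (b i - c) / 2 else (b i - d) / 2 with hb'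
    have hI : ∀ i ∈ I, b i = c + 2 * b' i := by
      intro i hi
      have h5 := hc i hi
      simp only [hb', if_pos hi]
      exact h5
    have hJ : ∀ i ∈ J, b i = d + 2 * b' i := by
      intro i hi
      have h5 := hd i hi
      have h6 : i ∉ I := fun h7 => (Finset.disjoint_left.1 hIJ) h7 hi
      simp only [hb', if_neg h6]
      exact h5
    rw [star_half p I _ b b' c hI, star_half p J _ b b' d hJ] at h
    have hinj : Function.Injective (mapDomainRingHom (ZMod p) (AddMonoidHom.mulLeft (2 : ℤ))) := by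
      intro x y hxy
      refine AddMonoidAlgebra.mapDomain_injective (f := AddMonoidHom.mulLeft (2 : ℤ)) ?_ hxy
      intro x y hxy
      simp only [AddMonoidHom.coe_mulLeft] at hxy
      omega
    have h5 := ih b' ?_ ?_ (hinj h)
    · constructor
      · intro i hi j hj
        rw [hI i hi, hI j hj, h5.1 i hi j hj]
      · intro i hi j hj
        rw [hJ i hi, hJ j hj, h5.2 i hi j hj]
    · intro i hi j hj
      have h6 := h1 i hi j hj
      rw [hI i hi, hI j hj] at h6
      have h7 : c + 2 * b' i - (c + 2 * b' j) = 2 * (b' i - b' j) := by ring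
      rw [h7, abs_mul, pow_succ] at h6
      have h8 : |(2 : ℤ)| = 2 := rfl
      rw [h8] at h6
      linarith
    · intro i hi j hj
      have h6 := h2 i hi j hj
      rw [hJ i hi, hJ j hj] at h6
      have h7 : d + 2 * b' i - (d + 2 * b' j) = 2 * (b' i - b' j) := by ring
      rw [h7, abs_mul, pow_succ] at h6
      have h8 : |(2 : ℤ)| = 2 := rfl
      rw [h8] at h6
      linarith

theorem star (p : ℕ) (hp : p.Prime) (hp2 : p ≠ 2) (I J : Finset (Fin p)) (hIJ : Disjoint I J)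
    (hU : I ∪ J = Finset.univ) (l : Fin p → ℤˣ) (b : Fin p → ℤ)
    (h : (∑ i ∈ I, (single (b i) (((l i : ℤˣ) : ℤ) : ZMod p) : AddMonoidAlgebra (ZMod p) ℤ)) *
        (∑ i ∈ I, (single (-b i) (((l i : ℤˣ) : ℤ) : ZMod p) : AddMonoidAlgebra (ZMod p) ℤ)) =
      (∑ j ∈ J, (single (b j) (((l j : ℤˣ) : ℤ) : ZMod p) : AddMonoidAlgebra (ZMod p) ℤ)) *
        (∑ j ∈ J, (single (-b j) (((l j : ℤˣ) : ℤ) : ZMod p) : AddMonoidAlgebra (ZMod p) ℤ))) :
    (∀ i ∈ I, ∀ j ∈ I, b i = b j) ∧ (∀ i ∈ J, ∀ j ∈ J, b i = b j) := by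
  have hS : ∃ n : ℕ, ∀ i j, |b i - b j| < 2 ^ n := by
    refine ⟨(∑ i, ∑ j, |b i - b j|).toNat, ?_⟩
    intro i j
    have h1 : |b i - b j| ≤ ∑ i, ∑ j, |b i - b j| := by
      calc |b i - b j| ≤ ∑ j, |b i - b j| :=
            Finset.single_le_sum (f := fun j => |b i - b j|) (fun j _ => abs_nonneg _) (Finset.mem_univ j)
        _ ≤ _ := Finset.single_le_sum (f := fun i => ∑ j, |b i - b j|)
            (fun i _ => Finset.sum_nonneg fun j _ => abs_nonneg _) (Finset.mem_univ i)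
    have h2 : (0 : ℤ) ≤ ∑ i, ∑ j, |b i - b j| := le_trans (abs_nonneg _) h1
    have h3 : ((∑ i, ∑ j, |b i - b j|).toNat : ℤ) = ∑ i, ∑ j, |b i - b j| := Int.toNat_of_nonneg h2
    have h4 : (((∑ i, ∑ j, |b i - b j|).toNat : ℕ) : ℤ) < 2 ^ (∑ i, ∑ j, |b i - b j|).toNat := by
      exact_mod_cast Nat.lt_two_pow_self
    rw [h3] at h4
    exact lt_of_le_of_lt h1 h4
  obtain ⟨n, hn⟩ := hS
  exact star_ind p hp hp2 I J hIJ hU l n b (fun i _ j _ => hn i j) (fun i _ j _ => hn i j) h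

end Pool.Agent.SQR
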