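import Pool.Agent.SQR.Tsm

/-!
# SQR module CNC: cancelling the corner sum of a square

PROOF. (1) For all `g : SP` and all `e : M` there is `v` with
`chi g • sig K g (qq K e) = single v 1 * qq K e`.  Indeed `sig K g (qq K e)` is the product of
`single (s • e, 0) 1 - 1` and `single (0, t • e) 1 - 1` with the two signs `s, t` of `g` (in either order; if `g.w`
then the factors `single (e, 0) 1 - 1`, `single (0, e) 1 - 1` are exchanged), and
`single (-e, 0) 1 - 1 = - single (-e, 0) 1 * (single (e, 0) 1 - 1)`.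
(2) So `tsm K g d (qq K N * Q) = (∑ i, single (d i + v i) 1 * sig K (g i) Q) * qq K N`.
(3) `qq K (N * m) = qq K N * κ` with `κ = (∑ k ∈ range m, single (k N, 0) 1) * (∑ k ∈ range m, single (0, k N) 1)`
(`geom_sum_mul` with `single (N, 0) 1 ^ m = single (N * m, 0) 1`), `aug K κ = m ^ 2`.
(4) `AddMonoidAlgebra K (ℤ × ℤ)` is a domain (by instances) and `qq K N ≠ 0` (each factor is nonzero as `N ≠ 0`:
`single (N, 0) 1 ≠ 1`); cancel it, and apply `aug K` (`aug_sig`, `aug_single`): `p * aug Q = m ^ 2`.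
-/

set_option autoImplicit false

open AddMonoidAlgebra

namespace Pool.Agent.SQR

private theorem one_s' (K : Type*) [CommRing K] {A : Type*} [AddCommGroup A] (s : ℤˣ) (w : A) :
    ∃ v : A, (s : ℤ) • (single ((s : ℤ) • w) (1 : K) - 1) = single v 1 * (single w 1 - 1) := by
  rcases Int.units_eq_one_or s with rfl | rfl
  · refine ⟨0, ?_⟩
    rw [← AddMonoidAlgebra.one_def, Units.val_one, one_smul, one_smul, one_mul]
  · refine ⟨-w, ?_⟩
    rw [mul_sub, single_mul_single, neg_add_cancel, mul_one, mul_one, ← AddMonoidAlgebra.one_def,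
      Units.val_neg, Units.val_one, neg_smul, neg_smul, one_smul, one_smul, neg_sub]

theorem chi_sig_qq (K : Type*) [CommRing K] {M : Type*} [AddCommGroup M] (g : SP) (e : M) :
    ∃ v : M × M, chi g • sig K g (qq K e) = single v (1 : K) * qq K e := by
  obtain ⟨v1, h1⟩ := one_s' K g.s ((e, 0) : M × M)
  obtain ⟨v2, h2⟩ := one_s' K g.t ((0, e) : M × M)
  refine ⟨v1 + v2, ?_⟩
  have hS : single (v1 + v2) (1 : K) = single v1 1 * single v2 1 := by
    rw [single_mul_single, mul_one]
  have hR : single (v1 + v2) (1 : K) * qq K e =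
      ((g.s : ℤ) • (single ((g.s : ℤ) • ((e, 0) : M × M)) (1 : K) - 1)) *
        ((g.t : ℤ) • (single ((g.t : ℤ) • ((0, e) : M × M)) (1 : K) - 1)) := by
    rw [h1, h2, hS]
    unfold qq
    ring
  have hL : sig K g (qq K e) = (single ((g.s : ℤ) • ((e, 0) : M × M)) (1 : K) - 1) *
      (single ((g.t : ℤ) • ((0, e) : M × M)) (1 : K) - 1) := by
    unfold qq
    rw [map_mul, map_sub, map_sub, sig_single, sig_single, map_one]
    cases hw : g.w
    · simp [act, hw]
    · simp only [act, hw, if_true, AddMonoidHom.coe_mk, ZeroHom.coe_mk, smul_zero, Prod.smul_mk]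
      rw [mul_comm]
  rw [hR, hL, smul_mul_smul_comm]
  rfl

private theorem qq_ne (K : Type*) [CommRing K] [IsDomain K] (N : ℤ) (hN : N ≠ 0) :
    qq K N ≠ 0 := by
  unfold qq
  refine mul_ne_zero (fun h => ?_) (fun h => ?_)
  · have h1 := congrArg (fun F => F.coeff (N, (0 : ℤ))) (sub_eq_zero.mp h)
    simp only [AddMonoidAlgebra.one_def, coeff_single] at h1
    rw [Finsupp.single_apply, Finsupp.single_apply, if_pos rfl, if_neg] at h1
    · exact one_ne_zero h1
    · intro h2
      exact hN (congrArg Prod.fst h2).symm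
  · have h1 := congrArg (fun F => F.coeff ((0 : ℤ), N)) (sub_eq_zero.mp h)
    simp only [AddMonoidAlgebra.one_def, coeff_single] at h1
    rw [Finsupp.single_apply, Finsupp.single_apply, if_pos rfl, if_neg] at h1
    · exact one_ne_zero h1
    · intro h2
      exact hN (congrArg Prod.snd h2).symm

private theorem qq_mul (K : Type*) [CommRing K] (N : ℤ) (m : ℕ) :
    ∃ κ : AddMonoidAlgebra K (ℤ × ℤ), qq K (N * m) = κ * qq K N ∧ aug K κ = (m : K) ^ 2 := by
  refine ⟨(∑ k ∈ Finset.range m, (single (N, (0 : ℤ)) (1 : K)) ^ k) *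
    (∑ k ∈ Finset.range m, (single ((0 : ℤ), N) (1 : K)) ^ k), ?_, ?_⟩
  · have h1 := geom_sum_mul (single (N, (0 : ℤ)) (1 : K)) m
    have h2 := geom_sum_mul (single ((0 : ℤ), N) (1 : K)) m
    rw [AddMonoidAlgebra.single_pow, one_pow] at h1 h2
    have e1 : m • ((N, (0 : ℤ)) : ℤ × ℤ) = (N * m, 0) := by
      ext
      · simp [mul_comm]
      · simp
    have e2 : m • (((0 : ℤ), N) : ℤ × ℤ) = (0, N * m) := by
      ext
      · simp
      · simp [mul_comm]
    rw [e1] at h1
    rw [e2] at h2
    unfold qq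
    rw [← h1, ← h2]
    ring
  · rw [map_mul, map_sum, map_sum]
    simp only [map_pow, aug_single, one_pow, Finset.sum_const, Finset.card_range, nsmul_eq_mul,
      mul_one]
    ring

theorem cnc {p : ℕ} (K : Type*) [CommRing K] [IsDomain K] (g : Fin p → SP) (d : Fin p → ℤ × ℤ)
    (Q : AddMonoidAlgebra K (ℤ × ℤ)) (N : ℤ) (hN : N ≠ 0) (m : ℕ)
    (h : tsm K g d (qq K N * Q) = qq K (N * m)) : (p : K) * aug K Q = (m : K) ^ 2 := by
  choose v hv using fun i => chi_sig_qq K (g i) N
  obtain ⟨κ, hκ, haug⟩ := qq_mul K N m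
  have h1 : tsm K g d (qq K N * Q) =
      (∑ i, single (d i + v i) (1 : K) * sig K (g i) Q) * qq K N := by
    unfold tsm
    rw [Finset.sum_mul]
    refine Finset.sum_congr rfl fun i _ => ?_
    have hS : single (d i + v i) (1 : K) = single (d i) 1 * single (v i) 1 := by
      rw [single_mul_single, mul_one]
    have h2 : chi (g i) • (single (d i) (1 : K) * sig K (g i) (qq K N * Q)) =
        single (d i) (1 : K) * (chi (g i) • sig K (g i) (qq K N)) * sig K (g i) Q := by
      rw [map_mul, zsmul_eq_mul, zsmul_eq_mul]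
      ring
    rw [h2, hv i, hS]
    ring
  rw [h1, hκ] at h
  have h3 := mul_right_cancel₀ (qq_ne K N hN) h
  rw [← haug, ← h3, map_sum]
  simp only [map_mul, aug_single, one_mul, aug_sig, Finset.sum_const, Finset.card_univ,
    Fintype.card_fin, nsmul_eq_mul]

end Pool.Agent.SQR
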