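import Pool.Agent.SQR.Alx
import Pool.Agent.SQR.Cnc

/-!
# SQR module ALG: diagonal linear parts, the algebraic conclusion

PROOF. Write `K = ZMod p`, `L = n * m` with `n = p ^ v` and `m` a natural number not divisible by `p`
(`Nat.exists_eq_pow_mul_and_not_dvd` for `L.toNat`).
Frobenius: `xx K ^ n = single (n, 0) 1 - 1` and `yy K ^ n = single (0, n) 1 - 1` (`sub_pow_char_pow`, or
`sub_pow_expChar_pow`, the group ring has characteristic `p`; `single_pow`), so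
`xx K ^ n * yy K ^ n = qq K (n : ℤ)`, and `qq K L` is divisible by it (`geom_sum`: `single (n, 0) 1 - 1` divides
`single (n * m, 0) 1 - 1`).

Case A: `xx K ^ n ∣ f` and `yy K ^ n ∣ f`.  By `both`, `f = qq K n * Q`; `cnc` with `N = n`:
`(p : K) * aug K Q = m ^ 2`, so `m ^ 2 = 0` in `ZMod p`, contradiction.
Case B: `¬ xx K ^ n ∣ f`: `alx` (as `xx K ^ n ∣ qq K L`).
Case C: `¬ yy K ^ n ∣ f`.  Let `τ = ⟨1, 1, true⟩`.  Apply `alx` to `g' i = τ * g i * τ⁻¹`, `d' i = act τ (d i)`,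
`f' = sig K τ f`: by `tsm_conj`, `sig_qq_tau`, `tsm K g' d' f' = qq K L`; `sig K τ` is an involution exchanging
`xx K` and `yy K`, so `¬ xx K ^ n ∣ f'`; `(g' i).t = (g i).s`, `(d' i).2 = (d i).1`.
-/

set_option autoImplicit false

open AddMonoidAlgebra

namespace Pool.Agent.SQR

private theorem alg_tau_xx (K : Type*) [CommRing K] : sig K ⟨1, 1, true⟩ (xx K) = yy K := by
  unfold xx yy
  rw [map_sub, sig_single, map_one]
  simp [act]

private theorem alg_tau_tau (K : Type*) [CommRing K] (f : AddMonoidAlgebra K (ℤ × ℤ)) :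
    sig K ⟨1, 1, true⟩ (sig K ⟨1, 1, true⟩ f) = f := by
  rw [← sig_mul]
  have h1 : (⟨1, 1, true⟩ * ⟨1, 1, true⟩ : SP) = 1 := by decide
  rw [h1, sig_one]

private theorem alg_frob (p : ℕ) [Fact p.Prime] (w : ℤ × ℤ) (v : ℕ) :
    (single w (1 : ZMod p) - 1 : AddMonoidAlgebra (ZMod p) (ℤ × ℤ)) ^ (p ^ v) =
      single ((p ^ v : ℕ) • w) 1 - 1 := by
  have h1 : CharP (AddMonoidAlgebra (ZMod p) (ℤ × ℤ)) p :=
    charP_of_injective_algebraMap (FaithfulSMul.algebraMap_injective (ZMod p) _) p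
  rw [sub_pow_char_pow, AddMonoidAlgebra.single_pow, one_pow, one_pow]

theorem alg (p : ℕ) [Fact p.Prime] (hp2 : p ≠ 2) (g : Fin p → SP) (hg : ∀ i, (g i).w = false)
    (d : Fin p → ℤ × ℤ) (f : AddMonoidAlgebra (ZMod p) (ℤ × ℤ)) (L : ℤ) (hL : 0 < L)
    (h : tsm (ZMod p) g d f = qq (ZMod p) L) :
    (∀ i j, (g i).t = (g j).t → (d i).2 = (d j).2) ∨ (∀ i j, (g i).s = (g j).s → (d i).1 = (d j).1) := by
  have hp : p.Prime := Fact.out
  obtain ⟨v, m, hm, hLm⟩ := Nat.exists_eq_pow_mul_and_not_dvd (n := L.toNat) (by omega) p hp.ne_one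
  have hL2 : L = ((p ^ v : ℕ) : ℤ) * (m : ℤ) := by
    rw [← Nat.cast_mul, ← hLm]
    omega
  have hxx : xx (ZMod p) ^ (p ^ v) = single (((p ^ v : ℕ) : ℤ), (0 : ℤ)) 1 - 1 := by
    unfold xx
    rw [alg_frob]
    congr 2
    ext <;> simp
  have hyy : yy (ZMod p) ^ (p ^ v) = single ((0 : ℤ), ((p ^ v : ℕ) : ℤ)) 1 - 1 := by
    unfold yy
    rw [alg_frob]
    congr 2
    ext <;> simp
  have hxd : xx (ZMod p) ^ (p ^ v) ∣ qq (ZMod p) L := by
    unfold qq
    refine dvd_mul_of_dvd_left ?_ _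
    rw [hxx]
    have h1 := sub_one_dvd_pow_sub_one (single (((p ^ v : ℕ) : ℤ), (0 : ℤ)) (1 : ZMod p)) m
    rw [AddMonoidAlgebra.single_pow, one_pow] at h1
    have h2 : m • ((((p ^ v : ℕ) : ℤ), (0 : ℤ)) : ℤ × ℤ) = (L, 0) := by
      rw [hL2]
      ext
      · simp [mul_comm]
      · simp
    rw [h2] at h1
    exact h1
  by_cases hx : xx (ZMod p) ^ (p ^ v) ∣ f
  · by_cases hy : yy (ZMod p) ^ (p ^ v) ∣ f
    · exfalso
      obtain ⟨Q, hQ⟩ := both (p ^ v) f hx hy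
      have h1 : f = qq (ZMod p) ((p ^ v : ℕ) : ℤ) * Q := by
        rw [hQ, hxx, hyy]
        rfl
      have h2 := cnc (ZMod p) g d Q ((p ^ v : ℕ) : ℤ) (by
        have := pow_pos hp.pos v
        exact_mod_cast this.ne') m (by rw [← h1, h, hL2])
      rw [CharP.cast_eq_zero, zero_mul] at h2
      have h3 : (m : ZMod p) = 0 := pow_eq_zero_iff (two_ne_zero) |>.1 h2.symm
      exact hm ((ZMod.natCast_eq_zero_iff m p).1 h3)
    · right
      have h1 : tsm (ZMod p) (fun i => ⟨1, 1, true⟩ * g i * (⟨1, 1, true⟩ : SP)⁻¹)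
          (fun i => act ⟨1, 1, true⟩ (d i)) (sig (ZMod p) ⟨1, 1, true⟩ f) = qq (ZMod p) L := by
        rw [tsm_conj, h, sig_qq_tau]
      have h2 : ¬ xx (ZMod p) ^ (p ^ v) ∣ sig (ZMod p) ⟨1, 1, true⟩ f := by
        rintro ⟨c, hc⟩
        apply hy
        refine ⟨sig (ZMod p) ⟨1, 1, true⟩ c, ?_⟩
        rw [← alg_tau_xx, ← map_pow, ← map_mul, ← hc, alg_tau_tau]
      have h3 := alx p hp2 (fun i => ⟨1, 1, true⟩ * g i * (⟨1, 1, true⟩ : SP)⁻¹)
        (fun i => by simp [hg i]) (fun i => act ⟨1, 1, true⟩ (d i)) _ (p ^ v) h2 (by rw [h1]; exact hxd)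
      intro i j hij
      have h4 := h3 i j (by simp [hg i, hg j, hij])
      simpa [act] using h4
  · left
    exact alx p hp2 g hg d f (p ^ v) hx (by rw [h]; exact hxd)

end Pool.Agent.SQR
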