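import Pool.Agent.SQR.GenL

/-!
# SQR module PXY: the primes `x - 1` and `y - 1` of the group ring of `ℤ × ℤ`

Write `X = single (1, 0) 1 - 1`, `Y = single (0, 1) 1 - 1`, `prY f = mapDomain snd f` (the value at `x = 1`),
`prX f = mapDomain fst f` (the value at `y = 1`).

PROOF. `dvd_x`: for all `f`, `X ∣ f - ι (prY f)`, where `ι` is the ring homomorphism induced by `b ↦ (0, b)`: by
`induction_linear` it suffices to treat `single (a, b) r = single (a, 0) 1 * single (0, b) r`, and
`X ∣ single (a, 0) 1 - 1` for every integer `a` (induction on `|a|`: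
`single (a + 1, 0) 1 - 1 = single (a, 0) 1 * X + (single (a, 0) 1 - 1)`, and
`single (-a, 0) 1 - 1 = - single (-a, 0) 1 * (single (a, 0) 1 - 1)`).  If `prY f = 0` this gives `X ∣ f`.
`dvd_y`: the same with the coordinates exchanged.
`both`: `X` is prime: it is nonzero (as `K` is nontrivial), not a unit since `prY X = 0`, and if `X ∣ a * b` then
`prY a * prY b = 0`, so `prY a = 0` or `prY b = 0` (`AddMonoidAlgebra K ℤ` is a domain), so `X ∣ a` or `X ∣ b`.
`X` does not divide `Y ^ n` as `prY (Y ^ n) = (single 1 1 - 1) ^ n ≠ 0`.  If `f = Y ^ n * R` and `X ^ n ∣ f` then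
`X ^ n ∣ R` (`Prime.pow_dvd_of_dvd_mul_left`).
-/

set_option autoImplicit false

open AddMonoidAlgebra

namespace Pool.Agent.SQR

/-- `x - 1`. -/
noncomputable def xx (K : Type*) [CommRing K] : AddMonoidAlgebra K (ℤ × ℤ) := single ((1 : ℤ), (0 : ℤ)) (1 : K) - 1

/-- `y - 1`. -/
noncomputable def yy (K : Type*) [CommRing K] : AddMonoidAlgebra K (ℤ × ℤ) := single ((0 : ℤ), (1 : ℤ)) (1 : K) - 1

/-- The value at `x = 1`. -/
noncomputable def prY (K : Type*) [CommRing K] : AddMonoidAlgebra K (ℤ × ℤ) →+* AddMonoidAlgebra K ℤ :=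
  mapDomainRingHom K (AddMonoidHom.snd ℤ ℤ)

/-- The value at `y = 1`. -/
noncomputable def prX (K : Type*) [CommRing K] : AddMonoidAlgebra K (ℤ × ℤ) →+* AddMonoidAlgebra K ℤ :=
  mapDomainRingHom K (AddMonoidHom.fst ℤ ℤ)

@[simp] theorem prY_single (K : Type*) [CommRing K] (w : ℤ × ℤ) (a : K) : prY K (single w a) = single w.2 a := by
  simp [prY]

@[simp] theorem prX_single (K : Type*) [CommRing K] (w : ℤ × ℤ) (a : K) : prX K (single w a) = single w.1 a := by
  simp [prX]

private theorem pxy_a (K : Type*) [CommRing K] (a : ℤ) :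
    xx K ∣ (single (a, (0 : ℤ)) (1 : K) - 1 : AddMonoidAlgebra K (ℤ × ℤ)) := by
  induction a using Int.induction_on with
  | zero =>
    have h1 : (single ((0 : ℤ), (0 : ℤ)) (1 : K) : AddMonoidAlgebra K (ℤ × ℤ)) = 1 := rfl
    rw [h1, sub_self]
    exact dvd_zero _
  | succ n ih =>
    have h1 : (single ((n : ℤ) + 1, (0 : ℤ)) (1 : K) - 1 : AddMonoidAlgebra K (ℤ × ℤ))
        = xx K * single ((n : ℤ), (0 : ℤ)) 1 + (single ((n : ℤ), (0 : ℤ)) 1 - 1) := by
      unfold xx
      rw [sub_mul, single_mul_single, one_mul, Prod.mk_add_mk, add_comm (1 : ℤ), zero_add, one_mul]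
      ring
    rw [h1]
    exact dvd_add (dvd_mul_right _ _) ih
  | pred n ih =>
    have h1 : (single (-(n : ℤ) - 1, (0 : ℤ)) (1 : K) - 1 : AddMonoidAlgebra K (ℤ × ℤ))
        = (single (-(n : ℤ), (0 : ℤ)) 1 - 1) - xx K * single (-(n : ℤ) - 1, (0 : ℤ)) 1 := by
      unfold xx
      rw [sub_mul, single_mul_single, one_mul, Prod.mk_add_mk, zero_add, one_mul,
        show (1 : ℤ) + (-(n : ℤ) - 1) = -(n : ℤ) by ring]
      ring
    rw [h1]
    exact dvd_sub ih (dvd_mul_right _ _)

private theorem pxy_b (K : Type*) [CommRing K] (a : ℤ) :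
    yy K ∣ (single ((0 : ℤ), a) (1 : K) - 1 : AddMonoidAlgebra K (ℤ × ℤ)) := by
  induction a using Int.induction_on with
  | zero =>
    have h1 : (single ((0 : ℤ), (0 : ℤ)) (1 : K) : AddMonoidAlgebra K (ℤ × ℤ)) = 1 := rfl
    rw [h1, sub_self]
    exact dvd_zero _
  | succ n ih =>
    have h1 : (single ((0 : ℤ), (n : ℤ) + 1) (1 : K) - 1 : AddMonoidAlgebra K (ℤ × ℤ))
        = yy K * single ((0 : ℤ), (n : ℤ)) 1 + (single ((0 : ℤ), (n : ℤ)) 1 - 1) := by
      unfold yy
      rw [sub_mul, single_mul_single, one_mul, Prod.mk_add_mk, add_comm (1 : ℤ), zero_add, one_mul]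
      ring
    rw [h1]
    exact dvd_add (dvd_mul_right _ _) ih
  | pred n ih =>
    have h1 : (single ((0 : ℤ), -(n : ℤ) - 1) (1 : K) - 1 : AddMonoidAlgebra K (ℤ × ℤ))
        = (single ((0 : ℤ), -(n : ℤ)) 1 - 1) - yy K * single ((0 : ℤ), -(n : ℤ) - 1) 1 := by
      unfold yy
      rw [sub_mul, single_mul_single, one_mul, Prod.mk_add_mk, zero_add, one_mul,
        show (1 : ℤ) + (-(n : ℤ) - 1) = -(n : ℤ) by ring]
      ring
    rw [h1]
    exact dvd_sub ih (dvd_mul_right _ _)

private noncomputable def iY (K : Type*) [CommRing K] : AddMonoidAlgebra K ℤ →+* AddMonoidAlgebra K (ℤ × ℤ) :=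
  mapDomainRingHom K (AddMonoidHom.inr ℤ ℤ)

private noncomputable def iX (K : Type*) [CommRing K] : AddMonoidAlgebra K ℤ →+* AddMonoidAlgebra K (ℤ × ℤ) :=
  mapDomainRingHom K (AddMonoidHom.inl ℤ ℤ)

private theorem iY_single (K : Type*) [CommRing K] (w : ℤ) (a : K) :
    iY K (single w a) = single ((0 : ℤ), w) a := by
  simp only [iY, mapDomainRingHom_apply, mapDomain_single]
  rfl

private theorem iX_single (K : Type*) [CommRing K] (w : ℤ) (a : K) :
    iX K (single w a) = single (w, (0 : ℤ)) a := by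
  simp only [iX, mapDomainRingHom_apply, mapDomain_single]
  rfl

private theorem pxy_x (K : Type*) [CommRing K] (f : AddMonoidAlgebra K (ℤ × ℤ)) :
    xx K ∣ f - iY K (prY K f) := by
  induction f using AddMonoidAlgebra.induction_linear with
  | zero => simp
  | add x y hx hy =>
    have h1 : x + y - iY K (prY K (x + y)) = (x - iY K (prY K x)) + (y - iY K (prY K y)) := by
      rw [map_add, map_add]
      ring
    rw [h1]
    exact dvd_add hx hy
  | single w a =>
    rw [prY_single, iY_single]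
    have h1 : (single w a - single ((0 : ℤ), w.2) a : AddMonoidAlgebra K (ℤ × ℤ))
        = (single (w.1, (0 : ℤ)) 1 - 1) * single ((0 : ℤ), w.2) a := by
      rw [sub_mul, single_mul_single, one_mul, Prod.mk_add_mk, zero_add, add_zero, one_mul]
    rw [h1]
    exact dvd_mul_of_dvd_left (pxy_a K w.1) _

private theorem pxy_y (K : Type*) [CommRing K] (f : AddMonoidAlgebra K (ℤ × ℤ)) :
    yy K ∣ f - iX K (prX K f) := by
  induction f using AddMonoidAlgebra.induction_linear with
  | zero => simp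
  | add x y hx hy =>
    have h1 : x + y - iX K (prX K (x + y)) = (x - iX K (prX K x)) + (y - iX K (prX K y)) := by
      rw [map_add, map_add]
      ring
    rw [h1]
    exact dvd_add hx hy
  | single w a =>
    rw [prX_single, iX_single]
    have h1 : (single w a - single (w.1, (0 : ℤ)) a : AddMonoidAlgebra K (ℤ × ℤ))
        = (single ((0 : ℤ), w.2) 1 - 1) * single (w.1, (0 : ℤ)) a := by
      rw [sub_mul, single_mul_single, one_mul, Prod.mk_add_mk, zero_add, add_zero, one_mul]
    rw [h1]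
    exact dvd_mul_of_dvd_left (pxy_b K w.2) _

private theorem prY_xx (K : Type*) [CommRing K] : prY K (xx K) = 0 := by
  unfold xx
  rw [map_sub, prY_single, map_one]
  exact sub_self _

private theorem prY_yy (K : Type*) [CommRing K] : prY K (yy K) = single (1 : ℤ) (1 : K) - 1 := by
  unfold yy
  rw [map_sub, prY_single, map_one]

theorem dvd_x {K : Type*} [CommRing K] (f : AddMonoidAlgebra K (ℤ × ℤ)) (h : prY K f = 0) : xx K ∣ f := by
  have h1 := pxy_x K f
  rwa [h, map_zero, sub_zero] at h1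

theorem dvd_y {K : Type*} [CommRing K] (f : AddMonoidAlgebra K (ℤ × ℤ)) (h : prX K f = 0) : yy K ∣ f := by
  have h1 := pxy_y K f
  rwa [h, map_zero, sub_zero] at h1

theorem both {K : Type*} [Field K] (n : ℕ) (f : AddMonoidAlgebra K (ℤ × ℤ)) (hx : xx K ^ n ∣ f)
    (hy : yy K ^ n ∣ f) : xx K ^ n * yy K ^ n ∣ f := by
  have hs : ∀ m : ℤ × ℤ, m ≠ 0 → (single m (1 : K) - 1 : AddMonoidAlgebra K (ℤ × ℤ)) ≠ 0 := by
    intro m hm h0
    have h1 : (single m (1 : K) : AddMonoidAlgebra K (ℤ × ℤ)) = single 0 1 := sub_eq_zero.1 h0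
    have h2 := congrArg (fun x : AddMonoidAlgebra K (ℤ × ℤ) => x.coeff m) h1
    simp only [coeff_single, Finsupp.single_eq_same, Finsupp.single_apply, if_neg hm.symm] at h2
    exact one_ne_zero h2
  have hs1 : (single (1 : ℤ) (1 : K) - 1 : AddMonoidAlgebra K ℤ) ≠ 0 := by
    intro h0
    have h1 : (single (1 : ℤ) (1 : K) : AddMonoidAlgebra K ℤ) = single 0 1 := sub_eq_zero.1 h0
    have h2 := congrArg (fun x : AddMonoidAlgebra K ℤ => x.coeff 1) h1
    simp only [coeff_single, Finsupp.single_eq_same, Finsupp.single_apply] at h2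
    rw [if_neg (by norm_num)] at h2
    exact one_ne_zero h2
  have hx0 : xx K ≠ 0 := by
    refine hs _ ?_
    intro h
    exact one_ne_zero (congrArg Prod.fst h)
  have hxp : Prime (xx K) := by
    refine ⟨hx0, ?_, ?_⟩
    · intro hu
      have h1 := hu.map (prY K)
      rw [prY_xx] at h1
      exact not_isUnit_zero h1
    · intro a b hab
      obtain ⟨c, hc⟩ := hab
      have h1 : prY K a * prY K b = 0 := by
        rw [← map_mul, hc, map_mul, prY_xx, zero_mul]
      rcases mul_eq_zero.1 h1 with h2 | h2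
      · exact Or.inl (dvd_x a h2)
      · exact Or.inr (dvd_x b h2)
  have hny : ¬ xx K ∣ yy K ^ n := by
    rintro ⟨c, hc⟩
    have h1 : prY K (yy K) ^ n = 0 := by
      rw [← map_pow, hc, map_mul, prY_xx, zero_mul]
    rw [prY_yy] at h1
    exact pow_ne_zero n hs1 h1
  obtain ⟨R, hR⟩ := hy
  rw [hR] at hx ⊢
  obtain ⟨Q, hQ⟩ := hxp.pow_dvd_of_dvd_mul_left n hny hx
  rw [hQ]
  exact ⟨Q, by ring⟩

end Pool.Agent.SQR
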