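import Pool.Agent.SQR.Tsm
import Pool.Agent.SQR.Pxy
import Pool.Agent.SQR.Star

/-!
# SQR module ALX: the case of diagonal linear parts when `(x - 1)^n` does not divide `f`

PROOF. Write `K = ZMod p`, `X = xx K`.  Let `e < n` be such that `X ^ e ∣ f` but not `X ^ (e + 1) ∣ f` (`Nat.find`
for the least exponent which does not divide; `X ^ 0 = 1` divides), `f = X ^ e * R`; then `¬ X ∣ R`, so
`r = prY K R ≠ 0` (`dvd_x`).
For `g = ⟨s, t, false⟩`: `sig K g X = s • (single (-(1 - s) / 2, 0) 1 * X)` (`s = 1`: equal; `s = -1`: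
`single (-1, 0) 1 - 1 = - single (-1, 0) 1 * X`).  So
`tsm K g d f = X ^ e * ∑ i, (s_i ^ (e + 1) * t_i) • (single (a_i, b_i) 1 * sig K (g i) R)` with `b_i = (d i).2` and some
integers `a_i`.  This is `X ^ n * Q`; cancel `X ^ e` (the group ring is a domain by instances, `X ≠ 0`) and apply
`prY`, which kills `X ^ (n - e)` as `n - e > 0`:
`∑ i, l_i • (single b_i 1 * prY (sig K (g i) R)) = 0` in `AddMonoidAlgebra K ℤ`, `l_i = s_i ^ (e + 1) * t_i : ℤˣ`.
Let `inv` be the ring automorphism of `AddMonoidAlgebra K ℤ` induced by `b ↦ -b`; then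
`prY (sig K (g i) R) = r` if `t_i = 1` and `= inv r` if `t_i = -1` (`induction_linear`).
Let `I = {i | t_i = 1}`, `J = {i | t_i = -1}`, `A = ∑ i ∈ I, single b_i l_i`, `B = ∑ j ∈ J, single b_j l_j`.
Then `A * r + B * inv r = 0`, and applying `inv`: `inv A * inv r + inv B * r = 0`.  Hence
`A * inv A * (r * inv r) = (A * r) * (inv A * inv r) = (B * inv r) * (inv B * r) = B * inv B * (r * inv r)`, and
`r * inv r ≠ 0` in the domain `AddMonoidAlgebra K ℤ`, so `A * inv A = B * inv B`.  This is the hypothesis of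
`star`, which gives the conclusion.
-/

set_option autoImplicit false

open AddMonoidAlgebra

namespace Pool.Agent.SQR

private theorem alx_xx_ne (K : Type*) [CommRing K] [Nontrivial K] : xx K ≠ 0 := by
  intro h0
  have h1 : (single ((1 : ℤ), (0 : ℤ)) (1 : K) : AddMonoidAlgebra K (ℤ × ℤ)) = single 0 1 := sub_eq_zero.1 h0
  have h2 := congrArg (fun x : AddMonoidAlgebra K (ℤ × ℤ) => x.coeff ((1 : ℤ), (0 : ℤ))) h1
  simp only [coeff_single, Finsupp.single_eq_same, Finsupp.single_apply] at h2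
  rw [if_neg (by intro h3; exact one_ne_zero (congrArg Prod.fst h3).symm)] at h2
  exact one_ne_zero h2

private theorem alx_sig_x (K : Type*) [CommRing K] (g : SP) (hg : g.w = false) :
    ∃ a : ℤ, sig K g (xx K) = (g.s : ℤ) • (single (a, (0 : ℤ)) (1 : K) * xx K) := by
  have h0 : sig K g (xx K) = single ((g.s : ℤ), (0 : ℤ)) (1 : K) - 1 := by
    unfold xx
    rw [map_sub, sig_single, map_one]
    simp [act, hg]
  rw [h0]
  rcases Int.units_eq_one_or g.s with h | h
  · refine ⟨0, ?_⟩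
    rw [h, Units.val_one, one_smul]
    have h1 : (single ((0 : ℤ), (0 : ℤ)) (1 : K) : AddMonoidAlgebra K (ℤ × ℤ)) = 1 := rfl
    rw [h1, one_mul]
    rfl
  · refine ⟨-1, ?_⟩
    rw [h]
    unfold xx
    rw [mul_sub, single_mul_single, Prod.mk_add_mk, neg_add_cancel, add_zero, mul_one, mul_one]
    have h1 : (single ((0 : ℤ), (0 : ℤ)) (1 : K) : AddMonoidAlgebra K (ℤ × ℤ)) = 1 := rfl
    rw [h1, Units.val_neg, Units.val_one, neg_smul, one_smul, neg_sub]

private theorem alx_sig_pow (K : Type*) [CommRing K] (g : SP) (hg : g.w = false) (e : ℕ) :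
    ∃ a : ℤ, sig K g (xx K ^ e) = ((g.s ^ e : ℤˣ) : ℤ) • (single (a, (0 : ℤ)) (1 : K) * xx K ^ e) := by
  obtain ⟨a, ha⟩ := alx_sig_x K g hg
  refine ⟨e * a, ?_⟩
  rw [map_pow, ha, smul_pow, mul_pow, AddMonoidAlgebra.single_pow, one_pow, Units.val_pow_eq_pow_val]
  congr 3

private noncomputable def alxInv (K : Type*) [CommRing K] : AddMonoidAlgebra K ℤ →+* AddMonoidAlgebra K ℤ :=
  mapDomainRingHom K (negAddMonoidHom : ℤ →+ ℤ)

private theorem alxInv_single (K : Type*) [CommRing K] (b : ℤ) (a : K) :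
    alxInv K (single b a) = single (-b) a := by
  simp only [alxInv, mapDomainRingHom_apply, mapDomain_single]
  rfl

private theorem alxInv_inv (K : Type*) [CommRing K] (f : AddMonoidAlgebra K ℤ) :
    alxInv K (alxInv K f) = f := by
  induction f using AddMonoidAlgebra.induction_linear with
  | zero => simp
  | add x y hx hy => rw [map_add, map_add, hx, hy]
  | single w a => rw [alxInv_single, alxInv_single, neg_neg]

private theorem alx_pr (K : Type*) [CommRing K] (g : SP) (hg : g.w = false) (R : AddMonoidAlgebra K (ℤ × ℤ)) :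
    prY K (sig K g R) = if g.t = 1 then prY K R else alxInv K (prY K R) := by
  rcases Int.units_eq_one_or g.t with h | h
  · rw [if_pos h]
    induction R using AddMonoidAlgebra.induction_linear with
    | zero => simp
    | add x y hx hy => rw [map_add, map_add, map_add, hx, hy]
    | single w a =>
      rw [sig_single, prY_single, prY_single]
      simp [act, hg, h]
  · rw [if_neg (by rw [h]; decide)]
    induction R using AddMonoidAlgebra.induction_linear with
    | zero => simp
    | add x y hx hy => rw [map_add, map_add, map_add, map_add, hx, hy]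
    | single w a =>
      rw [sig_single, prY_single, prY_single, alxInv_single]
      simp [act, hg, h]

theorem alx (p : ℕ) [Fact p.Prime] (hp2 : p ≠ 2) (g : Fin p → SP) (hg : ∀ i, (g i).w = false)
    (d : Fin p → ℤ × ℤ) (f : AddMonoidAlgebra (ZMod p) (ℤ × ℤ)) (n : ℕ) (hn : ¬ xx (ZMod p) ^ n ∣ f)
    (h : xx (ZMod p) ^ n ∣ tsm (ZMod p) g d f) : ∀ i j, (g i).t = (g j).t → (d i).2 = (d j).2 := by
  classical
  have hp : p.Prime := Fact.out
  -- the exponent
  have hex : ∃ e, e < n ∧ xx (ZMod p) ^ e ∣ f ∧ ¬ xx (ZMod p) ^ (e + 1) ∣ f := by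
    have h1 : ∃ k, ¬ xx (ZMod p) ^ k ∣ f := ⟨n, hn⟩
    have h2 := Nat.find_spec h1
    have h3 : Nat.find h1 ≤ n := Nat.find_min' h1 hn
    have h4 : Nat.find h1 ≠ 0 := by
      intro h5
      rw [h5, pow_zero] at h2
      exact h2 (one_dvd _)
    obtain ⟨e, he⟩ := Nat.exists_eq_succ_of_ne_zero h4
    refine ⟨e, by omega, ?_, ?_⟩
    · by_contra h5
      have := Nat.find_min' h1 h5
      omega
    · rw [he] at h2
      exact h2
  obtain ⟨e, hen, ⟨R, hR⟩, he1⟩ := hex
  set r := prY (ZMod p) R with hr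
  have hr0 : r ≠ 0 := by
    intro h0
    apply he1
    obtain ⟨c, hc⟩ := dvd_x R h0
    exact ⟨c, by rw [hR, hc]; ring⟩
  choose a ha using fun i => alx_sig_pow (ZMod p) (g i) (hg i) e
  let l : Fin p → ℤˣ := fun i => (g i).s ^ (e + 1) * (g i).t
  have h1 : tsm (ZMod p) g d f = xx (ZMod p) ^ e *
      ∑ i, ((l i : ℤˣ) : ℤ) • (single ((d i).1 + a i, (d i).2) (1 : ZMod p) * sig (ZMod p) (g i) R) := by
    unfold tsm
    rw [Finset.mul_sum]
    refine Finset.sum_congr rfl fun i _ => ?_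
    have hS : (single ((d i).1 + a i, (d i).2) (1 : ZMod p) : AddMonoidAlgebra (ZMod p) (ℤ × ℤ)) =
        single (d i) 1 * single (a i, 0) 1 := by
      rw [single_mul_single, mul_one]
      congr 1
      ext <;> simp
    rw [hR, map_mul, ha i, hS]
    have hl : ((l i : ℤˣ) : ℤ) = chi (g i) * (((g i).s ^ e : ℤˣ) : ℤ) := by
      simp only [l, chi, Units.val_mul, Units.val_pow_eq_pow_val]
      ring
    rw [hl, zsmul_eq_mul, zsmul_eq_mul, zsmul_eq_mul, Int.cast_mul]
    ring
  obtain ⟨Q, hQ⟩ := h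
  have h2 : (∑ i, ((l i : ℤˣ) : ℤ) • (single ((d i).1 + a i, (d i).2) (1 : ZMod p) * sig (ZMod p) (g i) R)) =
      xx (ZMod p) * (xx (ZMod p) ^ (n - e - 1) * Q) := by
    apply mul_left_cancel₀ (pow_ne_zero e (alx_xx_ne (ZMod p)))
    rw [← h1, hQ]
    have h3 : n = e + (1 + (n - e - 1)) := by omega
    conv_lhs => rw [h3]
    rw [pow_add, pow_add, pow_one]
    ring
  have h3 := congrArg (prY (ZMod p)) h2
  have h4 : prY (ZMod p) (xx (ZMod p)) = 0 := by
    unfold xx
    rw [map_sub, prY_single, map_one]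
    exact sub_self _
  rw [map_mul, h4, zero_mul, map_sum] at h3
  let I : Finset (Fin p) := Finset.univ.filter fun i => (g i).t = 1
  let J : Finset (Fin p) := Finset.univ.filter fun i => ¬ (g i).t = 1
  have hIJ : Disjoint I J := Finset.disjoint_filter_filter_not _ _ _
  have hU : I ∪ J = Finset.univ := Finset.filter_union_filter_not_eq _ _
  set A : AddMonoidAlgebra (ZMod p) ℤ := ∑ i ∈ I, single (d i).2 (((l i : ℤˣ) : ℤ) : ZMod p) with hA
  set B : AddMonoidAlgebra (ZMod p) ℤ := ∑ i ∈ J, single (d i).2 (((l i : ℤˣ) : ℤ) : ZMod p) with hB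
  have hterm : ∀ i, prY (ZMod p) (((l i : ℤˣ) : ℤ) • (single ((d i).1 + a i, (d i).2) (1 : ZMod p) *
      sig (ZMod p) (g i) R)) = single (d i).2 (((l i : ℤˣ) : ℤ) : ZMod p) *
        (if (g i).t = 1 then r else alxInv (ZMod p) r) := by
    intro i
    rw [map_zsmul, map_mul, prY_single, alx_pr _ _ (hg i), ← smul_mul_assoc]
    congr 1
    rw [← Int.cast_smul_eq_zsmul (ZMod p), smul_single, smul_eq_mul, mul_one]
  have h5 : A * r + B * alxInv (ZMod p) r = 0 := by
    rw [← h3, hA, hB, Finset.sum_mul, Finset.sum_mul, ← hU, Finset.sum_union hIJ]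
    congr 1
    · refine Finset.sum_congr rfl fun i hi => ?_
      rw [hterm i, if_pos (Finset.mem_filter.1 hi).2]
    · refine Finset.sum_congr rfl fun i hi => ?_
      rw [hterm i, if_neg (Finset.mem_filter.1 hi).2]
  have hinv : ∀ (S : Finset (Fin p)), alxInv (ZMod p) (∑ i ∈ S, single (d i).2 (((l i : ℤˣ) : ℤ) : ZMod p)) =
      ∑ i ∈ S, single (-(d i).2) (((l i : ℤˣ) : ℤ) : ZMod p) := by
    intro S
    rw [map_sum]
    exact Finset.sum_congr rfl fun i _ => alxInv_single _ _ _
  have h6 : alxInv (ZMod p) A * alxInv (ZMod p) r + alxInv (ZMod p) B * r = 0 := by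
    have h7 := congrArg (alxInv (ZMod p)) h5
    rw [map_add, map_mul, map_mul, map_zero, alxInv_inv] at h7
    exact h7
  have hr1 : alxInv (ZMod p) r ≠ 0 := by
    intro h0
    apply hr0
    rw [← alxInv_inv (ZMod p) r, h0, map_zero]
  have h7 : A * alxInv (ZMod p) A = B * alxInv (ZMod p) B := by
    apply mul_right_cancel₀ (mul_ne_zero hr0 hr1)
    linear_combination (alxInv (ZMod p) A * alxInv (ZMod p) r) * h5 -
      (B * alxInv (ZMod p) r) * h6
  rw [hA, hB, hinv, hinv] at h7
  have h8 := star p hp hp2 I J hIJ hU l (fun i => (d i).2) h7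
  intro i j hij
  by_cases hi : (g i).t = 1
  · exact h8.1 i (Finset.mem_filter.2 ⟨Finset.mem_univ _, hi⟩) j
      (Finset.mem_filter.2 ⟨Finset.mem_univ _, by rw [← hij]; exact hi⟩)
  · exact h8.2 i (Finset.mem_filter.2 ⟨Finset.mem_univ _, hi⟩) j
      (Finset.mem_filter.2 ⟨Finset.mem_univ _, by rw [← hij]; exact hi⟩)

end Pool.Agent.SQR
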