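import Pool.Agent.SQR.GenL

/-!
# SQR module BET: the heights of the pieces

PROOF. For every `i` and every `z ∈ closure U`, the point `mv (g i) (c i) z = (s_i z.1 + (c i).1, t_i z.2 + (c i).2)`
lies in `sq` (`h.cover`), so `0 ≤ t_i * z.2 + (c i).2 ≤ 1`.  As `g i0 = 1` and `c i0 = 0`: `0 ≤ z.2 ≤ 1`.
If `t_i = 1 = t_{i0}` then `(c i).2 = (c i0).2 = 0`.  Let `t_k = -1` and `β = (c k).2`, so that `0 ≤ β - z.2 ≤ 1`
for all `z ∈ closure U`, and every `i` with `t_i = -1` has `(c i).2 = β`.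
The point `(0, 0)` of `sq` is `mv (g i) (c i) z` with `z ∈ closure U`: if `t_i = 1` then `z.2 = 0`, and `β - z.2 ≤ 1` gives
`β ≤ 1`; if `t_i = -1` then `β = z.2 ≤ 1`.  The point `(0, 1)` is `mv (g i) (c i) z` with `z ∈ closure U`: if `t_i = 1`
then `z.2 = 1` and `β - z.2 ≥ 0` gives `β ≥ 1`; if `t_i = -1` then `β = 1 + z.2 ≥ 1`.  So `β = 1`.
-/

set_option autoImplicit false

open AddMonoidAlgebra

namespace Pool.Agent.SQR

theorem bet (p : ℕ) (U : Set V) (g : Fin p → SP) (c : Fin p → V) (h : IsTil p U g c)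
    (hg : ∀ i, (g i).w = false) (i0 : Fin p) (hg0 : g i0 = 1) (hc0 : c i0 = 0)
    (hb : ∀ i j, (g i).t = (g j).t → (c i).2 = (c j).2) : ∀ i, (c i).2 = if (g i).t = 1 then 0 else 1 := by
  have hact : ∀ i (z : V), (mv (g i) (c i) z).2 = ((g i).t : ℤ) * z.2 + (c i).2 := by
    intro i z
    unfold mv act
    simp [hg i]
  have key : ∀ i, ∀ z ∈ closure U, 0 ≤ (((g i).t : ℤ) : ℝ) * z.2 + (c i).2 ∧
      (((g i).t : ℤ) : ℝ) * z.2 + (c i).2 ≤ 1 := by
    intro i z hz
    have h1 : mv (g i) (c i) z ∈ sq := by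
      rw [← h.cover]
      exact Set.mem_iUnion.2 ⟨i, z, hz, rfl⟩
    rw [← hact i z]
    exact h1.2
  have hsol : ∀ y : ℝ, 0 ≤ y → y ≤ 1 → ∃ j, ∃ z ∈ closure U,
      (((g j).t : ℤ) : ℝ) * z.2 + (c j).2 = y := by
    intro y hy0 hy1
    have h1 : ((0 : ℝ), y) ∈ sq := ⟨⟨le_refl _, zero_le_one⟩, hy0, hy1⟩
    rw [← h.cover] at h1
    obtain ⟨j, z, hz, he⟩ := Set.mem_iUnion.1 h1
    refine ⟨j, z, hz, ?_⟩
    rw [← hact j z, he]
  have h01 : ∀ z ∈ closure U, 0 ≤ z.2 ∧ z.2 ≤ 1 := by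
    intro z hz
    have h1 := key i0 z hz
    rw [hg0, hc0] at h1
    simpa using h1
  have hone : ∀ i, (g i).t = 1 → (c i).2 = 0 := by
    intro i hi
    rw [hb i i0 (by rw [hi, hg0]; rfl), hc0]
    rfl
  intro i
  rcases Int.units_eq_one_or (g i).t with hi | hi
  · rw [if_pos hi]
    exact hone i hi
  · have hne : ¬ (g i).t = 1 := by rw [hi]; decide
    rw [if_neg hne]
    have hneg : ∀ z ∈ closure U, 0 ≤ -z.2 + (c i).2 ∧ -z.2 + (c i).2 ≤ 1 := by
      intro z hz
      have h1 := key i z hz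
      rw [hi] at h1
      simpa using h1
    refine le_antisymm ?_ ?_
    · obtain ⟨j, z, hz, he⟩ := hsol 0 (le_refl _) zero_le_one
      rcases Int.units_eq_one_or (g j).t with hj | hj
      · rw [hone j hj, hj] at he
        have he' : z.2 = 0 := by simpa using he
        have h1 := (hneg z hz).2
        rw [he'] at h1
        linarith
      · rw [hb j i (by rw [hi, hj]), hj] at he
        have he' : -z.2 + (c i).2 = 0 := by simpa using he
        have h1 := (h01 z hz).2
        linarith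
    · obtain ⟨j, z, hz, he⟩ := hsol 1 zero_le_one (le_refl _)
      rcases Int.units_eq_one_or (g j).t with hj | hj
      · rw [hone j hj, hj] at he
        have he' : z.2 = 1 := by simpa using he
        have h1 := (hneg z hz).1
        rw [he'] at h1
        linarith
      · rw [hb j i (by rw [hi, hj]), hj] at he
        have he' : -z.2 + (c i).2 = 1 := by simpa using he
        have h1 := (h01 z hz).1
        linarith

end Pool.Agent.SQR
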