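import Pool.Agent.SQR.GenL

/-!
# SQR module COR: a function constant on the cells of a grid has a corner sum

PROOF. One variable: let `S : Finset ℝ` and let `M` be an additive commutative group.  Claim: if `f : ℝ → M`
satisfies `f x = f x'` for all `x, x' ∉ S` with `∀ s ∈ S, (s < x ↔ s < x')`, and `f x = 0` for all `x ∉ S` with
`∀ s ∈ S, x < s`, then there is `Δ : ℝ → M` with `f x = ∑ s ∈ S, if s ≤ x then Δ s else 0` for all `x ∉ S`.
Induction with `Finset.induction_on_max`: `S = insert m S'`, all elements of `S'` less than `m`.  Choose `y0`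
with `s < y0 < m` for all `s ∈ S'` and `y1 = m + 1`.  The function `f' x = if x < m then f x else f y0` satisfies
the hypotheses for `S'` (a point `x ≥ m` behaves as `y0`; if `S'` is empty then `f y0 = 0`), and
`f x = f' x + (if m ≤ x then f y1 - f y0 else 0)` for `x ∉ S`.

Two variables: let `M` be the additive subgroup of `ℝ → K` of the functions `a` with: `a y = 0` for `y ∈ S`;
`a y = a y'` for `y, y' ∉ S` with `∀ s ∈ S, (s < y ↔ s < y')`; `a y = 0` for `y ∉ S` with `∀ s ∈ S, y < s`.
Apply the claim to `f x = (fun y => if y ∈ S then 0 else u (x, y))` for `x ∉ S` (and `0` for `x ∈ S`), which takes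
values in `M`: by `h0` and `hS` the function `u` vanishes at every `z` off `S` with `z.1 < s` for all `s ∈ S`
(compare with a point with very negative first coordinate, which is not in `sq`), and similarly for the second
coordinate.  (If `S` is empty then `u = 0` everywhere by the same argument; this is covered.)  We get
`Δ s ∈ M`; apply the claim to each `Δ s`: there is `Δ' s : ℝ → K` with
`Δ s y = ∑ t ∈ S, if t ≤ y then Δ' s t else 0` for `y ∉ S`.  Put `F = ∑ s ∈ S, ∑ t ∈ S, single (s, t) (Δ' s t)`;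
then `Phi F z = u z` for all `z` off `S` (`Phi_sum`, `Phi_single`); conclude with `Gen.of_off`.
-/

set_option autoImplicit false

open AddMonoidAlgebra

namespace Pool.Agent.SQR

private theorem below (S : Finset ℝ) (m : ℝ) (h : ∀ s ∈ S, s < m) : ∃ y, y < m ∧ ∀ s ∈ S, s < y := by
  induction S using Finset.induction_on with
  | empty => exact ⟨m - 1, by linarith, by simp⟩
  | insert b S hb ih =>
    obtain ⟨y, h1, h2⟩ := ih fun s hs => h s (Finset.mem_insert_of_mem hs)
    have h3 := h b (Finset.mem_insert_self b S)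
    refine ⟨max y ((b + m) / 2), max_lt h1 (by linarith), fun s hs => ?_⟩
    rcases Finset.mem_insert.1 hs with rfl | hs
    · exact lt_of_lt_of_le (by linarith) (le_max_right _ _)
    · exact lt_of_lt_of_le (h2 s hs) (le_max_left _ _)

private theorem neg_all (S : Finset ℝ) : ∃ y : ℝ, y < 0 ∧ ∀ s ∈ S, y < s := by
  induction S using Finset.induction_on with
  | empty => exact ⟨-1, by norm_num, by simp⟩
  | insert b S hb ih =>
    obtain ⟨y, h1, h2⟩ := ih
    refine ⟨min y (b - 1), lt_of_le_of_lt (min_le_left _ _) h1, fun s hs => ?_⟩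
    rcases Finset.mem_insert.1 hs with rfl | hs
    · exact lt_of_le_of_lt (min_le_right _ _) (by linarith)
    · exact lt_of_le_of_lt (min_le_left _ _) (h2 s hs)

private theorem cor1 {M : Type*} [AddCommGroup M] (N : AddSubgroup M) (S : Finset ℝ) : ∀ f : ℝ → M,
    (∀ x, f x ∈ N) →
    (∀ x x', x ∉ S → x' ∉ S → (∀ s ∈ S, (s < x ↔ s < x')) → f x = f x') →
    (∀ x, x ∉ S → (∀ s ∈ S, x < s) → f x = 0) →
    ∃ Δ : ℝ → M, (∀ s, Δ s ∈ N) ∧ ∀ x, x ∉ S → f x = ∑ s ∈ S, if s ≤ x then Δ s else 0 := by
  classical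
  induction S using Finset.induction_on_max with
  | empty =>
    intro f _ _ h2
    refine ⟨fun _ => 0, fun _ => N.zero_mem, fun x hx => ?_⟩
    rw [Finset.sum_empty]
    exact h2 x hx (by simp)
  | insert m S hm ih =>
    intro f hN h1 h2
    obtain ⟨y0, hy0, hy0'⟩ := below S m hm
    have hmS : m ∉ S := fun h => lt_irrefl m (hm m h)
    have hy0S : y0 ∉ insert m S := by
      intro h
      rcases Finset.mem_insert.1 h with h | h
      · exact hy0.ne h
      · exact lt_irrefl _ (hy0' y0 h)
    have ins : ∀ x, x ∉ S → x ≠ m → x ∉ insert m S := by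
      intro x hx hxm h
      rcases Finset.mem_insert.1 h with h | h
      · exact hxm h
      · exact hx h
    have key : ∀ x, x ∉ S → x < m → (∀ s ∈ S, s < x) → f x = f y0 := by
      intro x hx hxm hs
      refine h1 x y0 (ins x hx hxm.ne) hy0S fun s hs' => ?_
      rcases Finset.mem_insert.1 hs' with rfl | hs'
      · exact ⟨fun h => absurd h (not_lt.2 hxm.le), fun h => absurd h (not_lt.2 hy0.le)⟩
      · exact ⟨fun _ => hy0' s hs', fun _ => hs s hs'⟩
    obtain ⟨Δ, hΔN, hΔ⟩ := ih (fun x => if x < m then f x else f y0)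
      (by
        intro x
        split_ifs
        · exact hN x
        · exact hN y0)
      (by
        intro x x' hx hx' hp
        by_cases hxm : x < m
        · by_cases hxm' : x' < m
          · rw [if_pos hxm, if_pos hxm']
            refine h1 x x' (ins x hx hxm.ne) (ins x' hx' hxm'.ne) fun s hs' => ?_
            rcases Finset.mem_insert.1 hs' with rfl | hs'
            · exact ⟨fun h => absurd h (not_lt.2 hxm.le), fun h => absurd h (not_lt.2 hxm'.le)⟩
            · exact hp s hs'
          · rw [if_pos hxm, if_neg hxm']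
            exact key x hx hxm fun s hs => (hp s hs).2 (lt_of_lt_of_le (hm s hs) (not_lt.1 hxm'))
        · by_cases hxm' : x' < m
          · rw [if_neg hxm, if_pos hxm']
            exact (key x' hx' hxm' fun s hs => (hp s hs).1 (lt_of_lt_of_le (hm s hs) (not_lt.1 hxm))).symm
          · rw [if_neg hxm, if_neg hxm'])
      (by
        intro x hx hs
        by_cases hxm : x < m
        · rw [if_pos hxm]
          refine h2 x (ins x hx hxm.ne) fun s hs' => ?_
          rcases Finset.mem_insert.1 hs' with rfl | hs'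
          · exact hxm
          · exact hs s hs'
        · rw [if_neg hxm]
          refine h2 y0 hy0S fun s hs' => ?_
          rcases Finset.mem_insert.1 hs' with rfl | hs'
          · exact hy0
          · exact absurd ((hs s hs').trans (hm s hs')) hxm)
    refine ⟨fun s => if s = m then f (m + 1) - f y0 else Δ s, fun s => ?_, fun x hx => ?_⟩
    · dsimp only
      split_ifs
      · exact N.sub_mem (hN _) (hN _)
      · exact hΔN s
    · have hxS : x ∉ S := fun h => hx (Finset.mem_insert_of_mem h)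
      have hxm : x ≠ m := fun h => hx (h ▸ Finset.mem_insert_self m S)
      rw [Finset.sum_insert hmS]
      change f x = (if m ≤ x then (if m = m then f (m + 1) - f y0 else Δ m) else 0) +
        ∑ s ∈ S, (if s ≤ x then (if s = m then f (m + 1) - f y0 else Δ s) else 0)
      have e1 : ∑ s ∈ S, (if s ≤ x then (if s = m then f (m + 1) - f y0 else Δ s) else 0) =
          ∑ s ∈ S, if s ≤ x then Δ s else 0 := by
        refine Finset.sum_congr rfl fun s hs => ?_
        rw [if_neg (fun h : s = m => hmS (h ▸ hs))]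
      have e2 := hΔ x hxS
      rw [e1, ← e2, if_pos rfl]
      rcases lt_or_gt_of_ne hxm with h | h
      · rw [if_neg (not_le.2 h), if_pos h, zero_add]
      · rw [if_pos h.le, if_neg (not_lt.2 h.le), sub_add_cancel]
        refine h1 x (m + 1) hx ?_ fun s hs' => ?_
        · intro h'
          rcases Finset.mem_insert.1 h' with h' | h'
          · linarith
          · linarith [hm _ h']
        · rcases Finset.mem_insert.1 hs' with rfl | hs'
          · exact ⟨fun _ => by linarith, fun _ => h⟩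
          · have := hm s hs'
            exact ⟨fun _ => by linarith, fun _ => by linarith⟩

private def cells (K : Type*) [CommRing K] (S : Finset ℝ) : AddSubgroup (ℝ → K) where
  carrier := {a | (∀ y y', y ∉ S → y' ∉ S → (∀ s ∈ S, (s < y ↔ s < y')) → a y = a y') ∧
    (∀ y, y ∉ S → (∀ s ∈ S, y < s) → a y = 0)}
  zero_mem' := ⟨fun _ _ _ _ _ => rfl, fun _ _ _ => rfl⟩
  add_mem' := by
    rintro a b ⟨h1, h2⟩ ⟨h3, h4⟩
    refine ⟨fun y y' hy hy' hp => ?_, fun y hy hp => ?_⟩
    · rw [Pi.add_apply, Pi.add_apply, h1 y y' hy hy' hp, h3 y y' hy hy' hp]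
    · rw [Pi.add_apply, h2 y hy hp, h4 y hy hp, add_zero]
  neg_mem' := by
    rintro a ⟨h1, h2⟩
    refine ⟨fun y y' hy hy' hp => ?_, fun y hy hp => ?_⟩
    · rw [Pi.neg_apply, Pi.neg_apply, h1 y y' hy hy' hp]
    · rw [Pi.neg_apply, h2 y hy hp, neg_zero]

theorem cor {K : Type*} [CommRing K] (S : Finset ℝ) (u : V → K) (h0 : ∀ z, z ∉ sq → u z = 0)
    (hS : ∀ z z', Off S z → Off S z' → (∀ s ∈ S, (s < z.1 ↔ s < z'.1) ∧ (s < z.2 ↔ s < z'.2)) → u z = u z') :
    ∃ F : AddMonoidAlgebra K V, Gen (Phi F) u := by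
  classical
  obtain ⟨n, hn, hnS⟩ := neg_all S
  have hnn : n ∉ S := fun h => lt_irrefl n (hnS n h)
  let f : ℝ → ℝ → K := fun x y => if x ∈ S ∨ y ∈ S then 0 else u (x, y)
  have hf : ∀ x y, x ∉ S → y ∉ S → f x y = u (x, y) := by
    intro x y hx hy
    exact if_neg (by
      rintro (h | h)
      · exact hx h
      · exact hy h)
  have hf0 : ∀ x y, (x ∈ S ∨ y ∈ S) → f x y = 0 := fun x y h => if_pos h
  obtain ⟨Δ, hΔN, hΔ⟩ := cor1 (cells K S) S f
    (by
      intro x
      refine ⟨fun y y' hy hy' hp => ?_, fun y hy hp => ?_⟩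
      · by_cases hx : x ∈ S
        · rw [hf0 x y (Or.inl hx), hf0 x y' (Or.inl hx)]
        · rw [hf x y hx hy, hf x y' hx hy']
          exact hS _ _ ⟨hx, hy⟩ ⟨hx, hy'⟩ fun s hs => ⟨Iff.rfl, hp s hs⟩
      · by_cases hx : x ∈ S
        · rw [hf0 x y (Or.inl hx)]
        · rw [hf x y hx hy, hS (x, y) (x, n) ⟨hx, hy⟩ ⟨hx, hnn⟩ fun s hs => ⟨Iff.rfl,
            ⟨fun h => absurd h (not_lt.2 (hp s hs).le), fun h => absurd h (not_lt.2 (hnS s hs).le)⟩⟩]
          exact h0 _ fun h => absurd h.2.1 (not_le.2 hn))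
    (by
      intro x x' hx hx' hp
      funext y
      by_cases hy : y ∈ S
      · rw [hf0 x y (Or.inr hy), hf0 x' y (Or.inr hy)]
      · rw [hf x y hx hy, hf x' y hx' hy]
        exact hS _ _ ⟨hx, hy⟩ ⟨hx', hy⟩ fun s hs => ⟨hp s hs, Iff.rfl⟩)
    (by
      intro x hx hp
      funext y
      rw [Pi.zero_apply]
      by_cases hy : y ∈ S
      · rw [hf0 x y (Or.inr hy)]
      · rw [hf x y hx hy, hS (x, y) (n, y) ⟨hx, hy⟩ ⟨hnn, hy⟩ fun s hs => ⟨⟨fun h => absurd h (not_lt.2 (hp s hs).le),
            fun h => absurd h (not_lt.2 (hnS s hs).le)⟩, Iff.rfl⟩]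
        exact h0 _ fun h => absurd h.1.1 (not_le.2 hn))
  have h3 : ∀ s, ∃ E : ℝ → K, ∀ y, y ∉ S → Δ s y = ∑ t ∈ S, if t ≤ y then E t else 0 := by
    intro s
    obtain ⟨E, -, hE⟩ := cor1 (⊤ : AddSubgroup K) S (Δ s) (fun _ => AddSubgroup.mem_top _) (hΔN s).1 (hΔN s).2
    exact ⟨E, hE⟩
  choose E hE using h3
  refine ⟨∑ s ∈ S, ∑ t ∈ S, single (s, t) (E s t), Gen.of_off S fun z hz => ?_⟩
  have e1 : u z = f z.1 z.2 := (hf z.1 z.2 hz.1 hz.2).symm
  rw [e1, hΔ z.1 hz.1, Finset.sum_apply, Phi_sum]
  refine Finset.sum_congr rfl fun s hs => ?_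
  rw [Phi_sum]
  by_cases h4 : s ≤ z.1
  · rw [if_pos h4, hE s z.2 hz.2]
    refine Finset.sum_congr rfl fun t ht => ?_
    rw [Phi_single]
    by_cases h5 : t ≤ z.2
    · rw [if_pos ⟨h4, h5⟩, if_pos h5]
    · rw [if_neg fun h => h5 h.2, if_neg h5]
  · rw [if_neg h4, Pi.zero_apply]
    refine Finset.sum_eq_zero fun t ht => ?_
    rw [Phi_single, if_neg fun h => h4 h.1]

end Pool.Agent.SQR
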