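import Pool.Agent.SQR.GenL

/-!
# SQR: conjugation and functoriality of `tsm`
-/

set_option autoImplicit false

open AddMonoidAlgebra

namespace Pool.Agent.SQR

theorem aug_sig (K : Type*) [CommRing K] {M : Type*} [AddCommGroup M] (g : SP)
    (F : AddMonoidAlgebra K (M × M)) : aug K (sig K g F) = aug K F := by
  induction F using AddMonoidAlgebra.induction_linear with
  | zero => simp
  | add x y hx hy => rw [map_add, map_add, map_add, hx, hy]
  | single w a => rw [sig_single, aug_single, aug_single]

theorem sig_zsmul (K : Type*) [CommRing K] {M : Type*} [AddCommGroup M] (g : SP) (n : ℤ)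
    (F : AddMonoidAlgebra K (M × M)) : sig K g (n • F) = n • sig K g F := map_zsmul _ _ _

/-- Applying a signed permutation to the whole equation. -/
theorem tsm_conj {p : ℕ} (K : Type*) [CommRing K] {M : Type*} [AddCommGroup M] (h : SP) (g : Fin p → SP)
    (c : Fin p → M × M) (F : AddMonoidAlgebra K (M × M)) :
    tsm K (fun i => h * g i * h⁻¹) (fun i => act h (c i)) (sig K h F) = sig K h (tsm K g c F) := by
  unfold tsm
  rw [map_sum]
  refine Finset.sum_congr rfl fun i _ => ?_
  have h1 : chi h * chi h⁻¹ = 1 := by rw [← chi_mul, mul_inv_cancel, chi_one]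
  have h2 : chi (h * g i * h⁻¹) = chi (g i) := by
    rw [chi_mul, chi_mul]
    linear_combination chi (g i) * h1
  rw [h2, sig_zsmul, map_mul, sig_single, ← sig_mul, ← sig_mul, mul_assoc, inv_mul_cancel, mul_one]

theorem sig_qq_tau (K : Type*) [CommRing K] {M : Type*} [AddCommGroup M] (e : M) :
    sig K ⟨1, 1, true⟩ (qq K e) = qq K e := by
  unfold qq
  rw [map_mul, map_sub, map_sub, sig_single, sig_single, map_one, mul_comm]
  simp [act]

end Pool.Agent.SQR
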