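import Pool.Agent.SQR.Row
import Pool.Agent.SQR.Tsm

/-!
# SQR module CYC: vanishing at roots of unity in both variables

Write `x = single (1, 0) 1`, `y = single (0, 1) 1`, `τ = ⟨1, 1, true⟩`; `evy ζ G = evx ζ (sig ℤ τ G)`
(`induction_linear`), so there is a version of `row` for the second variable: if `evy ζ G = 0` for all `ζ ∈ Z` then
`G = aeval y q * Q` (apply `row` to `sig ℤ τ G` and apply `sig ℤ τ` again; it maps `aeval x q` to `aeval y q`,
`Polynomial.aeval_algHom_apply`/`hom_eval₂` or `Polynomial.induction_on`).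

PROOF of `cyc1`. If `ζ = 1`: `aug ℂ (evx 1 D) = (aug ℤ D : ℂ)` (`induction_linear`), so `aug ℤ D = 0`.  Otherwise
`ζ` is a primitive `p ^ i`-th root of unity with `i ≥ 1` (`orderOf ζ ∣ p ^ j`, `Nat.dvd_prime_pow`), and so is `ζ'`.
Let `q = Polynomial.cyclotomic (p ^ i) ℤ`, the minimal polynomial of `ζ` and of `ζ'`
(`Polynomial.cyclotomic_eq_minpoly`), so `q ∣ P` whenever `P ζ = 0` (`minpoly.isIntegrallyClosed_dvd`), and the same
for `ζ'`.  By `row` with `Z = {ζ}`: `D = aeval x q * Q`.  Then `0 = evy ζ' D = evy ζ' (aeval x q) * evy ζ' Q`, and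
`evy ζ' (aeval x q)` is nonzero as its image under `aug ℂ` is `q.eval 1 = p ≠ 0`
(`Polynomial.eval_one_cyclotomic_prime_pow`); `AddMonoidAlgebra ℂ ℤ` is a domain, so `evy ζ' Q = 0` and
`Q = aeval y q * Q'`.  So `aug D = q.eval 1 * q.eval 1 * aug Q' = p ^ 2 * aug Q'`.

PROOF of `cyc2`. Let `q = X ^ N - 1 : ℤ[X]`.  If `P : ℤ[X]` vanishes at all `ζ : ℂˣ` with `ζ ^ N = 1` then
`q ∣ P`: over `ℂ`, `X ^ N - 1` is separable and splits into the factors `X - ζ`, so it divides `P.map`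
(e.g. `X_pow_sub_one_eq_prod` with a primitive root `Complex.isPrimitiveRoot_exp` and
`Finset.prod_dvd_of_coprime`), and it is monic with integer coefficients, so it divides `P` over `ℤ`
(`Polynomial.map_dvd_map` for an injective ring homomorphism and a monic polynomial).
`row` gives `f = (x ^ N - 1) * Q`; for `ζ ^ N = 1`, `0 = evy ζ f = (single N 1 - 1) * evy ζ Q` and
`single N 1 - 1 ≠ 0`, so `evy ζ Q = 0` and `Q = (y ^ N - 1) * Q'`.  Finally `(x ^ N - 1) * (y ^ N - 1) = qq ℤ N`.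
-/

set_option autoImplicit false

open AddMonoidAlgebra

namespace Pool.Agent.SQR

private theorem evy_sig (ζ : ℂˣ) (G : AddMonoidAlgebra ℤ (ℤ × ℤ)) :
    evy ζ G = evx ζ (sig ℤ ⟨1, 1, true⟩ G) := by
  induction G using AddMonoidAlgebra.induction_linear with
  | zero => simp
  | add x y hx hy => rw [map_add, map_add, map_add, hx, hy]
  | single w a =>
    rw [evy_single, sig_single, evx_single]
    simp [act]

private theorem sig_sig (G : AddMonoidAlgebra ℤ (ℤ × ℤ)) :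
    sig ℤ ⟨1, 1, true⟩ (sig ℤ ⟨1, 1, true⟩ G) = G := by
  rw [← sig_mul]
  have h1 : (⟨1, 1, true⟩ : SP) * ⟨1, 1, true⟩ = 1 := by
    apply SP.ext' <;> simp
  rw [h1, sig_one]

private theorem hom_aeval {A B : Type*} [CommRing A] [CommRing B] [Algebra ℤ A] [Algebra ℤ B] (φ : A →+* B) (x : A) (q : Polynomial ℤ) :
    φ (Polynomial.aeval x q) = Polynomial.aeval (φ x) q := by
  rw [Polynomial.aeval_def, Polynomial.hom_eval₂, Polynomial.aeval_def]
  congr 1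
  exact RingHom.ext_int _ _

private theorem sig_aeval (q : Polynomial ℤ) :
    sig ℤ ⟨1, 1, true⟩ (Polynomial.aeval (single ((1 : ℤ), (0 : ℤ)) (1 : ℤ) : AddMonoidAlgebra ℤ (ℤ × ℤ)) q) =
      Polynomial.aeval (single ((0 : ℤ), (1 : ℤ)) (1 : ℤ) : AddMonoidAlgebra ℤ (ℤ × ℤ)) q := by
  rw [hom_aeval, sig_single]
  simp [act]

private theorem col (q : Polynomial ℤ) (Z : Set ℂˣ)
    (hq : ∀ P : Polynomial ℤ, (∀ ζ ∈ Z, Polynomial.aeval ((ζ : ℂˣ) : ℂ) P = 0) → q ∣ P)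
    (G : AddMonoidAlgebra ℤ (ℤ × ℤ)) (h : ∀ ζ ∈ Z, evy ζ G = 0) :
    ∃ Q : AddMonoidAlgebra ℤ (ℤ × ℤ),
      G = Polynomial.aeval (single ((0 : ℤ), (1 : ℤ)) (1 : ℤ) : AddMonoidAlgebra ℤ (ℤ × ℤ)) q * Q := by
  obtain ⟨Q, hQ⟩ := row q Z hq (sig ℤ ⟨1, 1, true⟩ G) fun ζ hζ => by rw [← evy_sig, h ζ hζ]
  refine ⟨sig ℤ ⟨1, 1, true⟩ Q, ?_⟩
  rw [← sig_aeval, ← map_mul, ← hQ, sig_sig]

private theorem aev_one {B : Type*} [CommRing B] [Algebra ℤ B] (q : Polynomial ℤ) :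
    Polynomial.aeval (1 : B) q = ((q.eval 1 : ℤ) : B) := by
  rw [Polynomial.aeval_def, Polynomial.eval₂_at_one]
  exact eq_intCast _ _

private theorem aug_evy (ζ : ℂˣ) (q : Polynomial ℤ) :
    aug ℂ (evy ζ (Polynomial.aeval (single ((1 : ℤ), (0 : ℤ)) (1 : ℤ) : AddMonoidAlgebra ℤ (ℤ × ℤ)) q)) =
      ((q.eval 1 : ℤ) : ℂ) := by
  rw [hom_aeval, hom_aeval, evy_single, aug_single, ← aev_one]
  simp

private theorem aug_evx_one (D : AddMonoidAlgebra ℤ (ℤ × ℤ)) : aug ℂ (evx 1 D) = ((aug ℤ D : ℤ) : ℂ) := by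
  induction D using AddMonoidAlgebra.induction_linear with
  | zero => simp
  | add x y hx hy => rw [map_add, map_add, map_add, hx, hy, Int.cast_add]
  | single w a =>
    rw [evx_single, aug_single, aug_single]
    simp

private theorem aug_aeval (w : ℤ × ℤ) (q : Polynomial ℤ) :
    aug ℤ (Polynomial.aeval (single w (1 : ℤ) : AddMonoidAlgebra ℤ (ℤ × ℤ)) q) = q.eval 1 := by
  rw [hom_aeval, aug_single, aev_one]
  simp

private theorem cyc_dvd (n : ℕ) (hn : 0 < n) (ζ : ℂˣ) (hζ : IsPrimitiveRoot ζ n) (P : Polynomial ℤ)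
    (h : Polynomial.aeval ((ζ : ℂˣ) : ℂ) P = 0) : Polynomial.cyclotomic n ℤ ∣ P := by
  have h1 : IsPrimitiveRoot ((ζ : ℂˣ) : ℂ) n := IsPrimitiveRoot.coe_units_iff.2 hζ
  rw [Polynomial.cyclotomic_eq_minpoly h1 hn]
  exact minpoly.isIntegrallyClosed_dvd (h1.isIntegral hn) h

theorem cyc1 (p : ℕ) (hp : p.Prime) (j : ℕ) (ζ ζ' : ℂˣ) (hζ : ζ ^ (p ^ j) = 1) (hζ' : ζ' = ζ ∨ ζ' = ζ⁻¹)
    (D : AddMonoidAlgebra ℤ (ℤ × ℤ)) (hx : evx ζ D = 0) (hy : evy ζ' D = 0) : ((p : ℤ) ^ 2) ∣ aug ℤ D := by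
  have : Fact p.Prime := ⟨hp⟩
  by_cases h1 : ζ = 1
  · subst h1
    have h2 := aug_evx_one D
    rw [hx, map_zero] at h2
    have h3 : aug ℤ D = 0 := by exact_mod_cast h2.symm
    rw [h3]
    exact dvd_zero _
  · obtain ⟨i, -, hi⟩ := (Nat.dvd_prime_pow hp).1 (orderOf_dvd_of_pow_eq_one hζ)
    have hi0 : i ≠ 0 := by
      rintro rfl
      rw [pow_zero, orderOf_eq_one_iff] at hi
      exact h1 hi
    obtain ⟨k, rfl⟩ := Nat.exists_eq_succ_of_ne_zero hi0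
    have hpos : 0 < p ^ (k + 1) := pow_pos hp.pos _
    have h2 : IsPrimitiveRoot ζ (p ^ (k + 1)) := hi ▸ IsPrimitiveRoot.orderOf ζ
    have h3 : IsPrimitiveRoot ζ' (p ^ (k + 1)) := by
      rcases hζ' with rfl | rfl
      · exact h2
      · exact h2.inv
    have hev : (Polynomial.cyclotomic (p ^ (k + 1)) ℤ).eval 1 = (p : ℤ) :=
      Polynomial.eval_one_cyclotomic_prime_pow k
    obtain ⟨Q, hQ⟩ := row (Polynomial.cyclotomic (p ^ (k + 1)) ℤ) {ζ}
      (fun P hP => cyc_dvd _ hpos ζ h2 P (hP ζ rfl)) D (by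
        rintro z rfl
        exact hx)
    have h4 : evy ζ' Q = 0 := by
      rw [hQ, map_mul] at hy
      rcases mul_eq_zero.1 hy with h5 | h5
      · exfalso
        have h6 := aug_evy ζ' (Polynomial.cyclotomic (p ^ (k + 1)) ℤ)
        rw [h5, map_zero, hev] at h6
        have h7 : (p : ℤ) = 0 := by exact_mod_cast h6.symm
        exact hp.ne_zero (by exact_mod_cast h7)
      · exact h5
    obtain ⟨Q', hQ'⟩ := col (Polynomial.cyclotomic (p ^ (k + 1)) ℤ) {ζ'}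
      (fun P hP => cyc_dvd _ hpos ζ' h3 P (hP ζ' rfl)) Q (by
        rintro z rfl
        exact h4)
    rw [hQ, hQ', map_mul, map_mul, aug_aeval, aug_aeval, hev, ← mul_assoc, ← pow_two]
    exact dvd_mul_right _ _

private theorem xn_dvd (N : ℕ) (hN : 0 < N) (P : Polynomial ℤ)
    (h : ∀ ζ ∈ {ζ : ℂˣ | ζ ^ N = 1}, Polynomial.aeval ((ζ : ℂˣ) : ℂ) P = 0) :
    (Polynomial.X ^ N - 1 : Polynomial ℤ) ∣ P := by
  classical
  have hmon : (Polynomial.X ^ N - 1 : Polynomial ℤ).Monic := by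
    have := Polynomial.monic_X_pow_sub_C (1 : ℤ) hN.ne'
    simpa using this
  rw [← Polynomial.map_dvd_map (Int.castRingHom ℂ) (Int.cast_injective) hmon]
  have e1 : (Polynomial.X ^ N - 1 : Polynomial ℤ).map (Int.castRingHom ℂ) = Polynomial.X ^ N - 1 := by simp
  rw [e1, Polynomial.X_pow_sub_one_eq_prod hN (Complex.isPrimitiveRoot_exp N hN.ne')]
  refine Finset.prod_dvd_of_coprime ?_ ?_
  · intro a _ b _ hab
    exact Polynomial.pairwise_coprime_X_sub_C Function.injective_id hab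
  · intro z hz
    rw [Polynomial.dvd_iff_isRoot, Polynomial.IsRoot.def]
    have hz1 : z ^ N = 1 := (Polynomial.mem_nthRootsFinset hN 1).1 hz
    have hz0 : z ≠ 0 := by
      rintro rfl
      rw [zero_pow hN.ne'] at hz1
      exact zero_ne_one hz1
    have h2 := h (Units.mk0 z hz0) (by
      change Units.mk0 z hz0 ^ N = 1
      ext
      simpa using hz1)
    rw [Polynomial.eval_map]
    exact h2

theorem cyc2 (N : ℕ) (hN : 0 < N) (f : AddMonoidAlgebra ℤ (ℤ × ℤ)) (hx : ∀ ζ : ℂˣ, ζ ^ N = 1 → evx ζ f = 0)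
    (hy : ∀ ζ : ℂˣ, ζ ^ N = 1 → evy ζ f = 0) : ∃ Q, f = qq ℤ (N : ℤ) * Q := by
  obtain ⟨Q, hQ⟩ := row (Polynomial.X ^ N - 1) {ζ : ℂˣ | ζ ^ N = 1} (fun P hP => xn_dvd N hN P hP) f
    fun ζ hζ => hx ζ hζ
  have e1 : ∀ w : ℤ × ℤ, Polynomial.aeval (single w (1 : ℤ) : AddMonoidAlgebra ℤ (ℤ × ℤ))
      (Polynomial.X ^ N - 1 : Polynomial ℤ) = single (N • w) (1 : ℤ) - 1 := by
    intro w
    rw [map_sub, map_pow, Polynomial.aeval_X, map_one, AddMonoidAlgebra.single_pow, one_pow]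
  have h4 : ∀ ζ ∈ {ζ : ℂˣ | ζ ^ N = 1}, evy ζ Q = 0 := by
    intro ζ hζ
    have h5 := hy ζ hζ
    rw [hQ, map_mul, e1, map_sub, map_one, evy_single] at h5
    rcases mul_eq_zero.1 h5 with h6 | h6
    · exfalso
      rw [AddMonoidAlgebra.one_def, sub_eq_zero] at h6
      have h7 := congrArg (fun a : AddMonoidAlgebra ℂ ℤ => a.coeff 0) h6
      simp only [coeff_single, Finsupp.single_apply] at h7
      simp [hN.ne'] at h7
    · exact h6
  obtain ⟨Q', hQ'⟩ := col (Polynomial.X ^ N - 1) {ζ : ℂˣ | ζ ^ N = 1} (fun P hP => xn_dvd N hN P hP) Q h4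
  refine ⟨Q', ?_⟩
  rw [hQ, hQ', e1, e1, qq, ← mul_assoc]
  simp

end Pool.Agent.SQR
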