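import Pool.Agent.SQR.GenL

/-!
# SQR module DAB: three small group determinants

PROOF. `det_c2`, `det_v4`, `det_c4`: reindex by `Fin 2`, `Fin 4` or expand directly; all are polynomial identities
(for `ℤˣ`: `Finset.univ = {1, -1}`; for `Multiplicative (ZMod 4)` use an equivalence with `Fin 4` such as
`Multiplicative.ofAdd`, `(ZMod 4) = Fin 4` definitionally, and `Matrix.det_succ_row_zero`, `Fin.sum_univ_succ`,
then `ring`).  For `ℤˣ × ℤˣ` one may choose an explicit equivalence with `Fin 4` and use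
`Matrix.det_submatrix_equiv_self` / `Matrix.det_reindex_self`.
-/

set_option autoImplicit false

open AddMonoidAlgebra

namespace Pool.Agent.SQR

private theorem det_re {G : Type*} [Fintype G] [DecidableEq G] {n : ℕ} (v : Fin n → G)
    (hv : Function.Bijective v) (M : Matrix G G ℤ) :
    M.det = (Matrix.of fun i j : Fin n => M (v i) (v j)).det := by
  rw [← Matrix.det_submatrix_equiv_self (Equiv.ofBijective v hv) M]
  rfl

private theorem det4 (M : Matrix (Fin 4) (Fin 4) ℤ) :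
    M.det = M 0 0 * (M 1 1 * (M 2 2 * M 3 3 - M 2 3 * M 3 2) - M 1 2 * (M 2 1 * M 3 3 - M 2 3 * M 3 1)
        + M 1 3 * (M 2 1 * M 3 2 - M 2 2 * M 3 1))
      - M 0 1 * (M 1 0 * (M 2 2 * M 3 3 - M 2 3 * M 3 2) - M 1 2 * (M 2 0 * M 3 3 - M 2 3 * M 3 0)
        + M 1 3 * (M 2 0 * M 3 2 - M 2 2 * M 3 0))
      + M 0 2 * (M 1 0 * (M 2 1 * M 3 3 - M 2 3 * M 3 1) - M 1 1 * (M 2 0 * M 3 3 - M 2 3 * M 3 0)
        + M 1 3 * (M 2 0 * M 3 1 - M 2 1 * M 3 0))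
      - M 0 3 * (M 1 0 * (M 2 1 * M 3 2 - M 2 2 * M 3 1) - M 1 1 * (M 2 0 * M 3 2 - M 2 2 * M 3 0)
        + M 1 2 * (M 2 0 * M 3 1 - M 2 1 * M 3 0)) := by
  rw [Matrix.det_succ_row_zero, Fin.sum_univ_four]
  simp only [Matrix.det_fin_three, Matrix.submatrix_apply]
  have e1 : (Fin.succ (0 : Fin 3)) = (1 : Fin 4) := rfl
  have e2 : (Fin.succ (1 : Fin 3)) = (2 : Fin 4) := rfl
  have e3 : (Fin.succ (2 : Fin 3)) = (3 : Fin 4) := rfl
  have a00 : (Fin.succAbove (0 : Fin 4) (0 : Fin 3)) = 1 := by decide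
  have a01 : (Fin.succAbove (0 : Fin 4) (1 : Fin 3)) = 2 := by decide
  have a02 : (Fin.succAbove (0 : Fin 4) (2 : Fin 3)) = 3 := by decide
  have a10 : (Fin.succAbove (1 : Fin 4) (0 : Fin 3)) = 0 := by decide
  have a11 : (Fin.succAbove (1 : Fin 4) (1 : Fin 3)) = 2 := by decide
  have a12 : (Fin.succAbove (1 : Fin 4) (2 : Fin 3)) = 3 := by decide
  have a20 : (Fin.succAbove (2 : Fin 4) (0 : Fin 3)) = 0 := by decide
  have a21 : (Fin.succAbove (2 : Fin 4) (1 : Fin 3)) = 1 := by decide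
  have a22 : (Fin.succAbove (2 : Fin 4) (2 : Fin 3)) = 3 := by decide
  have a30 : (Fin.succAbove (3 : Fin 4) (0 : Fin 3)) = 0 := by decide
  have a31 : (Fin.succAbove (3 : Fin 4) (1 : Fin 3)) = 1 := by decide
  have a32 : (Fin.succAbove (3 : Fin 4) (2 : Fin 3)) = 2 := by decide
  rw [e1, e2, e3, a00, a01, a02, a10, a11, a12, a20, a21, a22, a30, a31, a32]
  simp only [Fin.coe_ofNat_eq_mod]
  norm_num
  ring

theorem det_c2 (N : ℤˣ → ℤ) :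
    (Matrix.of fun h k : ℤˣ => N (h⁻¹ * k)).det = (N 1 + N (-1)) * (N 1 - N (-1)) := by
  rw [det_re (![1, -1] : Fin 2 → ℤˣ) (by decide), Matrix.det_fin_two]
  simp only [Matrix.of_apply]
  have h1 : ((![1, -1] : Fin 2 → ℤˣ) 0)⁻¹ * (![1, -1] : Fin 2 → ℤˣ) 0 = 1 := by decide
  have h2 : ((![1, -1] : Fin 2 → ℤˣ) 0)⁻¹ * (![1, -1] : Fin 2 → ℤˣ) 1 = -1 := by decide
  have h3 : ((![1, -1] : Fin 2 → ℤˣ) 1)⁻¹ * (![1, -1] : Fin 2 → ℤˣ) 0 = -1 := by decide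
  have h4 : ((![1, -1] : Fin 2 → ℤˣ) 1)⁻¹ * (![1, -1] : Fin 2 → ℤˣ) 1 = 1 := by decide
  rw [h1, h2, h3, h4]
  ring

private def v4 : Fin 4 → ℤˣ × ℤˣ := ![(1, 1), (1, -1), (-1, 1), (-1, -1)]

private theorem tv : ∀ i j : Fin 4, (v4 i)⁻¹ * v4 j =
    v4 ((!![0, 1, 2, 3; 1, 0, 3, 2; 2, 3, 0, 1; 3, 2, 1, 0] : Matrix (Fin 4) (Fin 4) (Fin 4)) i j) := by
  decide

theorem det_v4 (N : ℤˣ × ℤˣ → ℤ) :
    (Matrix.of fun h k : ℤˣ × ℤˣ => N (h⁻¹ * k)).det =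
      (N (1, 1) + N (1, -1) + N (-1, 1) + N (-1, -1)) * (N (1, 1) - N (1, -1) + N (-1, 1) - N (-1, -1)) *
      (N (1, 1) + N (1, -1) - N (-1, 1) - N (-1, -1)) * (N (1, 1) - N (1, -1) - N (-1, 1) + N (-1, -1)) := by
  rw [det_re v4 (by decide), det4]
  simp only [Matrix.of_apply, tv]
  simp [v4]
  ring

private def c4 : Fin 4 → Multiplicative (ZMod 4) := ![.ofAdd 0, .ofAdd 1, .ofAdd 2, .ofAdd 3]

private theorem tc : ∀ i j : Fin 4, (c4 i)⁻¹ * c4 j =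
    c4 ((!![0, 1, 2, 3; 3, 0, 1, 2; 2, 3, 0, 1; 1, 2, 3, 0] : Matrix (Fin 4) (Fin 4) (Fin 4)) i j) := by
  decide

theorem det_c4 (N : Multiplicative (ZMod 4) → ℤ) :
    (Matrix.of fun h k : Multiplicative (ZMod 4) => N (h⁻¹ * k)).det =
      (N (.ofAdd 0) + N (.ofAdd 1) + N (.ofAdd 2) + N (.ofAdd 3)) *
      (N (.ofAdd 0) - N (.ofAdd 1) + N (.ofAdd 2) - N (.ofAdd 3)) *
      ((N (.ofAdd 0) - N (.ofAdd 2)) ^ 2 + (N (.ofAdd 1) - N (.ofAdd 3)) ^ 2) := by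
  rw [det_re c4 (by decide), det4]
  simp only [Matrix.of_apply, tc]
  simp only [c4, Matrix.cons_val_zero, Matrix.cons_val_one, Matrix.cons_val]
  generalize N (.ofAdd 0) = a
  generalize N (.ofAdd 1) = b
  generalize N (.ofAdd 2) = c
  generalize N (.ofAdd 3) = d
  ring

end Pool.Agent.SQR
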