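import Pool.Agent.SQR.DetSp
import Pool.Agent.SQR.DetAb
import Pool.Agent.SQR.Star

/-!
# SQR module DCA: the determinant is not divisible by `p ^ 2`

For a finite group `H` and `γ : Fin p → H` the entry `#{i | h * γ i = k}` is `N (h⁻¹ * k)` with
`N b = #{i | γ i = b}`, `∑ b, N b = p`, and `∑ b, N b * φ b = ∑ i, φ (γ i)` for every function `φ`.

PROOF. (0) Let `φ : Fin p → ℤ` take values in `{1, -1}` with `φ i0 = 1`.  If `p ∣ ∑ i, φ i` then `φ i = 1` for all
`i`: the sum is odd (as `p` is odd), so nonzero, of absolute value at most `p`, so `± p`, so all `φ i` are equal.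

The elements with `w = true` are `± τ` (equal signs) and the two quarter turns (different signs).
Case 1: all `g i` are in `{1, -1, τ, -τ}` (i.e. `s = t`).
 Case 1a: all `g i` with `s = 1`, i.e. in `{1, τ}`: `H = ℤˣ`, `ρ b = ⟨1, 1, decide (b = -1)⟩`, `det_c2`:
 `(N 1 + N (-1)) * (N 1 - N (-1)) = p * r` with `r` odd (`r ≡ p`), `|r| ≤ p` and `|r| < p` since both `N 1 > 0`
 (`g i0 = 1`) and `N (-1) > 0` (`g i1 = τ`); so `p ^ 2` does not divide `p * r`, `r ≠ 0`.
 Case 1b: all `g i` in `{1, -τ}`: the same with `ρ b = ⟨b, b, decide (b = -1)⟩`.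
 Case 1c: otherwise: `H = ℤˣ × ℤˣ`, `ρ (a, b) = ⟨a, a, decide (b = -1)⟩`, `det_v4`: the product of `p` and the three
 sums `∑ φ i` with `φ i = (-1)^{w}`, `φ i = s_i`, `φ i = s_i * (-1)^{w}`; none of the three is divisible by `p` by
 (0), as `g i1` has `w = true`, not all `g i` are in `{1, τ}`, and not all are in `{1, -τ}`.
Case 2: some `g k` has `s ≠ t`.  Then the first alternative of `Hyp` fails: if `(g k).w = true` take `i = i0`,
`j = k`; if `(g k).w = false` then `g k = ⟨s, -s, false⟩`, and either `g i1` has different signs (take `i = i0`,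
`j = i1`) or `(g k)⁻¹ * g i1` has `w = true` and different signs (take `i = k`, `j = i1`).  So `p` does not divide
`Δ = (∑ i, mat (g i)).det`.
 Case 2a: all `g i` are rotations (`w = false` and `s = t`, or `w = true` and `s ≠ t`): `H = Multiplicative (ZMod 4)`,
 `ρ` the homomorphism sending the generator to `⟨-1, 1, true⟩` (whose square is `⟨-1, -1, false⟩`; for instance
 `zmultiplesHom`/`zpowersHom`-like constructions, or define `ρ` by its four values and check
 multiplicativity by `decide`), `det_c4`: the product of `p`, of `∑ φ i` with `φ i = 1` if `w = false` and `-1`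
 otherwise (not divisible by `p` by (0) because of `g i1`), and of
 `(N 0 - N 2) ^ 2 + (N 1 - N 3) ^ 2 = Δ` (compute the matrix `∑ mat (g i)`), not divisible by `p`.
 Case 2b: otherwise: `H = SP`, `ρ` the identity, `det_sp`: the product of `p`, the three sums `∑ cD`, `∑ chi`,
 `∑ cD * chi`, and `Δ ^ 2`; the three sums are not divisible by `p` by (0), as `g i1` has `cD = -1`, `g k` has
 `chi = -1`, and not all `g i` are rotations (`cD * chi = 1` exactly on the rotations).
In each case `p ^ 2 ∣ p * r` would give `p ∣ r` with `r` a product of numbers not divisible by the prime `p`.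
-/

set_option autoImplicit false

open AddMonoidAlgebra

namespace Pool.Agent.SQR

/-- multiplicities -/
def dcaN {p : ℕ} {H : Type} [DecidableEq H] (γ : Fin p → H) (b : H) : ℤ :=
  ((Finset.univ.filter fun i => γ i = b).card : ℤ)

theorem dcaN_sum {p : ℕ} {H : Type} [Fintype H] [DecidableEq H] (γ : Fin p → H) (φ : H → ℤ) :
    ∑ b, φ b * dcaN γ b = ∑ i, φ (γ i) := by
  have h1 : ∀ b, φ b * dcaN γ b = ∑ i, if γ i = b then φ b else 0 := by
    intro b
    unfold dcaN
    rw [← Finset.sum_filter, Finset.sum_const, nsmul_eq_mul, mul_comm]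
  rw [Finset.sum_congr rfl fun b _ => h1 b, Finset.sum_comm]
  refine Finset.sum_congr rfl fun i _ => ?_
  rw [Finset.sum_ite_eq]
  simp

theorem dcaN_tot {p : ℕ} {H : Type} [Fintype H] [DecidableEq H] (γ : Fin p → H) :
    ∑ b, dcaN γ b = p := by
  have h1 := dcaN_sum γ (fun _ => 1)
  simpa using h1

theorem dcaN_mat {p : ℕ} {H : Type} [Group H] [Fintype H] [DecidableEq H] (γ : Fin p → H) :
    (Matrix.of fun h k : H => ((Finset.univ.filter fun i => h * γ i = k).card : ℤ)) =
      Matrix.of fun h k : H => dcaN γ (h⁻¹ * k) := by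
  ext h k
  simp only [Matrix.of_apply, dcaN]
  congr 2
  ext i
  simp only [Finset.mem_filter, Finset.mem_univ, true_and]
  constructor
  · rintro rfl
    rw [inv_mul_cancel_left]
  · intro h1
    rw [h1, mul_inv_cancel_left]

theorem dca_nd {p : ℕ} (hp : p.Prime) (hp2 : p ≠ 2) (f : Fin p → ℤˣ) (i0 i1 : Fin p) (h : f i0 ≠ f i1) :
    ¬ (p : ℤ) ∣ ∑ i, ((f i : ℤˣ) : ℤ) := fun h1 => h (star_all_eq p hp hp2 f h1 i0 i1)

theorem dca_sq {p : ℕ} (hp : p.Prime) (r : ℤ) (hr : ¬ (p : ℤ) ∣ r) : ¬ ((p : ℤ) ^ 2) ∣ (p : ℤ) * r := by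
  intro h
  rw [pow_two] at h
  exact hr ((mul_dvd_mul_iff_left (by exact_mod_cast hp.ne_zero)).1 h)

theorem dca_mul {p : ℕ} (hp : p.Prime) (r s : ℤ) (hr : ¬ (p : ℤ) ∣ r) (hs : ¬ (p : ℤ) ∣ s) :
    ¬ (p : ℤ) ∣ r * s := by
  intro h
  rcases (Nat.prime_iff_prime_int.1 hp).dvd_or_dvd h with h1 | h1
  · exact hr h1
  · exact hs h1

theorem dca_pow {p : ℕ} (hp : p.Prime) (r : ℤ) (hr : ¬ (p : ℤ) ∣ r) : ¬ (p : ℤ) ∣ r ^ 2 := by
  rw [pow_two]
  exact dca_mul hp r r hr hr

/-- sign of the exchange -/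
def dcaW (g : SP) : ℤˣ := if g.w then -1 else 1

theorem dca_cD_eq (g : SP) : cD g = ((dcaW g : ℤˣ) : ℤ) := by
  unfold cD dcaW
  split <;> rfl

theorem dca_chi_eq (g : SP) : chi g = ((g.s * g.t : ℤˣ) : ℤ) := by
  rw [Units.val_mul]; rfl

theorem dca_sum_units (f : ℤˣ → ℤ) : ∑ x, f x = f 1 + f (-1) := by
  have h1 : (Finset.univ : Finset ℤˣ) = {1, -1} := rfl
  rw [h1, Finset.sum_pair (by decide)]

theorem dca_sum_c4 (f : Multiplicative (ZMod 4) → ℤ) :
    ∑ x, f x = f (.ofAdd 0) + f (.ofAdd 1) + f (.ofAdd 2) + f (.ofAdd 3) := by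
  have h1 : ∑ x, f x = ∑ x : Fin 4, f (Multiplicative.ofAdd (show ZMod 4 from x)) := rfl
  rw [h1, Fin.sum_univ_four]
  rfl

/-- the rotations -/
def dcaRho4f (x : Multiplicative (ZMod 4)) : SP :=
  if x = .ofAdd 0 then 1 else if x = .ofAdd 1 then ⟨-1, 1, true⟩ else
    if x = .ofAdd 2 then ⟨-1, -1, false⟩ else ⟨1, -1, true⟩

/-- the index of a rotation -/
def dcaGam4 (g : SP) : Multiplicative (ZMod 4) :=
  if g = 1 then .ofAdd 0 else if g = ⟨-1, 1, true⟩ then .ofAdd 1 else
    if g = ⟨-1, -1, false⟩ then .ofAdd 2 else .ofAdd 3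

theorem dca_rho4_mul : ∀ x y, dcaRho4f (x * y) = dcaRho4f x * dcaRho4f y := by decide

theorem dca_rho4_gam4 : ∀ g : SP, dcaW g * (g.s * g.t) = 1 → dcaRho4f (dcaGam4 g) = g := by decide

/-- the homomorphism onto the rotations -/
def dcaRho4 : Multiplicative (ZMod 4) →* SP where
  toFun := dcaRho4f
  map_one' := by decide
  map_mul' := dca_rho4_mul

/-- case 1a -/
def dcaRhoA : ℤˣ →* SP where
  toFun b := ⟨1, 1, decide (b = -1)⟩
  map_one' := by decide
  map_mul' := by decide

/-- case 1b -/
def dcaRhoB : ℤˣ →* SP where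
  toFun b := ⟨b, b, decide (b = -1)⟩
  map_one' := by decide
  map_mul' := by decide

/-- case 1c -/
def dcaRhoC : ℤˣ × ℤˣ →* SP where
  toFun b := ⟨b.1, b.1, decide (b.2 = -1)⟩
  map_one' := by decide
  map_mul' := by decide

theorem dca (p : ℕ) (hp : p.Prime) (hp2 : p ≠ 2) (g : Fin p → SP) (hyp : Hyp p g) (i0 : Fin p) (h0 : g i0 = 1)
    (i1 : Fin p) (h1 : (g i1).w = true) :
    ∃ (H : Type) (_ : Group H) (_ : Fintype H) (_ : DecidableEq H) (ρ : H →* SP) (γ : Fin p → H),
      (∀ i, ρ (γ i) = g i) ∧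
      ¬ ((p : ℤ) ^ 2) ∣
        (Matrix.of fun h k : H => ((Finset.univ.filter fun i => h * γ i = k).card : ℤ)).det := by
  have hw0 : dcaW (g i0) = 1 := by rw [h0]; rfl
  have hw1 : dcaW (g i1) = -1 := by unfold dcaW; rw [h1]; rfl
  have hwne : dcaW (g i0) ≠ dcaW (g i1) := by rw [hw0, hw1]; decide
  have hW : ¬ (p : ℤ) ∣ ∑ i, ((dcaW (g i) : ℤˣ) : ℤ) := dca_nd hp hp2 _ i0 i1 hwne
  by_cases hst : ∀ i, (g i).s = (g i).t
  · by_cases hA : ∀ i, (g i).s = 1
    · refine ⟨ℤˣ, inferInstance, inferInstance, inferInstance, dcaRhoA, fun i => dcaW (g i), ?_, ?_⟩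
      · intro i
        apply SP.ext'
        · exact (hA i).symm
        · exact ((hst i).symm.trans (hA i)).symm
        · change decide (dcaW (g i) = -1) = (g i).w
          unfold dcaW
          cases h : (g i).w <;> simp
      · rw [dcaN_mat, det_c2]
        have e1 := dcaN_tot fun i => dcaW (g i)
        have e2 := dcaN_sum (fun i => dcaW (g i)) fun b => (b : ℤ)
        rw [dca_sum_units] at e1 e2
        rw [e1]
        apply dca_sq hp
        have e3 : dcaN (fun i => dcaW (g i)) 1 - dcaN (fun i => dcaW (g i)) (-1) = ∑ i, ((dcaW (g i) : ℤˣ) : ℤ) := by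
          rw [← e2]
          simp [sub_eq_add_neg]
        rw [e3]
        exact hW
    · by_cases hB : ∀ i, dcaW (g i) = (g i).s
      · refine ⟨ℤˣ, inferInstance, inferInstance, inferInstance, dcaRhoB, fun i => (g i).s, ?_, ?_⟩
        · intro i
          apply SP.ext'
          · rfl
          · exact hst i
          · change decide ((g i).s = -1) = (g i).w
            rw [← hB i]
            unfold dcaW
            cases h : (g i).w <;> simp
        · rw [dcaN_mat, det_c2]
          have e1 := dcaN_tot fun i => (g i).s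
          have e2 := dcaN_sum (fun i => (g i).s) fun b => (b : ℤ)
          rw [dca_sum_units] at e1 e2
          rw [e1]
          apply dca_sq hp
          have e3 : dcaN (fun i => (g i).s) 1 - dcaN (fun i => (g i).s) (-1) =
              ∑ i, ((dcaW (g i) : ℤˣ) : ℤ) := by
            rw [Finset.sum_congr rfl fun i _ => by rw [hB i], ← e2]
            simp [sub_eq_add_neg]
          rw [e3]
          exact hW
      · push Not at hA hB
        obtain ⟨a, ha⟩ := hA
        obtain ⟨b, hb⟩ := hB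
        refine ⟨ℤˣ × ℤˣ, inferInstance, inferInstance, inferInstance, dcaRhoC,
          fun i => ((g i).s, dcaW (g i)), ?_, ?_⟩
        · intro i
          apply SP.ext'
          · rfl
          · exact hst i
          · change decide (dcaW (g i) = -1) = (g i).w
            unfold dcaW
            cases h : (g i).w <;> simp
        · rw [dcaN_mat, det_v4]
          set N := dcaN fun i => ((g i).s, dcaW (g i)) with hN
          have e1 : ∑ b, N b = p := dcaN_tot _
          have e2 : ∑ b : ℤˣ × ℤˣ, (b.2 : ℤ) * N b = ∑ i, ((dcaW (g i) : ℤˣ) : ℤ) :=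
            dcaN_sum _ fun b : ℤˣ × ℤˣ => (b.2 : ℤ)
          have e3 : ∑ b : ℤˣ × ℤˣ, (b.1 : ℤ) * N b = ∑ i, (((g i).s : ℤˣ) : ℤ) :=
            dcaN_sum _ fun b : ℤˣ × ℤˣ => (b.1 : ℤ)
          have e4 : ∑ b : ℤˣ × ℤˣ, ((b.1 * b.2 : ℤˣ) : ℤ) * N b = ∑ i, (((g i).s * dcaW (g i) : ℤˣ) : ℤ) :=
            dcaN_sum _ fun b : ℤˣ × ℤˣ => ((b.1 * b.2 : ℤˣ) : ℤ)
          rw [Fintype.sum_prod_type, dca_sum_units, dca_sum_units, dca_sum_units] at e1 e2 e3 e4
          simp only [Units.val_one, Units.val_neg, one_mul, neg_mul, mul_neg, mul_one, neg_neg] at e1 e2 e3 e4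
          have f1 : N (1, 1) + N (1, -1) + N (-1, 1) + N (-1, -1) = p := by rw [← e1]; ring
          have f2 : N (1, 1) - N (1, -1) + N (-1, 1) - N (-1, -1) = ∑ i, ((dcaW (g i) : ℤˣ) : ℤ) := by
            rw [← e2]; ring
          have f3 : N (1, 1) + N (1, -1) - N (-1, 1) - N (-1, -1) = ∑ i, (((g i).s : ℤˣ) : ℤ) := by
            rw [← e3]; ring
          have f4 : N (1, 1) - N (1, -1) - N (-1, 1) + N (-1, -1) =
              ∑ i, (((g i).s * dcaW (g i) : ℤˣ) : ℤ) := by
            rw [← e4]; ring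
          rw [f1, f2, f3, f4, mul_assoc, mul_assoc]
          apply dca_sq hp
          apply dca_mul hp _ _ hW
          apply dca_mul hp
          · apply dca_nd hp hp2 _ i0 a
            rw [h0]
            exact fun h => ha h.symm
          · apply dca_nd hp hp2 _ i0 b
            rw [h0]
            intro h
            apply hb
            have h2 : (1 : SP).s * dcaW 1 = 1 := by decide
            rw [h2] at h
            rw [mul_comm] at h
            rw [mul_eq_one_iff_eq_inv.1 h.symm, Int.units_inv_eq_self]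
  · push Not at hst
    obtain ⟨k, hk⟩ := hst
    have hΔ : ¬ (p : ℤ) ∣ (∑ i, mat (g i)).det := by
      rcases hyp with h | h
      · exfalso
        have h2 : ∀ j, (g j).w = true → (g j).s = (g j).t := by
          intro j hj
          have h3 := h i0 j
          rw [h0, inv_one, one_mul] at h3
          exact h3 hj
        have h3 : (g k).w = false := by
          by_contra h4
          exact hk (h2 k (by simpa using h4))
        have h4 := h k i1
        have h5 := h2 i1 h1
        simp only [SP.mul_w, SP.inv_w, h3, h1, SP.mul_s, SP.mul_t, SP.inv_s, SP.inv_t] at h4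
        simp only [Bool.xor_true, Bool.not_false, forall_const, Bool.false_eq_true, if_false,
          h5] at h4
        exact hk (mul_right_cancel h4)
      · exact h
    have hch : ¬ (p : ℤ) ∣ ∑ i, (((g i).s * (g i).t : ℤˣ) : ℤ) := by
      apply dca_nd hp hp2 _ i0 k
      rw [h0]
      intro h
      apply hk
      have h2 : (1 : SP).s * (1 : SP).t = 1 := by decide
      rw [h2] at h
      rw [mul_eq_one_iff_eq_inv.1 h.symm, Int.units_inv_eq_self]
    by_cases hr : ∀ i, dcaW (g i) * ((g i).s * (g i).t) = 1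
    · refine ⟨Multiplicative (ZMod 4), inferInstance, inferInstance, inferInstance, dcaRho4,
        fun i => dcaGam4 (g i), ?_, ?_⟩
      · intro i
        exact dca_rho4_gam4 _ (hr i)
      · rw [dcaN_mat, det_c4]
        set N := dcaN fun i => dcaGam4 (g i) with hN
        have e1 : ∑ b, N b = p := dcaN_tot _
        have e2 : ∑ b, (dcaW (dcaRho4f b) : ℤ) * N b = ∑ i, ((dcaW (g i) : ℤˣ) : ℤ) := by
          rw [dcaN_sum _ fun b => (dcaW (dcaRho4f b) : ℤ)]
          refine Finset.sum_congr rfl fun i _ => ?_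
          rw [dca_rho4_gam4 _ (hr i)]
        have e3 : ∀ x y, ∑ b, mat (dcaRho4f b) x y * N b = (∑ i, mat (g i)) x y := by
          intro x y
          rw [dcaN_sum _ fun b => mat (dcaRho4f b) x y, Matrix.sum_apply]
          refine Finset.sum_congr rfl fun i _ => ?_
          rw [dca_rho4_gam4 _ (hr i)]
        rw [dca_sum_c4] at e1 e2
        have g0 : dcaW (dcaRho4f (.ofAdd 0)) = 1 := by decide
        have g1 : dcaW (dcaRho4f (.ofAdd 1)) = -1 := by decide
        have g2 : dcaW (dcaRho4f (.ofAdd 2)) = 1 := by decide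
        have g3 : dcaW (dcaRho4f (.ofAdd 3)) = -1 := by decide
        rw [g0, g1, g2, g3] at e2
        have k0 : mat (dcaRho4f (.ofAdd 0)) = !![1, 0; 0, 1] := by decide
        have k1 : mat (dcaRho4f (.ofAdd 1)) = !![0, -1; 1, 0] := by decide
        have k2 : mat (dcaRho4f (.ofAdd 2)) = !![-1, 0; 0, -1] := by decide
        have k3 : mat (dcaRho4f (.ofAdd 3)) = !![0, 1; -1, 0] := by decide
        have f2 : N (.ofAdd 0) - N (.ofAdd 1) + N (.ofAdd 2) - N (.ofAdd 3) =
            ∑ i, ((dcaW (g i) : ℤˣ) : ℤ) := by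
          rw [← e2]
          simp only [Units.val_one, Units.val_neg]
          ring
        have f3 : (N (.ofAdd 0) - N (.ofAdd 2)) ^ 2 + (N (.ofAdd 1) - N (.ofAdd 3)) ^ 2 =
            (∑ i, mat (g i)).det := by
          rw [Matrix.det_fin_two, ← e3, ← e3, ← e3, ← e3, dca_sum_c4, dca_sum_c4, dca_sum_c4, dca_sum_c4, k0, k1, k2, k3]
          simp
          ring
        rw [e1, f2, f3, mul_assoc]
        apply dca_sq hp
        exact dca_mul hp _ _ hW hΔ
    · push Not at hr
      obtain ⟨a, ha⟩ := hr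
      refine ⟨SP, inferInstance, inferInstance, inferInstance, MonoidHom.id SP, g, fun i => rfl, ?_⟩
      rw [dcaN_mat, det_sp]
      have e1 : ∑ b, dcaN g b = p := dcaN_tot g
      have e2 : ∑ b, cD b * dcaN g b = ∑ i, ((dcaW (g i) : ℤˣ) : ℤ) := by
        rw [dcaN_sum g cD]
        exact Finset.sum_congr rfl fun i _ => dca_cD_eq _
      have e3 : ∑ b, chi b * dcaN g b = ∑ i, (((g i).s * (g i).t : ℤˣ) : ℤ) := by
        rw [dcaN_sum g chi]
        exact Finset.sum_congr rfl fun i _ => dca_chi_eq _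
      have e4 : ∑ b, cD b * chi b * dcaN g b = ∑ i, ((dcaW (g i) * ((g i).s * (g i).t) : ℤˣ) : ℤ) := by
        rw [dcaN_sum g fun b => cD b * chi b]
        refine Finset.sum_congr rfl fun i _ => ?_
        rw [dca_cD_eq, dca_chi_eq, ← Units.val_mul]
      have e5 : ∑ b, dcaN g b • mat b = ∑ i, mat (g i) := by
        ext x y
        rw [Matrix.sum_apply, Matrix.sum_apply, ← dcaN_sum g fun b => mat b x y]
        refine Finset.sum_congr rfl fun b _ => ?_
        rw [Matrix.smul_apply, smul_eq_mul, mul_comm]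
      rw [e1, e2, e3, e4, e5, mul_assoc, mul_assoc, mul_assoc]
      apply dca_sq hp
      apply dca_mul hp _ _ hW
      apply dca_mul hp _ _ hch
      apply dca_mul hp
      · apply dca_nd hp hp2 _ i0 a
        rw [h0]
        intro h
        exact ha h.symm
      · exact dca_pow hp _ hΔ

end Pool.Agent.SQR
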