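import Mathlib

/-!
# SQR: definitions

`V` is the plane.  `SP` is the group of the eight signed permutations of the coordinates (the symmetries of the
square), `act g` its action on `M × M`, `sig K g` the induced endomorphism of the group ring, `chi g` the product
of the two signs.  `Phi F z` is the sum of the coefficients of `F` at the points `w ≤ z` (the function with corner
sum `F`).  `qq K e` is the corner sum of the square with side `e`.  `mv g c` is the isometry `z ↦ g z + c`.
`IsTil p U g c`: the closures of the `p` images `mv (g i) (c i) '' U` of the regular open connected set `U` form a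
dissection of the unit square.
-/

set_option autoImplicit false

open AddMonoidAlgebra

noncomputable section

namespace Pool.Agent.SQR

/-- The plane. -/
abbrev V : Type := ℝ × ℝ

/-- Signed permutations: `(x, y) ↦ (s x, t y)` if `w` is false, `(x, y) ↦ (s y, t x)` if `w` is true. -/
structure SP where
  s : ℤˣ
  t : ℤˣ
  w : Bool
  deriving DecidableEq, Fintype

namespace SP

@[ext] theorem ext' {g h : SP} (h1 : g.s = h.s) (h2 : g.t = h.t) (h3 : g.w = h.w) : g = h := by
  cases g; cases h; simp_all

instance : Mul SP :=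
  ⟨fun g h => ⟨g.s * (if g.w then h.t else h.s), g.t * (if g.w then h.s else h.t), xor g.w h.w⟩⟩

instance : One SP := ⟨⟨1, 1, false⟩⟩

instance : Inv SP := ⟨fun g => ⟨if g.w then g.t else g.s, if g.w then g.s else g.t, g.w⟩⟩

@[simp] theorem mul_s (g h : SP) : (g * h).s = g.s * (if g.w then h.t else h.s) := rfl
@[simp] theorem mul_t (g h : SP) : (g * h).t = g.t * (if g.w then h.s else h.t) := rfl
@[simp] theorem mul_w (g h : SP) : (g * h).w = xor g.w h.w := rfl
@[simp] theorem one_s : (1 : SP).s = 1 := rfl
@[simp] theorem one_t : (1 : SP).t = 1 := rfl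
@[simp] theorem one_w : (1 : SP).w = false := rfl
@[simp] theorem inv_s (g : SP) : g⁻¹.s = if g.w then g.t else g.s := rfl
@[simp] theorem inv_t (g : SP) : g⁻¹.t = if g.w then g.s else g.t := rfl
@[simp] theorem inv_w (g : SP) : g⁻¹.w = g.w := rfl

instance : Group SP :=
  Group.ofLeftAxioms
    (by
      intro a b c
      apply ext'
      · cases h1 : a.w <;> cases h2 : b.w <;> simp [h1, h2, mul_assoc]
      · cases h1 : a.w <;> cases h2 : b.w <;> simp [h1, h2, mul_assoc]
      · simp)
    (by
      intro a
      apply ext' <;> simp)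
    (by
      intro a
      apply ext'
      · cases h : a.w <;> simp [h, Int.units_mul_self]
      · cases h : a.w <;> simp [h, Int.units_mul_self]
      · simp)

end SP

/-- The action of a signed permutation on pairs. -/
def act {M : Type*} [AddCommGroup M] (g : SP) : M × M →+ M × M where
  toFun z := ((g.s : ℤ) • (if g.w then z.2 else z.1), (g.t : ℤ) • (if g.w then z.1 else z.2))
  map_zero' := by cases h : g.w <;> simp
  map_add' x y := by cases h : g.w <;> simp

/-- The product of the two signs. -/
def chi (g : SP) : ℤ := (g.s : ℤ) * (g.t : ℤ)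

/-- The matrix of a signed permutation. -/
def mat (g : SP) : Matrix (Fin 2) (Fin 2) ℤ :=
  if g.w then !![0, (g.s : ℤ); (g.t : ℤ), 0] else !![(g.s : ℤ), 0; 0, (g.t : ℤ)]

/-- The endomorphism of the group ring induced by a signed permutation. -/
def sig (K : Type*) [CommRing K] {M : Type*} [AddCommGroup M] (g : SP) :
    AddMonoidAlgebra K (M × M) →+* AddMonoidAlgebra K (M × M) :=
  mapDomainRingHom K (act g)

/-- The function with corner sum `F`. -/
def Phi {K : Type*} [CommRing K] (F : AddMonoidAlgebra K V) (z : V) : K :=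
  F.coeff.sum fun w c => if w.1 ≤ z.1 ∧ w.2 ≤ z.2 then c else 0

/-- The corner sum of the square with side `e`. -/
def qq (K : Type*) [CommRing K] {M : Type*} [AddCommGroup M] (e : M) : AddMonoidAlgebra K (M × M) :=
  (single (e, (0 : M)) (1 : K) - 1) * (single ((0 : M), e) (1 : K) - 1)

/-- The sum of the signed and translated images of `F`. -/
def tsm {p : ℕ} (K : Type*) [CommRing K] {M : Type*} [AddCommGroup M] (g : Fin p → SP)
    (c : Fin p → M × M) (F : AddMonoidAlgebra K (M × M)) : AddMonoidAlgebra K (M × M) :=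
  ∑ i, chi (g i) • (single (c i) (1 : K) * sig K (g i) F)

/-- The sum of the coefficients. -/
def aug (K : Type*) [CommRing K] {M : Type*} [AddCommGroup M] : AddMonoidAlgebra K M →+* K :=
  ((AddMonoidAlgebra.lift K K M) 1 : AddMonoidAlgebra K M →ₐ[K] K).toRingHom

/-- Evaluation of the first variable at `ζ`. -/
def evx (ζ : ℂˣ) : AddMonoidAlgebra ℤ (ℤ × ℤ) →+* AddMonoidAlgebra ℂ ℤ :=
  ((AddMonoidAlgebra.lift ℤ (AddMonoidAlgebra ℂ ℤ) (ℤ × ℤ))
    { toFun := fun w => single w.toAdd.2 ((ζ ^ w.toAdd.1 : ℂˣ) : ℂ)
      map_one' := by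
        rw [AddMonoidAlgebra.one_def]
        simp only [toAdd_one, Prod.fst_zero, Prod.snd_zero, zpow_zero, Units.val_one]
      map_mul' := fun v w => by
        rw [single_mul_single, ← Units.val_mul, ← zpow_add]
        rfl }).toRingHom

/-- Evaluation of the second variable at `ζ`. -/
def evy (ζ : ℂˣ) : AddMonoidAlgebra ℤ (ℤ × ℤ) →+* AddMonoidAlgebra ℂ ℤ :=
  ((AddMonoidAlgebra.lift ℤ (AddMonoidAlgebra ℂ ℤ) (ℤ × ℤ))
    { toFun := fun w => single w.toAdd.1 ((ζ ^ w.toAdd.2 : ℂˣ) : ℂ)
      map_one' := by
        rw [AddMonoidAlgebra.one_def]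
        simp only [toAdd_one, Prod.fst_zero, Prod.snd_zero, zpow_zero, Units.val_one]
      map_mul' := fun v w => by
        rw [single_mul_single, ← Units.val_mul, ← zpow_add]
        rfl }).toRingHom

/-- Convolution. -/
def cv {K : Type*} [CommRing K] (F : AddMonoidAlgebra K V) (u : V → K) (z : V) : K :=
  F.coeff.sum fun w c => c * u (z - w)

/-- The unit square. -/
def sq : Set V := {z | (0 ≤ z.1 ∧ z.1 ≤ 1) ∧ (0 ≤ z.2 ∧ z.2 ≤ 1)}

/-- The isometry `z ↦ g z + c`. -/
def mv (g : SP) (c : V) (z : V) : V := act g z + c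

/-- The point `z` does not lie on the lines defined by `S`. -/
def Off (S : Finset ℝ) (z : V) : Prop := z.1 ∉ S ∧ z.2 ∉ S

open Classical in
/-- The indicator function of `U` with values in `K`. -/
def ind (K : Type*) [CommRing K] (U : Set V) (z : V) : K := if z ∈ U then 1 else 0

/-- `u` and `v` agree on an open dense set. -/
def Gen {K : Type*} (u v : V → K) : Prop := ∃ O : Set V, IsOpen O ∧ Dense O ∧ ∀ z ∈ O, u z = v z

/-- A dissection of the unit square into the closures of `p` images of `U`. -/
structure IsTil (p : ℕ) (U : Set V) (g : Fin p → SP) (c : Fin p → V) : Prop where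
  opn : IsOpen U
  reg : interior (closure U) ⊆ U
  conn : IsConnected U
  disj : ∀ i j, i ≠ j → Disjoint (mv (g i) (c i) '' U) (mv (g j) (c j) '' U)
  cover : ⋃ i, mv (g i) (c i) '' closure U = sq

/-- The hypothesis on the linear parts: no two of them differ by a quarter turn, or `p` does not divide the
determinant of their sum. -/
def Hyp (p : ℕ) (g : Fin p → SP) : Prop :=
  (∀ i j, ((g i)⁻¹ * g j).w = true → ((g i)⁻¹ * g j).s = ((g i)⁻¹ * g j).t) ∨
    ¬ (p : ℤ) ∣ (∑ i, mat (g i)).det

/-! ### Basic facts -/

@[simp] theorem act_one {M : Type*} [AddCommGroup M] (z : M × M) : act 1 z = z := by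
  simp [act]

theorem act_mul {M : Type*} [AddCommGroup M] (g h : SP) (z : M × M) : act (g * h) z = act g (act h z) := by
  cases h1 : g.w <;> cases h2 : h.w <;> simp [act, h1, h2, mul_smul]

@[simp] theorem act_inv_act {M : Type*} [AddCommGroup M] (g : SP) (z : M × M) : act g⁻¹ (act g z) = z := by
  rw [← act_mul, inv_mul_cancel, act_one]

@[simp] theorem act_act_inv {M : Type*} [AddCommGroup M] (g : SP) (z : M × M) : act g (act g⁻¹ z) = z := by
  rw [← act_mul, mul_inv_cancel, act_one]

theorem chi_mul (g h : SP) : chi (g * h) = chi g * chi h := by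
  cases h1 : g.w <;> simp [chi, h1] <;> ring

@[simp] theorem chi_one : chi 1 = 1 := by simp [chi]

theorem chi_sq (g : SP) : chi g * chi g = 1 := by
  have h1 : (g.s : ℤ) * g.s = 1 := by rw [← Units.val_mul, Int.units_mul_self, Units.val_one]
  have h2 : (g.t : ℤ) * g.t = 1 := by rw [← Units.val_mul, Int.units_mul_self, Units.val_one]
  unfold chi
  linear_combination (g.t : ℤ) * g.t * h1 + h2

theorem mat_mul (g h : SP) : mat (g * h) = mat g * mat h := by
  cases h1 : g.w <;> cases h2 : h.w <;> simp [mat, h1, h2]

@[simp] theorem sig_single (K : Type*) [CommRing K] {M : Type*} [AddCommGroup M] (g : SP) (w : M × M) (a : K) :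
    sig K g (single w a) = single (act g w) a := by
  simp [sig]

theorem sig_mul (K : Type*) [CommRing K] {M : Type*} [AddCommGroup M] (g h : SP)
    (F : AddMonoidAlgebra K (M × M)) : sig K (g * h) F = sig K g (sig K h F) := by
  induction F using AddMonoidAlgebra.induction_linear with
  | zero => simp
  | add x y hx hy => rw [map_add, map_add, map_add, hx, hy]
  | single w a => rw [sig_single, sig_single, sig_single, act_mul]

@[simp] theorem sig_one (K : Type*) [CommRing K] {M : Type*} [AddCommGroup M]
    (F : AddMonoidAlgebra K (M × M)) : sig K 1 F = F := by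
  induction F using AddMonoidAlgebra.induction_linear with
  | zero => simp
  | add x y hx hy => rw [map_add, hx, hy]
  | single w a => rw [sig_single, act_one]

@[simp] theorem aug_single (K : Type*) [CommRing K] {M : Type*} [AddCommGroup M] (w : M) (a : K) :
    aug K (single w a) = a := by
  simp [aug, AddMonoidAlgebra.lift_single]

@[simp] theorem evx_single (ζ : ℂˣ) (w : ℤ × ℤ) (a : ℤ) :
    evx ζ (single w a) = single w.2 ((a : ℂ) * ((ζ ^ w.1 : ℂˣ) : ℂ)) := by
  have h1 : evx ζ (single w a) = a • (single w.2 ((ζ ^ w.1 : ℂˣ) : ℂ) : AddMonoidAlgebra ℂ ℤ) :=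
    AddMonoidAlgebra.lift_single _ _ _
  rw [h1, ← zsmul_eq_mul]
  exact smul_single a w.2 _

@[simp] theorem evy_single (ζ : ℂˣ) (w : ℤ × ℤ) (a : ℤ) :
    evy ζ (single w a) = single w.1 ((a : ℂ) * ((ζ ^ w.2 : ℂˣ) : ℂ)) := by
  have h1 : evy ζ (single w a) = a • (single w.1 ((ζ ^ w.2 : ℂˣ) : ℂ) : AddMonoidAlgebra ℂ ℤ) :=
    AddMonoidAlgebra.lift_single _ _ _
  rw [h1, ← zsmul_eq_mul]
  exact smul_single a w.1 _

theorem mv_mul (g h : SP) (c d z : V) : mv g c (mv h d z) = mv (g * h) (act g d + c) z := by
  unfold mv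
  rw [map_add, act_mul, add_assoc]

theorem mv_inv_mv (g : SP) (c z : V) : mv g⁻¹ (-(act g⁻¹ c)) (mv g c z) = z := by
  unfold mv
  rw [map_add, act_inv_act]
  abel

theorem mv_mv_inv (g : SP) (c z : V) : mv g c (mv g⁻¹ (-(act g⁻¹ c)) z) = z := by
  unfold mv
  rw [map_add, map_neg, act_act_inv, act_act_inv]
  abel

theorem continuous_act (g : SP) : Continuous (act g : V → V) := by
  have h1 : Continuous fun z : V => ((g.s : ℤ) • (if g.w then z.2 else z.1),
      (g.t : ℤ) • (if g.w then z.1 else z.2)) := by
    cases h : g.w <;> simp only [Bool.false_eq_true, if_false, if_true] <;> fun_prop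
  exact h1

theorem continuous_mv (g : SP) (c : V) : Continuous (mv g c) := by
  unfold mv
  exact (continuous_act g).add continuous_const

/-- `mv g c` as a homeomorphism. -/
def mvH (g : SP) (c : V) : V ≃ₜ V where
  toFun := mv g c
  invFun := mv g⁻¹ (-(act g⁻¹ c))
  left_inv := mv_inv_mv g c
  right_inv := mv_mv_inv g c
  continuous_toFun := continuous_mv g c
  continuous_invFun := continuous_mv _ _

theorem mem_mv_image (g : SP) (c : V) (U : Set V) (z : V) : z ∈ mv g c '' U ↔ act g⁻¹ (z - c) ∈ U := by
  have h1 : mv g⁻¹ (-(act g⁻¹ c)) z = act g⁻¹ (z - c) := by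
    unfold mv
    rw [map_sub, sub_eq_add_neg]
  constructor
  · rintro ⟨u, hu, rfl⟩
    rw [← h1, mv_inv_mv]
    exact hu
  · intro h
    exact ⟨_, h, by rw [← h1, mv_mv_inv]⟩

/-! ### `Phi` and `cv` -/

section
variable {K : Type*} [CommRing K]

@[simp] theorem Phi_zero (z : V) : Phi (0 : AddMonoidAlgebra K V) z = 0 := by
  simp [Phi]

theorem Phi_single (w : V) (a : K) (z : V) :
    Phi (single w a) z = if w.1 ≤ z.1 ∧ w.2 ≤ z.2 then a else 0 := by
  unfold Phi
  rw [coeff_single, Finsupp.sum_single_index]
  simp

theorem Phi_add (F G : AddMonoidAlgebra K V) (z : V) : Phi (F + G) z = Phi F z + Phi G z := by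
  unfold Phi
  rw [coeff_add, Finsupp.sum_add_index']
  · intro a
    simp
  · intro a b c
    split <;> simp

theorem Phi_neg (F : AddMonoidAlgebra K V) (z : V) : Phi (-F) z = -Phi F z := by
  have h1 := Phi_add F (-F) z
  rw [add_neg_cancel, Phi_zero] at h1
  exact (neg_eq_of_add_eq_zero_right h1.symm).symm

theorem Phi_sub (F G : AddMonoidAlgebra K V) (z : V) : Phi (F - G) z = Phi F z - Phi G z := by
  rw [sub_eq_add_neg, Phi_add, Phi_neg, sub_eq_add_neg]

theorem Phi_sum {ι : Type*} (s : Finset ι) (F : ι → AddMonoidAlgebra K V) (z : V) :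
    Phi (∑ i ∈ s, F i) z = ∑ i ∈ s, Phi (F i) z := by
  classical
  induction s using Finset.induction_on with
  | empty => simp
  | insert a s ha ih => rw [Finset.sum_insert ha, Finset.sum_insert ha, Phi_add, ih]

theorem Phi_zsmul (n : ℤ) (F : AddMonoidAlgebra K V) (z : V) : Phi (n • F) z = n • Phi F z := by
  induction n using Int.induction_on with
  | zero => simp
  | succ n ih => rw [add_smul, add_smul, Phi_add, ih, one_smul, one_smul]
  | pred n ih => rw [sub_smul, sub_smul, Phi_sub, ih, one_smul, one_smul]

@[simp] theorem cv_zero_left (u : V → K) (z : V) : cv (0 : AddMonoidAlgebra K V) u z = 0 := by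
  simp [cv]

@[simp] theorem cv_single (w : V) (a : K) (u : V → K) (z : V) : cv (single w a) u z = a * u (z - w) := by
  unfold cv
  rw [coeff_single, Finsupp.sum_single_index]
  simp

theorem cv_add_left (F G : AddMonoidAlgebra K V) (u : V → K) (z : V) :
    cv (F + G) u z = cv F u z + cv G u z := by
  unfold cv
  rw [coeff_add, Finsupp.sum_add_index']
  · intro a
    simp
  · intro a b c
    ring

theorem cv_sum_left {ι : Type*} (s : Finset ι) (F : ι → AddMonoidAlgebra K V) (u : V → K) (z : V) :
    cv (∑ i ∈ s, F i) u z = ∑ i ∈ s, cv (F i) u z := by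
  classical
  induction s using Finset.induction_on with
  | empty => simp
  | insert a s ha ih => rw [Finset.sum_insert ha, Finset.sum_insert ha, cv_add_left, ih]

theorem cv_add_right (F : AddMonoidAlgebra K V) (u v : V → K) (z : V) :
    cv F (fun y => u y + v y) z = cv F u z + cv F v z := by
  unfold cv
  rw [← Finsupp.sum_add]
  refine Finsupp.sum_congr fun w _ => ?_
  ring

theorem cv_sum_right {ι : Type*} (s : Finset ι) (F : AddMonoidAlgebra K V) (u : ι → V → K) (z : V) :
    cv F (fun y => ∑ i ∈ s, u i y) z = ∑ i ∈ s, cv F (u i) z := by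
  classical
  induction s using Finset.induction_on with
  | empty => simp [cv]
  | insert a s ha ih =>
    rw [Finset.sum_insert ha, ← ih, ← cv_add_right]
    congr 1
    funext y
    rw [Finset.sum_insert ha]

theorem cv_mul (F G : AddMonoidAlgebra K V) (u : V → K) (z : V) : cv (F * G) u z = cv F (cv G u) z := by
  induction F using AddMonoidAlgebra.induction_linear with
  | zero => simp
  | add x y hx hy => rw [add_mul, cv_add_left, cv_add_left, hx, hy]
  | single w a =>
    induction G using AddMonoidAlgebra.induction_linear with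
    | zero => simp [cv]
    | add x y hx hy =>
      rw [mul_add, cv_add_left, hx, hy, ← cv_add_right]
      congr 1
      funext y'
      rw [cv_add_left]
    | single v b =>
      rw [single_mul_single, cv_single, cv_single, cv_single, mul_assoc, sub_sub]

theorem cv_Phi (F G : AddMonoidAlgebra K V) (z : V) : cv F (Phi G) z = Phi (F * G) z := by
  induction F using AddMonoidAlgebra.induction_linear with
  | zero => simp
  | add x y hx hy => rw [add_mul, cv_add_left, Phi_add, hx, hy]
  | single w a =>
    rw [cv_single]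
    induction G using AddMonoidAlgebra.induction_linear with
    | zero => simp
    | add x y hx hy => rw [mul_add, Phi_add, Phi_add, mul_add, hx, hy]
    | single v b =>
      rw [single_mul_single, Phi_single, Phi_single]
      simp only [Prod.fst_sub, Prod.snd_sub, Prod.fst_add, Prod.snd_add, le_sub_iff_add_le', mul_ite, mul_zero]

end

end Pool.Agent.SQR
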