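import Pool.Agent.SQR.GenL

/-!
# SQR module DSP: the group determinant of the group of signed permutations

PROOF. (The formula is checked numerically.)  Let `P : Matrix SP (Fin 4 ⊕ (Fin 2 × Fin 2)) ℤ` be the matrix whose
columns are the functions `1, cD, chi, cD * chi` and, for `(i, j)`, `g ↦ mat g i j`.  With
`M h k = N (h⁻¹ * k)`, for every function `f` on `SP`, `(M f)(h) = ∑ k, N (h⁻¹ * k) * f k = ∑ g, N g * f (h * g)`
(`Fintype.sum_equiv` with `Equiv.mulLeft`).  The four characters are multiplicative (`chi_mul`; for `cD` check the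
cases), so they are eigenvectors with eigenvalues `∑ g, N g * f g`; and `mat (h * g) i j = ∑ l, mat h i l * mat g l j`
(`mat_mul`), so `M` maps the column `(i, j)` to `∑ l, R l j • column (i, l)` with `R = ∑ g, N g • mat g`.
Hence `M * P = P * B` with `B = fromBlocks (diagonal ..) 0 0 (Bᵢ)`, where
`Bᵢ (i, l) (i', j) = if i = i' then R l j else 0` (a block diagonal matrix, e.g. `Matrix.blockDiagonal` or
`kronecker`, or reindexed), of determinant `R.det ^ 2`.  Finally `Pᵀ * P` is the diagonal matrix with entries
`8, 8, 8, 8, 4, 4, 4, 4` (`decide` or `Fintype` evaluation), so `Pᵀ * M * P = (Pᵀ * P) * B`; choose an equivalence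
`e : SP ≃ Fin 4 ⊕ (Fin 2 × Fin 2)` (both have 8 elements, `Fintype.equivOfCardEq`) and reindex to get square
matrices: `det (P') ^ 2 * det M = 8 ^ 4 * 4 ^ 4 * det B` and `det (P') ^ 2 = 8 ^ 4 * 4 ^ 4 ≠ 0`.

Any other proof (e.g. an explicit enumeration of `SP` by `Fin 8` and explicit matrices) is welcome.
-/

set_option autoImplicit false

open AddMonoidAlgebra

namespace Pool.Agent.SQR

/-- The character which is `-1` exactly on the elements exchanging the axes. -/
def cD (g : SP) : ℤ := if g.w then -1 else 1

/-- the index set of the columns -/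
private abbrev Ix : Type := Fin 4 ⊕ (Fin 2 × Fin 2)

/-- the four characters -/
private def ff : Fin 4 → SP → ℤ := ![fun _ => 1, cD, chi, fun g => cD g * chi g]

/-- the matrix of the columns -/
private def PP : Matrix SP Ix ℤ := Matrix.of fun g x => Sum.elim (fun a => ff a g) (fun q => mat g q.2 q.1) x

private theorem cD_mul (g h : SP) : cD (g * h) = cD g * cD h := by
  cases h1 : g.w <;> cases h2 : h.w <;> simp [cD, h1, h2]

private theorem ff_mul (a : Fin 4) (g h : SP) : ff a (g * h) = ff a g * ff a h := by
  fin_cases a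
  · simp [ff]
  · exact cD_mul g h
  · exact chi_mul g h
  · show cD (g * h) * chi (g * h) = cD g * chi g * (cD h * chi h)
    rw [cD_mul, chi_mul]
    ring

private theorem gram (x y : Ix) : ∑ g : SP, PP g x * PP g y = if x = y then (Sum.elim (fun _ => 8) (fun _ => 4) x : ℤ) else 0 := by
  revert x y
  decide +kernel

private theorem sum_shift (N : SP → ℤ) (h : SP) (f : SP → ℤ) :
    ∑ k, N (h⁻¹ * k) * f k = ∑ g, N g * f (h * g) := by
  refine Fintype.sum_equiv (Equiv.mulLeft h⁻¹) _ _ fun k => ?_
  simp

theorem det_sp (N : SP → ℤ) :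
    (Matrix.of fun h k : SP => N (h⁻¹ * k)).det =
      (∑ g, N g) * (∑ g, cD g * N g) * (∑ g, chi g * N g) * (∑ g, cD g * chi g * N g) *
        (∑ g, N g • mat g).det ^ 2 := by
  set M : Matrix SP SP ℤ := Matrix.of fun h k : SP => N (h⁻¹ * k) with hM
  set R : Matrix (Fin 2) (Fin 2) ℤ := ∑ g, N g • mat g with hR
  set lam : Fin 4 → ℤ := fun a => ∑ g, N g * ff a g with hlam
  set B : Matrix Ix Ix ℤ := Matrix.fromBlocks (Matrix.diagonal lam) 0 0 (Matrix.blockDiagonal fun _ : Fin 2 => R) with hB
  have hMP : M * PP = PP * B := by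
    ext h x
    rcases x with a | ⟨j, i⟩
    · rw [Matrix.mul_apply, Matrix.mul_apply, Fintype.sum_sum_type]
      have e1 : ∑ k, M h k * PP k (Sum.inl a) = ∑ k, N (h⁻¹ * k) * ff a k := rfl
      rw [e1, sum_shift]
      have e2 : ∑ q : Fin 2 × Fin 2, PP h (Sum.inr q) * B (Sum.inr q) (Sum.inl a) = 0 :=
        Finset.sum_eq_zero fun q _ => by simp [hB]
      rw [e2, add_zero, Finset.sum_eq_single a]
      · have e3 : PP h (Sum.inl a) = ff a h := rfl
        have e4 : B (Sum.inl a) (Sum.inl a) = lam a := by simp [hB]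
        rw [e3, e4, hlam, Finset.mul_sum]
        refine Finset.sum_congr rfl fun g _ => ?_
        rw [ff_mul]
        ring
      · intro b _ hb
        have e4 : B (Sum.inl b) (Sum.inl a) = 0 := by simp [hB, hb]
        rw [e4, mul_zero]
      · intro h3
        exact absurd (Finset.mem_univ a) h3
    · rw [Matrix.mul_apply, Matrix.mul_apply, Fintype.sum_sum_type]
      have e1 : ∑ k, M h k * PP k (Sum.inr (j, i)) = ∑ k, N (h⁻¹ * k) * mat k i j := rfl
      rw [e1, sum_shift]
      have e2 : ∑ b : Fin 4, PP h (Sum.inl b) * B (Sum.inl b) (Sum.inr (j, i)) = 0 :=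
        Finset.sum_eq_zero fun q _ => by simp [hB]
      rw [e2, zero_add, Fintype.sum_prod_type]
      have e3 : ∀ l i' : Fin 2, PP h (Sum.inr (l, i')) * B (Sum.inr (l, i')) (Sum.inr (j, i))
          = if i' = i then mat h i' l * R l j else 0 := by
        intro l i'
        have e4 : PP h (Sum.inr (l, i')) = mat h i' l := rfl
        have e5 : B (Sum.inr (l, i')) (Sum.inr (j, i)) = if i' = i then R l j else 0 := by
          simp [hB, Matrix.blockDiagonal_apply]
        rw [e4, e5]
        split_ifs <;> simp
      simp only [e3, Finset.sum_ite_eq', Finset.mem_univ, if_true]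
      have e6 : ∀ g : SP, mat (h * g) i j = ∑ l, mat h i l * mat g l j := by
        intro g
        rw [mat_mul, Matrix.mul_apply]
      simp only [e6, hR, Matrix.sum_apply, Matrix.smul_apply, Finset.mul_sum, smul_eq_mul]
      rw [Finset.sum_comm]
      refine Finset.sum_congr rfl fun l _ => Finset.sum_congr rfl fun g _ => ?_
      ring
  have hcard : Fintype.card SP = Fintype.card Ix := by decide +kernel
  set e : SP ≃ Ix := Fintype.equivOfCardEq hcard with he
  set D : Matrix Ix Ix ℤ := Matrix.diagonal (Sum.elim (fun _ => 8) (fun _ => 4)) with hD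
  have hPP : PP.transpose * PP = D := by
    ext x y
    rw [Matrix.mul_apply]
    have e1 : ∑ g : SP, PP.transpose x g * PP g y = ∑ g : SP, PP g x * PP g y := rfl
    rw [e1, gram, hD, Matrix.diagonal_apply]
  set Q : Matrix SP SP ℤ := PP.submatrix id e with hQ
  have hQQ : Q.transpose * Q = D.submatrix e e := by
    rw [← hPP, hQ]
    rfl
  have hQMQ : Q.transpose * (M * Q) = (D * B).submatrix e e := by
    have e1 : M * Q = (PP * B).submatrix id e := by
      rw [← hMP, hQ]
      rfl
    rw [e1, ← hPP, Matrix.mul_assoc, hQ]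
    rfl
  have d1 : Q.det * Q.det = D.det := by
    have := congrArg Matrix.det hQQ
    rwa [Matrix.det_mul, Matrix.det_transpose, Matrix.det_submatrix_equiv_self] at this
  have d2 : Q.det * (M.det * Q.det) = D.det * B.det := by
    have := congrArg Matrix.det hQMQ
    rwa [Matrix.det_mul, Matrix.det_mul, Matrix.det_transpose, Matrix.det_submatrix_equiv_self, Matrix.det_mul] at this
  have d3 : D.det ≠ 0 := by
    rw [hD, Matrix.det_diagonal, Fintype.prod_sum_type]
    simp
  have d4 : M.det = B.det := by
    have : D.det * M.det = D.det * B.det := by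
      rw [← d2, ← d1]
      ring
    exact mul_left_cancel₀ d3 this
  rw [d4, hB, Matrix.det_fromBlocks_zero₂₁, Matrix.det_diagonal, Matrix.det_blockDiagonal, Finset.prod_const,
    Finset.card_univ, Fintype.card_fin, Fin.prod_univ_four]
  congr 1
  have l0 : lam 0 = ∑ g, N g := by
    simp [hlam, ff]
  have l1 : lam 1 = ∑ g, cD g * N g := Finset.sum_congr rfl fun g _ => mul_comm _ _
  have l2 : lam 2 = ∑ g, chi g * N g := Finset.sum_congr rfl fun g _ => mul_comm _ _
  have l3 : lam 3 = ∑ g, cD g * chi g * N g := Finset.sum_congr rfl fun g _ => mul_comm _ _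
  rw [l0, l1, l2, l3]

end Pool.Agent.SQR
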