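import Pool.Agent.SQR.GenL

/-!
# SQR module EQV: the corner sum of the image of a bounded function

PROOF. (a) The marginals of `F` vanish: `∑_{w.2 = b} F_w = 0` for all `b`, and `∑_{w.1 = a} F_w = 0` for all `a`
(in Lean: `mapDomain Prod.snd`/`Prod.fst`, or a `Finset` sum over the filtered support).  For `z` with `z.1` larger
than `R` and than all first coordinates of the support, `Phi F z = m(z.2)` with `m(y) = ∑_{w.2 ≤ y} F_w`, and
`u z = 0` there; by `Gen.exists_mem` every nonempty open set of such `z` contains a point with `m(z.2) = 0`; `m` is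
constant on `[b, b + ε)` and on `(b - ε, b)` for small `ε`, so `m(b) = 0 = m(b-)` for every `b`, and the
difference is the marginal at `b`.  The same with the coordinates exchanged.

(b) Consequence: for `z` off the coordinates of the support, with `s, t ∈ {1, -1}`,
`∑_{s w.1 ≤ s z.1, t w.2 ≤ t z.2} F_w = s t Phi F z` (replace the condition `w.1 ≤ z.1` by its negation: the two
sums add up to `∑_{w.2 ≤ z.2} F_w = 0` by (a)).

(c) Hence `Phi (chi g • sig K g F) z = chi g * ∑_{act g w ≤ z} F_w = Phi F (act g⁻¹ z)` for all `z` off a finite set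
of coordinates: with `z' = act g⁻¹ z` the condition `act g w ≤ z` reads `s w.1 ≤ s z'.1, t w.2 ≤ t z'.2` with the
two signs of `g` (exchanged if `g.w`).  It may be convenient to treat separately `g = ⟨s, 1, false⟩`,
`⟨1, t, false⟩`, `⟨1, 1, w⟩` and to use that `g` is their product (`sig_mul`, `chi_mul`, `act_mul`; the image of a
bounded function is bounded), or to do everything at once.

(d) `Gen (Phi F) u` gives `Gen (fun z => Phi F (act g⁻¹ (z - c))) (fun z => u (act g⁻¹ (z - c)))` (`Gen.mv`), and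
`Phi (n • (single c 1 * G)) z = Phi (n • G) (z - c)` (`cv_Phi`, `cv_single`).  Conclude with `Gen.of_off`,
`Gen.trans`.
-/

set_option autoImplicit false

open AddMonoidAlgebra

namespace Pool.Agent.SQR

private theorem gap2 (S : Finset ℝ) (y : ℝ) (hy : y ∉ S) : ∃ ε : ℝ, 0 < ε ∧ ∀ b ∈ S, ε ≤ |b - y| := by
  induction S using Finset.induction_on with
  | empty => exact ⟨1, one_pos, by simp⟩
  | insert b S hb ih =>
    obtain ⟨ε, h1, h2⟩ := ih (fun h => hy (Finset.mem_insert_of_mem h))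
    have hby : 0 < |b - y| := abs_pos.2 (sub_ne_zero.2 (fun h => hy (h ▸ Finset.mem_insert_self b S)))
    refine ⟨min ε |b - y|, lt_min h1 hby, fun c hc => ?_⟩
    rcases Finset.mem_insert.1 hc with rfl | hc
    · exact min_le_right _ _
    · exact le_trans (min_le_left _ _) (h2 c hc)

private theorem big (S : Finset ℝ) (R : ℝ) : ∃ B : ℝ, R < B ∧ ∀ b ∈ S, b < B := by
  induction S using Finset.induction_on with
  | empty => exact ⟨R + 1, by linarith, by simp⟩
  | insert b S hb ih =>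
    obtain ⟨B, h1, h2⟩ := ih
    refine ⟨max B (b + 1), lt_of_lt_of_le h1 (le_max_left _ _), fun c hc => ?_⟩
    rcases Finset.mem_insert.1 hc with rfl | hc
    · exact lt_of_lt_of_le (by linarith) (le_max_right _ _)
    · exact lt_of_lt_of_le (h2 c hc) (le_max_left _ _)

private theorem same_side {b y y' ε : ℝ} (h : ε ≤ |b - y|) (h' : |y' - y| < ε) : b ≤ y' ↔ b ≤ y := by
  rw [abs_lt] at h'
  rcases le_abs.1 h with h1 | h1
  · constructor <;> intro h2 <;> linarith [h'.1, h'.2]
  · constructor <;> intro h2 <;> linarith [h'.1, h'.2]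

private theorem marg2 {K : Type*} [CommRing K] (F : AddMonoidAlgebra K V) (u : V → K) (h : Gen (Phi F) u)
    {R : ℝ} (hb : ∀ z, u z ≠ 0 → |z.1| ≤ R ∧ |z.2| ≤ R) (y : ℝ) (hy : y ∉ F.coeff.support.image Prod.snd) :
    (∑ w ∈ F.coeff.support, if w.2 ≤ y then F.coeff w else 0) = 0 := by
  obtain ⟨ε, he, hg⟩ := gap2 _ y hy
  obtain ⟨B, hB, hB2⟩ := big (F.coeff.support.image Prod.fst) R
  set U : Set V := Set.Ioi B ×ˢ Set.Ioo (y - ε) (y + ε) with hU
  have hUo : IsOpen U := isOpen_Ioi.prod isOpen_Ioo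
  have hUne : U.Nonempty := by
    refine ⟨(B + 1, y), ?_, ?_⟩
    · exact Set.mem_Ioi.2 (by simp only; linarith)
    · constructor <;> simp only <;> linarith
  obtain ⟨z, hz, -, hz3⟩ := h.exists_mem hUo hUne ∅
  have hz1 : B < z.1 := hz.1
  have hu : u z = 0 := by
    by_contra hne
    have h1 := (hb z hne).1
    have h2 := le_abs_self z.1
    linarith
  rw [hu] at hz3
  refine Eq.trans ?_ hz3
  unfold Phi Finsupp.sum
  refine Finset.sum_congr rfl fun w hw => ?_
  have h1 : w.1 ≤ z.1 := ((hB2 w.1 (Finset.mem_image_of_mem _ hw)).trans hz1).le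
  have h2 : w.2 ≤ z.2 ↔ w.2 ≤ y := by
    refine same_side (hg w.2 (Finset.mem_image_of_mem _ hw)) ?_
    rw [abs_lt]
    have h3 := hz.2.1
    have h4 := hz.2.2
    constructor <;> linarith
  simp only [h1, true_and, h2]

private theorem marg1 {K : Type*} [CommRing K] (F : AddMonoidAlgebra K V) (u : V → K) (h : Gen (Phi F) u)
    {R : ℝ} (hb : ∀ z, u z ≠ 0 → |z.1| ≤ R ∧ |z.2| ≤ R) (y : ℝ) (hy : y ∉ F.coeff.support.image Prod.fst) :
    (∑ w ∈ F.coeff.support, if w.1 ≤ y then F.coeff w else 0) = 0 := by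
  obtain ⟨ε, he, hg⟩ := gap2 _ y hy
  obtain ⟨B, hB, hB2⟩ := big (F.coeff.support.image Prod.snd) R
  set U : Set V := Set.Ioo (y - ε) (y + ε) ×ˢ Set.Ioi B with hU
  have hUo : IsOpen U := isOpen_Ioo.prod isOpen_Ioi
  have hUne : U.Nonempty := by
    refine ⟨(y, B + 1), ?_, ?_⟩
    · constructor <;> simp only <;> linarith
    · exact Set.mem_Ioi.2 (by simp only; linarith)
  obtain ⟨z, hz, -, hz3⟩ := h.exists_mem hUo hUne ∅
  have hz1 : B < z.2 := hz.2
  have hu : u z = 0 := by
    by_contra hne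
    have h1 := (hb z hne).2
    have h2 := le_abs_self z.2
    linarith
  rw [hu] at hz3
  refine Eq.trans ?_ hz3
  unfold Phi Finsupp.sum
  refine Finset.sum_congr rfl fun w hw => ?_
  have h1 : w.2 ≤ z.2 := ((hB2 w.2 (Finset.mem_image_of_mem _ hw)).trans hz1).le
  have h2 : w.1 ≤ z.1 ↔ w.1 ≤ y := by
    refine same_side (hg w.1 (Finset.mem_image_of_mem _ hw)) ?_
    rw [abs_lt]
    have h3 := hz.1.1
    have h4 := hz.1.2
    constructor <;> linarith
  simp only [h1, and_true, h2]

private theorem margT {K : Type*} [CommRing K] (F : AddMonoidAlgebra K V) (u : V → K) (h : Gen (Phi F) u)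
    {R : ℝ} (hb : ∀ z, u z ≠ 0 → |z.1| ≤ R ∧ |z.2| ≤ R) :
    (∑ w ∈ F.coeff.support, F.coeff w) = 0 := by
  obtain ⟨B, hB, hB2⟩ := big (F.coeff.support.image Prod.fst) R
  have h1 := marg1 F u h hb B (fun hm => lt_irrefl _ (hB2 B hm))
  rw [← h1]
  refine Finset.sum_congr rfl fun w hw => ?_
  rw [if_pos (hB2 w.1 (Finset.mem_image_of_mem _ hw)).le]

/-- the sum over a quadrant with signs -/
private noncomputable def RR {K : Type*} [CommRing K] (a b : ℤˣ) (F : AddMonoidAlgebra K V) (z : V) : K :=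
  F.coeff.sum fun w c => if (a : ℤ) • w.1 ≤ (a : ℤ) • z.1 ∧ (b : ℤ) • w.2 ≤ (b : ℤ) • z.2 then c else 0

private theorem RR_eq {K : Type*} [CommRing K] (F : AddMonoidAlgebra K V) (u : V → K) (h : Gen (Phi F) u)
    {R : ℝ} (hb : ∀ z, u z ≠ 0 → |z.1| ≤ R ∧ |z.2| ≤ R) (a b : ℤˣ) (z : V)
    (hz : Off (F.coeff.support.image Prod.fst ∪ F.coeff.support.image Prod.snd) z) :
    RR a b F z = ((a : ℤ) * (b : ℤ)) • Phi F z := by
  have hz1 : z.1 ∉ F.coeff.support.image Prod.fst := fun hm => hz.1 (Finset.mem_union_left _ hm)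
  have hz2 : z.2 ∉ F.coeff.support.image Prod.snd := fun hm => hz.2 (Finset.mem_union_right _ hm)
  have m1 := marg1 F u h hb z.1 hz1
  have m2 := marg2 F u h hb z.2 hz2
  have m0 := margT F u h hb
  have c1 : ∀ w ∈ F.coeff.support, (z.1 ≤ w.1 ↔ ¬ w.1 ≤ z.1) := by
    intro w hw
    rw [not_le]
    constructor
    · intro h1
      refine lt_of_le_of_ne h1 fun h2 => hz1 ?_
      rw [h2]
      exact Finset.mem_image_of_mem _ hw
    · exact le_of_lt
  have c2 : ∀ w ∈ F.coeff.support, (z.2 ≤ w.2 ↔ ¬ w.2 ≤ z.2) := by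
    intro w hw
    rw [not_le]
    constructor
    · intro h1
      refine lt_of_le_of_ne h1 fun h2 => hz2 ?_
      rw [h2]
      exact Finset.mem_image_of_mem _ hw
    · exact le_of_lt
  have hP : Phi F z = ∑ w ∈ F.coeff.support, if w.1 ≤ z.1 ∧ w.2 ≤ z.2 then F.coeff w else 0 := rfl
  have hR : RR a b F z = ∑ w ∈ F.coeff.support,
      if (a : ℤ) • w.1 ≤ (a : ℤ) • z.1 ∧ (b : ℤ) • w.2 ≤ (b : ℤ) • z.2 then F.coeff w else 0 := rfl
  rw [hR, hP]
  rcases Int.units_eq_one_or a with rfl | rfl <;> rcases Int.units_eq_one_or b with rfl | rfl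
  · simp
  · simp only [Units.val_one, Units.val_neg, one_smul, neg_smul, neg_le_neg_iff, mul_neg, mul_one]
    have e : (∑ w ∈ F.coeff.support, if w.1 ≤ z.1 ∧ z.2 ≤ w.2 then F.coeff w else 0)
        = ∑ w ∈ F.coeff.support, ((if w.1 ≤ z.1 then F.coeff w else 0)
          - (if w.1 ≤ z.1 ∧ w.2 ≤ z.2 then F.coeff w else 0)) := by
      refine Finset.sum_congr rfl fun w hw => ?_
      have q2 := c2 w hw
      by_cases p1 : w.1 ≤ z.1 <;> by_cases p2 : w.2 ≤ z.2 <;> simp [p1, p2, q2]
    rw [e, Finset.sum_sub_distrib, m1, zero_sub]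
  · simp only [Units.val_one, Units.val_neg, one_smul, neg_smul, neg_le_neg_iff, mul_one]
    have e : (∑ w ∈ F.coeff.support, if z.1 ≤ w.1 ∧ w.2 ≤ z.2 then F.coeff w else 0)
        = ∑ w ∈ F.coeff.support, ((if w.2 ≤ z.2 then F.coeff w else 0)
          - (if w.1 ≤ z.1 ∧ w.2 ≤ z.2 then F.coeff w else 0)) := by
      refine Finset.sum_congr rfl fun w hw => ?_
      have q1 := c1 w hw
      by_cases p1 : w.1 ≤ z.1 <;> by_cases p2 : w.2 ≤ z.2 <;> simp [p1, p2, q1]
    rw [e, Finset.sum_sub_distrib, m2, zero_sub]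
  · simp only [Units.val_one, Units.val_neg, one_smul, neg_smul, neg_le_neg_iff, mul_neg, mul_one, neg_neg]
    have e : (∑ w ∈ F.coeff.support, if z.1 ≤ w.1 ∧ z.2 ≤ w.2 then F.coeff w else 0)
        = ∑ w ∈ F.coeff.support, ((F.coeff w - (if w.1 ≤ z.1 then F.coeff w else 0))
          - ((if w.2 ≤ z.2 then F.coeff w else 0) - (if w.1 ≤ z.1 ∧ w.2 ≤ z.2 then F.coeff w else 0))) := by
      refine Finset.sum_congr rfl fun w hw => ?_
      have q1 := c1 w hw
      have q2 := c2 w hw
      by_cases p1 : w.1 ≤ z.1 <;> by_cases p2 : w.2 ≤ z.2 <;> simp [p1, p2, q1, q2]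
    rw [e, Finset.sum_sub_distrib, Finset.sum_sub_distrib, Finset.sum_sub_distrib, m0, m1, m2]
    ring

private theorem RR_single {K : Type*} [CommRing K] (a b : ℤˣ) (w : V) (k : K) (z : V) :
    RR a b (single w k) z = if (a : ℤ) • w.1 ≤ (a : ℤ) • z.1 ∧ (b : ℤ) • w.2 ≤ (b : ℤ) • z.2 then k else 0 := by
  unfold RR
  rw [coeff_single, Finsupp.sum_single_index]
  simp

private theorem RR_add {K : Type*} [CommRing K] (a b : ℤˣ) (F G : AddMonoidAlgebra K V) (z : V) :
    RR a b (F + G) z = RR a b F z + RR a b G z := by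
  unfold RR
  rw [coeff_add, Finsupp.sum_add_index']
  · intro a
    simp
  · intro a b c
    split <;> simp

private theorem Phi_sig {K : Type*} [CommRing K] (g : SP) (F : AddMonoidAlgebra K V) (z : V) :
    Phi (sig K g F) (act g z) = RR (if g.w then g.t else g.s) (if g.w then g.s else g.t) F z := by
  induction F using AddMonoidAlgebra.induction_linear with
  | zero =>
    rw [map_zero, Phi_zero]
    unfold RR
    simp
  | add x y hx hy => rw [map_add, Phi_add, RR_add, hx, hy]
  | single w k =>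
    rw [sig_single, Phi_single, RR_single]
    cases h : g.w
    · simp [act, h]
    · simp [act, h, and_comm]

theorem gen_mv {K : Type*} [CommRing K] (F : AddMonoidAlgebra K V) (u : V → K) (h : Gen (Phi F) u)
    (hb : ∃ R : ℝ, ∀ z, u z ≠ 0 → |z.1| ≤ R ∧ |z.2| ≤ R) (g : SP) (c : V) :
    Gen (Phi (chi g • (single c (1 : K) * sig K g F))) (fun z => u (act g⁻¹ (z - c))) := by
  obtain ⟨R, hR⟩ := hb
  have h1 : Gen (fun z => Phi (chi g • sig K g F) (act g z)) (Phi F) := by
    refine Gen.of_off (F.coeff.support.image Prod.fst ∪ F.coeff.support.image Prod.snd) fun z hz => ?_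
    rw [Phi_zsmul, Phi_sig, RR_eq F u h hR _ _ z hz, smul_smul]
    have h2 : chi g * (((if g.w then g.t else g.s : ℤˣ) : ℤ) * ((if g.w then g.s else g.t : ℤˣ) : ℤ)) = 1 := by
      have h3 := chi_sq g
      unfold chi at h3 ⊢
      cases hw : g.w
      · simpa using h3
      · simp only [if_true]
        linear_combination h3
    rw [h2, one_smul]
  have h2 := (h1.mv g c).trans (h.mv g c)
  refine (Gen.of_eq fun z => ?_).trans h2
  simp only [act_act_inv]
  rw [Phi_zsmul, Phi_zsmul, ← cv_Phi, cv_single, one_mul]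

end Pool.Agent.SQR
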