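import Pool.Agent.SQR.GenL

/-!
# SQR module EXT: isolating one term of the equation

PROOF. Choose `v0` with `D.coeff v0 ≠ 0`.  For `k : ℕ`, `D ^ (2 ^ k)` has the coefficient `D.coeff v` at
`2 ^ k • v` and no others: by `sum_pow_char_pow` (or `add_pow_char_pow`, induction) for the ring
`AddMonoidAlgebra (ZMod 2) V` of characteristic 2 (`CharP` instance: derive it from `AddMonoidAlgebra`/`ZMod.algebra`
or prove the formula by `induction_linear`), `D ^ (2 ^ k) = ∑ v ∈ D.support, single (2 ^ k • v) (D.coeff v)`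
(`single_pow`; `a ^ (2 ^ k) = a` in `ZMod 2`).  Choose `k` so large that for `v ≠ v0` in the support
`2 ^ k * |v.1 - v0.1| > 1` or `2 ^ k * |v.2 - v0.2| > 1`.
From `Gen (cv D u) (Phi W)`, `Gen.cv` with `D ^ (2 ^ k - 1)`, `cv_mul` and `cv_Phi`:
`Gen (cv (D ^ (2 ^ k)) u) (Phi (D ^ (2 ^ k - 1) * W))`.  Translate by `2 ^ k • v0`: generically in `z`,
`∑ v ∈ D.support, D.coeff v * u (z - 2 ^ k • (v - v0)) = Phi W' (z + 2 ^ k • v0)`.
For `z ∈ sq` and `v ≠ v0` the point `z - 2 ^ k • (v - v0)` is not in `sq` (one coordinate moves by more than `1`),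
so `u` vanishes there; and `D.coeff v0 = 1` (it is nonzero in `ZMod 2`).  So `u z = Phi F z` with
`F = single (-(2 ^ k • v0)) 1 * W'` (`cv_Phi`, `cv_single`).
-/

set_option autoImplicit false

open AddMonoidAlgebra

namespace Pool.Agent.SQR

private theorem add_self_zero (x : AddMonoidAlgebra (ZMod 2) V) : x + x = 0 := by
  rw [← two_smul (ZMod 2) x, (by decide : (2 : ZMod 2) = 0), zero_smul]

private theorem sq_add (x y : AddMonoidAlgebra (ZMod 2) V) : (x + y) ^ 2 = x ^ 2 + y ^ 2 := by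
  have h : (x + y) ^ 2 = x ^ 2 + y ^ 2 + (x * y + x * y) := by ring
  rw [h, add_self_zero, add_zero]

private theorem frob_add (k : ℕ) (x y : AddMonoidAlgebra (ZMod 2) V) :
    (x + y) ^ (2 ^ k) = x ^ (2 ^ k) + y ^ (2 ^ k) := by
  induction k with
  | zero => simp
  | succ k ih => rw [pow_succ 2 k, pow_mul, pow_mul, pow_mul, ih, sq_add]

private theorem pow_two_zmod (k : ℕ) (a : ZMod 2) : a ^ (2 ^ k) = a := by
  induction k with
  | zero => simp
  | succ k ih =>
    rw [pow_succ 2 k, pow_mul, ih]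
    clear ih
    revert a
    decide

private theorem cv_frob (k : ℕ) (D : AddMonoidAlgebra (ZMod 2) V) (u : V → ZMod 2) (z : V) :
    cv (D ^ (2 ^ k)) u z = D.coeff.sum fun v c => c * u (z - (2 ^ k) • v) := by
  induction D using AddMonoidAlgebra.induction_linear with
  | zero =>
    rw [zero_pow (by positivity), cv_zero_left]
    simp
  | add x y hx hy =>
    rw [frob_add, cv_add_left, hx, hy, coeff_add, Finsupp.sum_add_index']
    · intro a
      simp
    · intro a b c
      ring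
  | single w a =>
    rw [single_pow, cv_single, coeff_single, Finsupp.sum_single_index, pow_two_zmod]
    simp

private theorem large (D : AddMonoidAlgebra (ZMod 2) V) (v0 : V) : ∃ k : ℕ, ∀ v ∈ D.coeff.support, v ≠ v0 →
    1 < (2 : ℝ) ^ k * |v.1 - v0.1| ∨ 1 < (2 : ℝ) ^ k * |v.2 - v0.2| := by
  classical
  have h1 : ∀ v : V, ∃ k : ℕ, v ≠ v0 → ∀ k' ≥ k, 1 < (2 : ℝ) ^ k' * |v.1 - v0.1| ∨ 1 < (2 : ℝ) ^ k' * |v.2 - v0.2| := by
    intro v
    by_cases hv : v = v0
    · exact ⟨0, fun h => absurd hv h⟩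
    · have key : ∀ d : ℝ, 0 < d → ∃ k : ℕ, ∀ k' ≥ k, 1 < (2 : ℝ) ^ k' * d := by
        intro d hd
        obtain ⟨k, hk⟩ := pow_unbounded_of_one_lt (1 / d) (one_lt_two : (1 : ℝ) < 2)
        refine ⟨k, fun k' hk' => ?_⟩
        rw [div_lt_iff₀ hd] at hk
        exact hk.trans_le (mul_le_mul_of_nonneg_right (pow_le_pow_right₀ one_le_two hk') hd.le)
      by_cases h2 : v.1 = v0.1
      · have h3 : v.2 ≠ v0.2 := fun h3 => hv (Prod.ext h2 h3)
        obtain ⟨k, hk⟩ := key |v.2 - v0.2| (abs_pos.2 (sub_ne_zero.2 h3))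
        exact ⟨k, fun _ k' hk' => Or.inr (hk k' hk')⟩
      · obtain ⟨k, hk⟩ := key |v.1 - v0.1| (abs_pos.2 (sub_ne_zero.2 h2))
        exact ⟨k, fun _ k' hk' => Or.inl (hk k' hk')⟩
  choose kk hkk using h1
  exact ⟨D.coeff.support.sup kk, fun v hv hne => hkk v hne _ (Finset.le_sup hv)⟩

theorem ext (D W : AddMonoidAlgebra (ZMod 2) V) (hD : D ≠ 0) (u : V → ZMod 2) (hu : ∀ z, z ∉ sq → u z = 0)
    (h : Gen (cv D u) (Phi W)) :
    ∃ (F : AddMonoidAlgebra (ZMod 2) V) (O : Set V), IsOpen O ∧ Dense O ∧ ∀ z ∈ O, z ∈ sq → u z = Phi F z := by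
  classical
  obtain ⟨v0, hv0⟩ : ∃ v0, D.coeff v0 ≠ 0 := by
    by_contra hc
    push Not at hc
    apply hD
    ext v
    rw [hc v]
    simp
  obtain ⟨k, hk⟩ := large D v0
  have hpow : D ^ (2 ^ k) = D ^ (2 ^ k - 1) * D := (pow_sub_one_mul (by positivity) D).symm
  have h1 : Gen (cv (D ^ (2 ^ k)) u) (Phi (D ^ (2 ^ k - 1) * W)) := by
    refine (Gen.of_eq fun z => ?_).trans ((h.cv (D ^ (2 ^ k - 1))).trans (Gen.of_eq fun z => ?_))
    · rw [hpow, cv_mul]
    · rw [cv_Phi]
  obtain ⟨O, hO, hd, hz⟩ := h1.translate (-((2 ^ k) • v0))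
  refine ⟨single (-((2 ^ k) • v0)) 1 * (D ^ (2 ^ k - 1) * W), O, hO, hd, fun z hzO hzs => ?_⟩
  have h2 := hz z hzO
  simp only [cv_frob] at h2
  have h3 : (D.coeff.sum fun v c => c * u (z - -((2 ^ k) • v0) - (2 ^ k) • v)) = u z := by
    unfold Finsupp.sum
    rw [Finset.sum_eq_single v0]
    · have e1 : D.coeff v0 = 1 := by
        generalize D.coeff v0 = a at hv0
        revert a
        decide
      show D.coeff v0 * u (z - -((2 ^ k) • v0) - (2 ^ k) • v0) = u z
      rw [e1, one_mul]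
      congr 1
      abel
    · intro v hv hne
      show D.coeff v * u (z - -((2 ^ k) • v0) - (2 ^ k) • v) = 0
      rw [hu, mul_zero]
      intro hmem
      have m1 := hmem.1
      have m2 := hmem.2
      simp only [Prod.fst_sub, Prod.snd_sub, Prod.fst_neg, Prod.snd_neg, Prod.smul_fst, Prod.smul_snd] at m1 m2
      simp only [nsmul_eq_mul, Nat.cast_pow, Nat.cast_ofNat] at m1 m2
      have z1 := hzs.1
      have z2 := hzs.2
      have hp : (0 : ℝ) < 2 ^ k := by positivity
      rcases hk v hv hne with h4 | h4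
      · have h5 : (2 : ℝ) ^ k * |v.1 - v0.1| = |2 ^ k * (v.1 - v0.1)| := by rw [abs_mul, abs_of_pos hp]
        rw [h5] at h4
        have h6 : |2 ^ k * (v.1 - v0.1)| ≤ 1 := by
          rw [abs_le]
          constructor <;> nlinarith
        linarith
      · have h5 : (2 : ℝ) ^ k * |v.2 - v0.2| = |2 ^ k * (v.2 - v0.2)| := by rw [abs_mul, abs_of_pos hp]
        rw [h5] at h4
        have h6 : |2 ^ k * (v.2 - v0.2)| ≤ 1 := by
          rw [abs_le]
          constructor <;> nlinarith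
        linarith
    · intro hn
      exact absurd (Finsupp.mem_support_iff.2 hv0) hn
  rw [h3] at h2
  rw [h2, ← cv_Phi (single (-((2 ^ k) • v0)) 1), cv_single, one_mul]

end Pool.Agent.SQR
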