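import Pool.Agent.SQR.Defs

/-!
# SQR: lemmas on `Gen` (agreement on an open dense set) and `Off`
-/

set_option autoImplicit false

open AddMonoidAlgebra

namespace Pool.Agent.SQR

variable {K : Type*}

theorem Gen.refl (u : V → K) : Gen u u := ⟨Set.univ, isOpen_univ, dense_univ, fun _ _ => rfl⟩

theorem Gen.of_eq {u v : V → K} (h : ∀ z, u z = v z) : Gen u v :=
  ⟨Set.univ, isOpen_univ, dense_univ, fun z _ => h z⟩

theorem Gen.symm {u v : V → K} (h : Gen u v) : Gen v u := by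
  obtain ⟨O, h1, h2, h3⟩ := h
  exact ⟨O, h1, h2, fun z hz => (h3 z hz).symm⟩

theorem Gen.trans {u v w : V → K} (h : Gen u v) (h' : Gen v w) : Gen u w := by
  obtain ⟨O, h1, h2, h3⟩ := h
  obtain ⟨O', h1', h2', h3'⟩ := h'
  exact ⟨O ∩ O', h1.inter h1', h2.inter_of_isOpen_left h2' h1, fun z hz => (h3 z hz.1).trans (h3' z hz.2)⟩

theorem Gen.add [Add K] {u v u' v' : V → K} (h : Gen u v) (h' : Gen u' v') :
    Gen (fun z => u z + u' z) (fun z => v z + v' z) := by
  obtain ⟨O, h1, h2, h3⟩ := h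
  obtain ⟨O', h1', h2', h3'⟩ := h'
  refine ⟨O ∩ O', h1.inter h1', h2.inter_of_isOpen_left h2' h1, fun z hz => ?_⟩
  simp only [h3 z hz.1, h3' z hz.2]

theorem Gen.mul_left [Mul K] {u v : V → K} (a : K) (h : Gen u v) :
    Gen (fun z => a * u z) (fun z => a * v z) := by
  obtain ⟨O, h1, h2, h3⟩ := h
  refine ⟨O, h1, h2, fun z hz => ?_⟩
  simp only [h3 z hz]

theorem Gen.zsmul [AddCommGroup K] {u v : V → K} (n : ℤ) (h : Gen u v) :
    Gen (fun z => n • u z) (fun z => n • v z) := by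
  obtain ⟨O, h1, h2, h3⟩ := h
  refine ⟨O, h1, h2, fun z hz => ?_⟩
  simp only [h3 z hz]

theorem Gen.sum [AddCommMonoid K] {ι : Type*} (s : Finset ι) {u v : ι → V → K}
    (h : ∀ i ∈ s, Gen (u i) (v i)) : Gen (fun z => ∑ i ∈ s, u i z) (fun z => ∑ i ∈ s, v i z) := by
  classical
  induction s using Finset.induction_on with
  | empty => exact Gen.of_eq fun z => by simp
  | insert a s ha ih =>
    have h1 := (h a (Finset.mem_insert_self a s)).add (ih fun i hi => h i (Finset.mem_insert_of_mem hi))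
    refine (Gen.of_eq fun z => ?_).trans (h1.trans (Gen.of_eq fun z => ?_))
    · rw [Finset.sum_insert ha]
    · rw [Finset.sum_insert ha]

/-- Composition with a homeomorphism. -/
theorem Gen.comp {u v : V → K} (h : Gen u v) (e : V ≃ₜ V) : Gen (fun z => u (e z)) (fun z => v (e z)) := by
  obtain ⟨O, h1, h2, h3⟩ := h
  refine ⟨e ⁻¹' O, h1.preimage e.continuous, h2.preimage e.isOpenMap, fun z hz => h3 _ hz⟩

theorem Gen.translate {u v : V → K} (h : Gen u v) (w : V) : Gen (fun z => u (z - w)) (fun z => v (z - w)) :=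
  h.comp (Homeomorph.subRight w)

/-- Composition with the inverse of `mv g c`. -/
theorem Gen.mv {u v : V → K} (h : Gen u v) (g : SP) (c : V) :
    Gen (fun z => u (act g⁻¹ (z - c))) (fun z => v (act g⁻¹ (z - c))) := by
  have h1 := h.comp (mvH g c).symm
  have h2 : ∀ z, (mvH g c).symm z = act g⁻¹ (z - c) := by
    intro z
    change SQR.mv g⁻¹ (-(act g⁻¹ c)) z = _
    unfold SQR.mv
    rw [map_sub, sub_eq_add_neg]
  simpa only [h2] using h1

theorem Gen.cv [CommRing K] {u v : V → K} (h : Gen u v) (F : AddMonoidAlgebra K V) :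
    Gen (cv F u) (cv F v) := by
  have h1 : Gen (fun z => ∑ w ∈ F.coeff.support, F.coeff w * u (z - w))
      (fun z => ∑ w ∈ F.coeff.support, F.coeff w * v (z - w)) :=
    Gen.sum _ fun w _ => (h.translate w).mul_left _
  exact h1

theorem off_mono {S T : Finset ℝ} (h : S ⊆ T) {z : V} (hz : Off T z) : Off S z :=
  ⟨fun h1 => hz.1 (h h1), fun h1 => hz.2 (h h1)⟩

theorem isOpen_off (S : Finset ℝ) : IsOpen {z : V | Off S z} := by
  have h1 : {z : V | Off S z} = (Prod.fst ⁻¹' ((S : Set ℝ)ᶜ)) ∩ (Prod.snd ⁻¹' ((S : Set ℝ)ᶜ)) := by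
    ext z
    simp [Off]
  rw [h1]
  exact (S.finite_toSet.isClosed.isOpen_compl.preimage continuous_fst).inter
    (S.finite_toSet.isClosed.isOpen_compl.preimage continuous_snd)

theorem dense_off (S : Finset ℝ) : Dense {z : V | Off S z} := by
  have h0 : Dense ((S : Set ℝ)ᶜ) := S.countable_toSet.dense_compl ℝ
  have h1 : {z : V | Off S z} = ((S : Set ℝ)ᶜ) ×ˢ ((S : Set ℝ)ᶜ) := by
    ext z
    simp [Off]
  rw [h1]
  exact h0.prod h0

theorem Gen.of_off {u v : V → K} (S : Finset ℝ) (h : ∀ z, Off S z → u z = v z) : Gen u v :=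
  ⟨{z | Off S z}, isOpen_off S, dense_off S, h⟩

/-- `O ∩ U` is nonempty when `O` is dense and `U` is open and nonempty. -/
theorem Gen.exists_mem {u v : V → K} (h : Gen u v) {U : Set V} (hU : IsOpen U) (hne : U.Nonempty)
    (S : Finset ℝ) : ∃ z ∈ U, Off S z ∧ u z = v z := by
  obtain ⟨O, h1, h2, h3⟩ := h
  obtain ⟨z, hz1, hz2, hz3⟩ := (h2.inter_of_isOpen_left (dense_off S) h1).inter_open_nonempty U hU hne
  exact ⟨z, hz1, hz3, h3 z hz2⟩

end Pool.Agent.SQR
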