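import Pool.Agent.SQR.Cyc
import Pool.Agent.SQR.Cnc

/-!
# SQR module GEX: no solution when some linear part exchanges the axes

PROOF. Write `A = AddMonoidAlgebra ℤ (ℤ × ℤ)`, `M h k = ∑ i, if h * γ i = k then single (act (ρ h) (d i)) 1 else 0`
(`Matrix H H A`), `D = M.det`.
(1) With `F_k = chi (ρ k) • sig ℤ (ρ k) f`:
`∑ k, M h k * F_k = ∑ i, single (act (ρ h) (d i)) 1 * F_{h * γ i} = chi (ρ h) • sig ℤ (ρ h) (tsm ..)
= chi (ρ h) • sig ℤ (ρ h) (qq ℤ L)`.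
(2) Multiply by the adjugate: `D * f = D * F_1 = ∑ h, M.adjugate 1 h * (chi (ρ h) • sig ℤ (ρ h) (qq ℤ L))`.
(3) For `ζ : ℂˣ` with `ζ ^ L = 1` and all `b : SP`: `evx ζ (sig ℤ b (qq ℤ L)) = 0` and
`evy ζ (sig ℤ b (qq ℤ L)) = 0`: the product `sig ℤ b (qq ℤ L)` has a factor `single (± L, 0) 1 - 1`, killed by
`evx ζ`, and a factor `single (0, ± L) 1 - 1`, killed by `evy ζ`.  So `evx ζ D * evx ζ f = 0` and
`evy ζ D * evy ζ f = 0` in the domain `AddMonoidAlgebra ℂ ℤ`.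
(4) Invariance: `sig ℤ (ρ b) D = D` for `b : H`: `sig ℤ (ρ b) (M h k) = M (b * h) (b * k)`, and permuting rows and
columns by the same permutation does not change the determinant (`RingHom.map_det`,
`Matrix.det_submatrix_equiv_self` with `Equiv.mulLeft b`).
(5) `aug ℤ D = det (fun h k => #{i | h * γ i = k})` (`RingHom.map_det`, `aug_single`), not divisible by `p ^ 2`.
(6) Let `ζ ^ (p ^ j) = 1`.  Then `evx ζ D ≠ 0` and `evy ζ D ≠ 0`.  For `b = ρ a`, `b.w = true`: on `single (x, y)`,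
`evx ζ (sig ℤ b G)` is `single (t * x) (ζ ^ (s * y))`, i.e. the image of `evy (ζ ^ s) G` under the injective map
induced by multiplication by `t = ± 1` on `ℤ` (`induction_linear`); so if `evx ζ D = 0` then (4) gives
`evy ζ' D = 0` with `ζ' = ζ ^ s ∈ {ζ, ζ⁻¹}`, and `cyc1` contradicts (5).  If `evy ζ D = 0` then in the same way
`evx ζ' D = 0` with `ζ' = ζ ^ (± 1)`, and `cyc1` (for the pair `ζ', ζ`) contradicts (5).
(7) Write `L = N * m` with `N = p ^ v` and `p` not dividing `m : ℕ`.  For `ζ ^ N = 1` also `ζ ^ L = 1`, so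
`evx ζ f = 0 = evy ζ f` by (3), (6).  `cyc2`: `f = qq ℤ N * Q`.  `cnc` with `K = ℤ`:
`p * aug ℤ Q = m ^ 2`, so `p ∣ m`, a contradiction.
-/

set_option autoImplicit false

open AddMonoidAlgebra

namespace Pool.Agent.SQR

private theorem evx_qq (L : ℤ) (ζ : ℂˣ) (hζ : ζ ^ L = 1) : evx ζ (qq ℤ L) = 0 := by
  unfold qq
  rw [map_mul, map_sub, evx_single, map_one]
  simp only [hζ, Units.val_one, mul_one, Int.cast_one]
  rw [← AddMonoidAlgebra.one_def, sub_self, zero_mul]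

private theorem evy_qq (L : ℤ) (ζ : ℂˣ) (hζ : ζ ^ L = 1) : evy ζ (qq ℤ L) = 0 := by
  unfold qq
  rw [map_mul, map_sub (evy ζ) (single ((0 : ℤ), L) (1 : ℤ)), evy_single, map_one]
  simp only [hζ, Units.val_one, mul_one, Int.cast_one]
  rw [← AddMonoidAlgebra.one_def, sub_self, mul_zero]

private theorem zsmul_unit_eq_zero {A : Type*} [AddCommGroup A] (b : SP) (x : A) (h : chi b • x = 0) : x = 0 := by
  have h1 : chi b • (chi b • x) = 0 := by rw [h, smul_zero]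
  rwa [smul_smul, chi_sq, one_smul] at h1

private theorem evx_sig_qq (b : SP) (L : ℤ) (ζ : ℂˣ) (hζ : ζ ^ L = 1) : evx ζ (sig ℤ b (qq ℤ L)) = 0 := by
  obtain ⟨v, hv⟩ := chi_sig_qq ℤ b L
  apply zsmul_unit_eq_zero b
  rw [← map_zsmul, hv, map_mul, evx_qq L ζ hζ, mul_zero]

private theorem evy_sig_qq (b : SP) (L : ℤ) (ζ : ℂˣ) (hζ : ζ ^ L = 1) : evy ζ (sig ℤ b (qq ℤ L)) = 0 := by
  obtain ⟨v, hv⟩ := chi_sig_qq ℤ b L
  apply zsmul_unit_eq_zero b
  rw [← map_zsmul, hv, map_mul, evy_qq L ζ hζ, mul_zero]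

private noncomputable def nu (t : ℤˣ) : AddMonoidAlgebra ℂ ℤ →+* AddMonoidAlgebra ℂ ℤ :=
  mapDomainRingHom ℂ (AddMonoidHom.mulLeft (t : ℤ))

private theorem nu_single (t : ℤˣ) (x : ℤ) (a : ℂ) : nu t (single x a) = single ((t : ℤ) * x) a := by
  unfold nu
  rw [mapDomainRingHom_apply, mapDomain_single]
  rfl

private theorem nu_nu (t : ℤˣ) (G : AddMonoidAlgebra ℂ ℤ) : nu t (nu t G) = G := by
  induction G using AddMonoidAlgebra.induction_linear with
  | zero => simp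
  | add x y hx hy => rw [map_add, map_add, hx, hy]
  | single w a =>
    rw [nu_single, nu_single, ← mul_assoc, ← Units.val_mul, Int.units_mul_self, Units.val_one, one_mul]

private theorem nu_eq_zero (t : ℤˣ) (G : AddMonoidAlgebra ℂ ℤ) (h : nu t G = 0) : G = 0 := by
  rw [← nu_nu t G, h, map_zero]

private theorem evx_sig (b : SP) (hb : b.w = true) (ζ : ℂˣ) (G : AddMonoidAlgebra ℤ (ℤ × ℤ)) :
    evx ζ (sig ℤ b G) = nu b.t (evy (ζ ^ (b.s : ℤ)) G) := by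
  induction G using AddMonoidAlgebra.induction_linear with
  | zero => simp
  | add x y hx hy => rw [map_add, map_add, map_add, map_add, hx, hy]
  | single w a =>
    rw [sig_single, evx_single, evy_single, nu_single, ← zpow_mul]
    simp [act, hb]

private theorem evy_sig (b : SP) (hb : b.w = true) (ζ : ℂˣ) (G : AddMonoidAlgebra ℤ (ℤ × ℤ)) :
    evy ζ (sig ℤ b G) = nu b.s (evx (ζ ^ (b.t : ℤ)) G) := by
  induction G using AddMonoidAlgebra.induction_linear with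
  | zero => simp
  | add x y hx hy => rw [map_add, map_add, map_add, map_add, hx, hy]
  | single w a =>
    rw [sig_single, evy_single, evx_single, nu_single, ← zpow_mul]
    simp [act, hb]

private theorem zpow_unit (s : ℤˣ) (ζ : ℂˣ) : ζ ^ (s : ℤ) = ζ ∨ ζ ^ (s : ℤ) = ζ⁻¹ := by
  rcases Int.units_eq_one_or s with h | h
  · left
    rw [h, Units.val_one, zpow_one]
  · right
    rw [h]
    simp


private theorem mat_eq (p : ℕ) {H : Type} [Group H] [Fintype H] [DecidableEq H] (ρ : H →* SP)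
    (γ : Fin p → H) (d : Fin p → ℤ × ℤ) (f : AddMonoidAlgebra ℤ (ℤ × ℤ)) (L : ℤ)
    (h : tsm ℤ (fun i => ρ (γ i)) d f = qq ℤ L)
    (M : Matrix H H (AddMonoidAlgebra ℤ (ℤ × ℤ)))
    (hM : ∀ h k, M h k = ∑ i, if h * γ i = k then single (act (ρ h) (d i)) (1 : ℤ) else 0) (b : H) :
    ∑ k, M b k * (chi (ρ k) • sig ℤ (ρ k) f) = chi (ρ b) • sig ℤ (ρ b) (qq ℤ L) := by
  rw [← h]
  unfold tsm
  simp only [hM, Finset.sum_mul]
  rw [Finset.sum_comm, map_sum, Finset.smul_sum]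
  refine Finset.sum_congr rfl fun i _ => ?_
  rw [Finset.sum_eq_single (b * γ i)]
  · rw [if_pos rfl, map_mul ρ, chi_mul, sig_mul, sig_zsmul, map_mul, sig_single, smul_smul, mul_smul_comm]
  · intro k _ hk
    rw [if_neg (Ne.symm hk), zero_mul]
  · intro hk
    exact absurd (Finset.mem_univ _) hk

private theorem D_f (p : ℕ) {H : Type} [Group H] [Fintype H] [DecidableEq H] (ρ : H →* SP)
    (γ : Fin p → H) (d : Fin p → ℤ × ℤ) (f : AddMonoidAlgebra ℤ (ℤ × ℤ)) (L : ℤ)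
    (h : tsm ℤ (fun i => ρ (γ i)) d f = qq ℤ L)
    (M : Matrix H H (AddMonoidAlgebra ℤ (ℤ × ℤ)))
    (hM : ∀ h k, M h k = ∑ i, if h * γ i = k then single (act (ρ h) (d i)) (1 : ℤ) else 0) :
    M.det * f = ∑ b, M.adjugate 1 b * (chi (ρ b) • sig ℤ (ρ b) (qq ℤ L)) := by
  set F : H → AddMonoidAlgebra ℤ (ℤ × ℤ) := fun k => chi (ρ k) • sig ℤ (ρ k) f with hF
  have h1 : ∀ b, (M.mulVec F) b = chi (ρ b) • sig ℤ (ρ b) (qq ℤ L) := by
    intro b
    rw [← mat_eq p ρ γ d f L h M hM b]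
    rfl
  have h2 : M.adjugate.mulVec (M.mulVec F) = M.det • F := by
    rw [Matrix.mulVec_mulVec, Matrix.adjugate_mul, Matrix.smul_mulVec, Matrix.one_mulVec]
  have h3 := congrFun h2 1
  have h4 : F 1 = f := by
    rw [hF]
    simp only
    rw [map_one ρ, chi_one, sig_one, one_smul]
  rw [Pi.smul_apply, h4, smul_eq_mul] at h3
  rw [← h3]
  change ∑ b, M.adjugate 1 b * (M.mulVec F) b = _
  refine Finset.sum_congr rfl fun b _ => ?_
  rw [h1]

private theorem D_inv (p : ℕ) {H : Type} [Group H] [Fintype H] [DecidableEq H] (ρ : H →* SP)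
    (γ : Fin p → H) (d : Fin p → ℤ × ℤ)
    (M : Matrix H H (AddMonoidAlgebra ℤ (ℤ × ℤ)))
    (hM : ∀ h k, M h k = ∑ i, if h * γ i = k then single (act (ρ h) (d i)) (1 : ℤ) else 0) (b : H) :
    sig ℤ (ρ b) M.det = M.det := by
  rw [RingHom.map_det]
  have h1 : (sig ℤ (ρ b)).mapMatrix M = M.submatrix (Equiv.mulLeft b) (Equiv.mulLeft b) := by
    ext1 h k
    change sig ℤ (ρ b) (M h k) = M (b * h) (b * k)
    rw [hM, hM, map_sum]
    refine Finset.sum_congr rfl fun i _ => ?_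
    by_cases hk : h * γ i = k
    · rw [if_pos hk, if_pos (by rw [mul_assoc, hk]), sig_single, map_mul ρ, act_mul]
    · rw [if_neg hk, if_neg (by rw [mul_assoc]; exact fun h' => hk (mul_left_cancel h')), map_zero]
  rw [h1, Matrix.det_submatrix_equiv_self]

private theorem D_aug (p : ℕ) {H : Type} [Group H] [Fintype H] [DecidableEq H] (ρ : H →* SP)
    (γ : Fin p → H) (d : Fin p → ℤ × ℤ)
    (M : Matrix H H (AddMonoidAlgebra ℤ (ℤ × ℤ)))
    (hM : ∀ h k, M h k = ∑ i, if h * γ i = k then single (act (ρ h) (d i)) (1 : ℤ) else 0) :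
    aug ℤ M.det = (Matrix.of fun h k : H => ((Finset.univ.filter fun i => h * γ i = k).card : ℤ)).det := by
  rw [RingHom.map_det]
  congr 1
  ext h k
  change aug ℤ (M h k) = ((Finset.univ.filter fun i => h * γ i = k).card : ℤ)
  rw [hM, map_sum, Finset.card_filter, Nat.cast_sum]
  refine Finset.sum_congr rfl fun i _ => ?_
  by_cases hk : h * γ i = k
  · rw [if_pos hk, if_pos hk, aug_single, Nat.cast_one]
  · rw [if_neg hk, if_neg hk, map_zero, Nat.cast_zero]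

theorem gex (p : ℕ) (hp : p.Prime) {H : Type} [Group H] [Fintype H] [DecidableEq H] (ρ : H →* SP)
    (γ : Fin p → H) (a : H) (ha : (ρ a).w = true)
    (hdet : ¬ ((p : ℤ) ^ 2) ∣
      (Matrix.of fun h k : H => ((Finset.univ.filter fun i => h * γ i = k).card : ℤ)).det)
    (d : Fin p → ℤ × ℤ) (f : AddMonoidAlgebra ℤ (ℤ × ℤ)) (L : ℤ) (hL : 0 < L)
    (h : tsm ℤ (fun i => ρ (γ i)) d f = qq ℤ L) : False := by
  classical
  let M : Matrix H H (AddMonoidAlgebra ℤ (ℤ × ℤ)) :=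
    Matrix.of fun h k => ∑ i, if h * γ i = k then single (act (ρ h) (d i)) (1 : ℤ) else 0
  have hM : ∀ h k, M h k = ∑ i, if h * γ i = k then single (act (ρ h) (d i)) (1 : ℤ) else 0 :=
    fun h k => rfl
  have hDf := D_f p ρ γ d f L h M hM
  have hDi := D_inv p ρ γ d M hM a
  have hDa := D_aug p ρ γ d M hM
  rw [← hDa] at hdet
  have hx : ∀ (j : ℕ) (ζ : ℂˣ), ζ ^ (p ^ j) = 1 → evx ζ M.det ≠ 0 := by
    intro j ζ hζ h0
    have h1 : evy (ζ ^ ((ρ a).s : ℤ)) M.det = 0 := by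
      apply nu_eq_zero (ρ a).t
      rw [← evx_sig (ρ a) ha, hDi, h0]
    exact hdet (cyc1 p hp j ζ _ hζ (zpow_unit _ ζ) _ h0 h1)
  have hy : ∀ (j : ℕ) (ζ : ℂˣ), ζ ^ (p ^ j) = 1 → evy ζ M.det ≠ 0 := by
    intro j ζ hζ h0
    have h1 : evx (ζ ^ ((ρ a).t : ℤ)) M.det = 0 := by
      apply nu_eq_zero (ρ a).s
      rw [← evy_sig (ρ a) ha, hDi, h0]
    refine hdet (cyc1 p hp j (ζ ^ ((ρ a).t : ℤ)) ζ ?_ ?_ _ h1 h0)
    · rcases zpow_unit (ρ a).t ζ with h2 | h2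
      · rw [h2, hζ]
      · rw [h2, inv_pow, hζ, inv_one]
    · rcases zpow_unit (ρ a).t ζ with h2 | h2
      · left
        rw [h2]
      · right
        rw [h2, inv_inv]
  obtain ⟨v, m, hm, hLm⟩ := Nat.exists_eq_pow_mul_and_not_dvd (n := L.toNat) (by omega) p hp.ne_one
  have hLm' : L = ((p ^ v : ℕ) : ℤ) * (m : ℤ) := by
    rw [← Nat.cast_mul, ← hLm]
    omega
  have hroot : ∀ ζ : ℂˣ, ζ ^ (p ^ v) = 1 → ζ ^ L = 1 := by
    intro ζ hζ
    rw [hLm', zpow_mul, zpow_natCast, zpow_natCast, hζ, one_pow]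
  have hfx : ∀ ζ : ℂˣ, ζ ^ (p ^ v) = 1 → evx ζ f = 0 := by
    intro ζ hζ
    have h1 : evx ζ M.det * evx ζ f = 0 := by
      rw [← map_mul, hDf, map_sum]
      refine Finset.sum_eq_zero fun b _ => ?_
      rw [map_mul, map_zsmul, evx_sig_qq _ L ζ (hroot ζ hζ), smul_zero, mul_zero]
    exact (mul_eq_zero.1 h1).resolve_left (hx v ζ hζ)
  have hfy : ∀ ζ : ℂˣ, ζ ^ (p ^ v) = 1 → evy ζ f = 0 := by
    intro ζ hζ
    have h1 : evy ζ M.det * evy ζ f = 0 := by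
      rw [← map_mul, hDf, map_sum]
      refine Finset.sum_eq_zero fun b _ => ?_
      rw [map_mul, map_zsmul, evy_sig_qq _ L ζ (hroot ζ hζ), smul_zero, mul_zero]
    exact (mul_eq_zero.1 h1).resolve_left (hy v ζ hζ)
  have hN : 0 < p ^ v := pow_pos hp.pos v
  obtain ⟨Q, hQ⟩ := cyc2 (p ^ v) hN f hfx hfy
  rw [hQ, hLm'] at h
  have h1 := cnc ℤ _ d Q ((p ^ v : ℕ) : ℤ) (by exact_mod_cast hN.ne') m h
  have h2 : (p : ℤ) ∣ (m : ℤ) ^ 2 := ⟨_, h1.symm⟩
  have h3 : p ∣ m ^ 2 := by exact_mod_cast h2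
  exact hm (hp.dvd_of_dvd_pow h3)

end Pool.Agent.SQR
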