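import Pool.Agent.SQR.GenL

/-!
# SQR module GRD: a regular open set with a corner sum is a union of cells of a grid

PROOF. Let `S` be the finite set consisting of `0`, `1` and all coordinates of the points of the support of `F`.
Let `z, z'` be off `S` and in the same cell.  It suffices to prove `z ∈ U → z' ∈ U` (symmetry).  Let
`C = {y | Off S y ∧ ∀ s ∈ S, (s < y.1 ↔ s < z.1) ∧ (s < y.2 ↔ s < z.2)}`; it is open (a finite intersection of
open sets: for `s ∈ S`, `s ≠ z.1`, the condition on `y.1` with `y.1 ≠ s` is `s < y.1` or `y.1 < s`), and contains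
`z` and `z'`.  Let `z ∈ U`; then `z ∈ sq`, so `0 < z.1 < 1` and `0 < z.2 < 1` (as `0, 1 ∈ S`), and the same holds
for all `y ∈ C`, so `C ⊆ sq`.  `Phi F` is constant on `C` (for `w` in the support, `w.1 ≤ y.1 ↔ w.1 < y.1 ↔
w.1 < z.1 ↔ w.1 ≤ z.1`, similarly for the second coordinates).  `U ∩ C` is open and nonempty, so it meets `O`
(dense): at such a point `y`, `Phi F y = ind U y = 1`.  So `Phi F = 1` on `C`, and `O ∩ C ⊆ U`.  As `O` is dense
and `C` is open, `C ⊆ closure (O ∩ C) ⊆ closure U` (`Dense.open_subset_closure_inter`), so `C ⊆ interior (closure U) ⊆ U`.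
-/

set_option autoImplicit false

open AddMonoidAlgebra

namespace Pool.Agent.SQR

/-- one implication, for a given grid -/
private theorem grd_aux {U : Set V} (hU : IsOpen U) (hr : interior (closure U) ⊆ U) (hsq : U ⊆ sq)
    {F : AddMonoidAlgebra (ZMod 2) V} {O : Set V} (hd : Dense O)
    (h : ∀ z ∈ O, z ∈ sq → ind (ZMod 2) U z = Phi F z) {S : Finset ℝ} (h0 : (0 : ℝ) ∈ S) (h1 : (1 : ℝ) ∈ S)
    (hS : ∀ w ∈ F.coeff.support, w.1 ∈ S ∧ w.2 ∈ S) {z z' : V} (hz : Off S z) (hz' : Off S z')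
    (hs : ∀ s ∈ S, (s < z.1 ↔ s < z'.1) ∧ (s < z.2 ↔ s < z'.2)) (hzU : z ∈ U) : z' ∈ U := by
  obtain ⟨C, hCdef⟩ : ∃ C : Set V, ∀ y, y ∈ C ↔ ∀ s ∈ S, (if s < z.1 then s < y.1 else y.1 < s) ∧
      (if s < z.2 then s < y.2 else y.2 < s) := ⟨{y | _}, fun y => Iff.rfl⟩
  have hC : IsOpen C := by
    have e : C = ⋂ s ∈ S, {y : V | (if s < z.1 then s < y.1 else y.1 < s) ∧ (if s < z.2 then s < y.2 else y.2 < s)} := by
      ext y
      rw [hCdef, Set.mem_iInter₂]
      exact Iff.rfl
    rw [e]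
    refine isOpen_biInter_finset fun s _ => ?_
    have e1 : IsOpen {y : V | if s < z.1 then s < y.1 else y.1 < s} := by
      by_cases hc : s < z.1
      · simp only [if_pos hc]
        exact isOpen_lt continuous_const continuous_fst
      · simp only [if_neg hc]
        exact isOpen_lt continuous_fst continuous_const
    have e2 : IsOpen {y : V | if s < z.2 then s < y.2 else y.2 < s} := by
      by_cases hc : s < z.2
      · simp only [if_pos hc]
        exact isOpen_lt continuous_const continuous_snd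
      · simp only [if_neg hc]
        exact isOpen_lt continuous_snd continuous_const
    exact e1.inter e2
  have hzC : z ∈ C := by
    rw [hCdef]
    intro s hsS
    have n1 : z.1 ≠ s := fun e => hz.1 (e ▸ hsS)
    have n2 : z.2 ≠ s := fun e => hz.2 (e ▸ hsS)
    constructor
    · split_ifs with hc
      · exact hc
      · exact lt_of_le_of_ne (not_lt.1 hc) n1
    · split_ifs with hc
      · exact hc
      · exact lt_of_le_of_ne (not_lt.1 hc) n2
  have hzC' : z' ∈ C := by
    rw [hCdef]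
    intro s hsS
    have n1 : z'.1 ≠ s := fun e => hz'.1 (e ▸ hsS)
    have n2 : z'.2 ≠ s := fun e => hz'.2 (e ▸ hsS)
    obtain ⟨e1, e2⟩ := hs s hsS
    constructor
    · split_ifs with hc
      · exact e1.1 hc
      · exact lt_of_le_of_ne (not_lt.1 fun hc' => hc (e1.2 hc')) n1
    · split_ifs with hc
      · exact e2.1 hc
      · exact lt_of_le_of_ne (not_lt.1 fun hc' => hc (e2.2 hc')) n2
  have hzsq := hsq hzU
  have hCsq : C ⊆ sq := by
    intro y hy
    rw [hCdef] at hy
    obtain ⟨a1, a2⟩ := hy 0 h0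
    obtain ⟨b1, b2⟩ := hy 1 h1
    have p1 : (0 : ℝ) < z.1 := lt_of_le_of_ne hzsq.1.1 fun e => hz.1 (e ▸ h0)
    have p2 : (0 : ℝ) < z.2 := lt_of_le_of_ne hzsq.2.1 fun e => hz.2 (e ▸ h0)
    rw [if_pos p1] at a1
    rw [if_pos p2] at a2
    rw [if_neg (not_lt.2 hzsq.1.2)] at b1
    rw [if_neg (not_lt.2 hzsq.2.2)] at b2
    exact ⟨⟨a1.le, b1.le⟩, ⟨a2.le, b2.le⟩⟩
  have hconst : ∀ y ∈ C, Phi F y = Phi F z := by
    intro y hy
    unfold Phi
    refine Finsupp.sum_congr fun w hw => ?_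
    obtain ⟨w1, w2⟩ := hS w hw
    rw [hCdef] at hy hzC
    have e1 : w.1 ≤ y.1 ↔ w.1 ≤ z.1 := by
      have a := (hy _ w1).1
      have b := (hzC _ w1).1
      by_cases hc : w.1 < z.1
      · rw [if_pos hc] at a
        exact ⟨fun _ => hc.le, fun _ => a.le⟩
      · rw [if_neg hc] at a b
        exact ⟨fun h' => absurd (lt_of_lt_of_le a h') (lt_irrefl _), fun h' => absurd (lt_of_lt_of_le b h') (lt_irrefl _)⟩
    have e2 : w.2 ≤ y.2 ↔ w.2 ≤ z.2 := by
      have a := (hy _ w2).2
      have b := (hzC _ w2).2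
      by_cases hc : w.2 < z.2
      · rw [if_pos hc] at a
        exact ⟨fun _ => hc.le, fun _ => a.le⟩
      · rw [if_neg hc] at a b
        exact ⟨fun h' => absurd (lt_of_lt_of_le a h') (lt_irrefl _), fun h' => absurd (lt_of_lt_of_le b h') (lt_irrefl _)⟩
    simp only [e1, e2]
  have h11 : Phi F z = 1 := by
    obtain ⟨y, ⟨hyU, hyC⟩, hyO⟩ := hd.inter_open_nonempty (U ∩ C) (hU.inter hC) ⟨z, hzU, hzC⟩
    have e := h y hyO (hCsq hyC)
    unfold ind at e
    rw [if_pos hyU, hconst y hyC] at e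
    exact e.symm
  have hOC : C ∩ O ⊆ U := by
    rintro y ⟨hyC, hyO⟩
    by_contra hn
    have e := h y hyO (hCsq hyC)
    unfold ind at e
    rw [if_neg hn, hconst y hyC, h11] at e
    exact absurd e (by decide)
  have hCU : C ⊆ closure U := (hd.open_subset_closure_inter hC).trans (closure_mono hOC)
  exact hr (interior_maximal hCU hC hzC')

theorem grd (U : Set V) (hU : IsOpen U) (hr : interior (closure U) ⊆ U) (hsq : U ⊆ sq)
    (F : AddMonoidAlgebra (ZMod 2) V) (O : Set V) (hO : IsOpen O) (hd : Dense O)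
    (h : ∀ z ∈ O, z ∈ sq → ind (ZMod 2) U z = Phi F z) :
    ∃ S : Finset ℝ, ∀ z z', Off S z → Off S z' →
      (∀ s ∈ S, (s < z.1 ↔ s < z'.1) ∧ (s < z.2 ↔ s < z'.2)) → (z ∈ U ↔ z' ∈ U) := by
  classical
  refine ⟨insert 0 (insert 1 (F.coeff.support.image Prod.fst ∪ F.coeff.support.image Prod.snd)), ?_⟩
  intro z z' hz hz' hs
  have h0 : (0 : ℝ) ∈ insert 0 (insert 1 (F.coeff.support.image Prod.fst ∪ F.coeff.support.image Prod.snd)) :=
    Finset.mem_insert_self _ _
  have h1 : (1 : ℝ) ∈ insert 0 (insert 1 (F.coeff.support.image Prod.fst ∪ F.coeff.support.image Prod.snd)) :=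
    Finset.mem_insert_of_mem (Finset.mem_insert_self _ _)
  have hS : ∀ w ∈ F.coeff.support,
      w.1 ∈ insert 0 (insert 1 (F.coeff.support.image Prod.fst ∪ F.coeff.support.image Prod.snd)) ∧
      w.2 ∈ insert 0 (insert 1 (F.coeff.support.image Prod.fst ∪ F.coeff.support.image Prod.snd)) := by
    intro w hw
    exact ⟨Finset.mem_insert_of_mem (Finset.mem_insert_of_mem (Finset.mem_union_left _ (Finset.mem_image_of_mem _ hw))),
      Finset.mem_insert_of_mem (Finset.mem_insert_of_mem (Finset.mem_union_right _ (Finset.mem_image_of_mem _ hw)))⟩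
  exact ⟨grd_aux hU hr hsq hd h h0 h1 hS hz hz' hs,
    grd_aux hU hr hsq hd h h0 h1 hS hz' hz fun s hs' => ⟨(hs s hs').1.symm, (hs s hs').2.symm⟩⟩

end Pool.Agent.SQR
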