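import Pool.Agent.SQR.GenL

/-!
# SQR module LIN: linear systems over the group ring

PROOF. Let `A = M.adjugate`, `A * M = M.det • 1` (`Matrix.adjugate_mul`).  For all `z`,
`∑ b, cv (A a b) (fun y => ∑ k, cv (M b k) (u k) y) z = ∑ k, cv (∑ b, A a b * M b k) (u k) z` (`cv_sum_right`,
`cv_mul`, `cv_sum_left`, `Finset.sum_comm`) `= ∑ k, cv ((A * M) a k) (u k) z = cv M.det (u a) z`
(off-diagonal entries are `0`, `cv_zero_left`).  On the other hand, by the hypothesis, `Gen.cv` and `Gen.sum`, the
left side agrees generically with `∑ b, cv (A a b) (Phi (W b)) z = ∑ b, Phi (A a b * W b) z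
= Phi (∑ b, A a b * W b) z` (`cv_Phi`, `Phi_sum`).
-/

set_option autoImplicit false

open AddMonoidAlgebra

namespace Pool.Agent.SQR

theorem lin {K : Type*} [CommRing K] {H : Type*} [Fintype H] [DecidableEq H]
    (M : Matrix H H (AddMonoidAlgebra K V)) (u : H → V → K) (W : H → AddMonoidAlgebra K V)
    (h : ∀ a, Gen (fun z => ∑ b, cv (M a b) (u b) z) (Phi (W a))) (a : H) :
    Gen (cv M.det (u a)) (Phi (∑ b, M.adjugate a b * W b)) := by
  have h1 : Gen (fun z => ∑ b, cv (M.adjugate a b) (fun y => ∑ k, cv (M b k) (u k) y) z)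
      (fun z => ∑ b, cv (M.adjugate a b) (Phi (W b)) z) :=
    Gen.sum _ fun b _ => (h b).cv _
  refine (Gen.of_eq fun z => ?_).trans (h1.trans (Gen.of_eq fun z => ?_))
  · have h2 : ∀ b, cv (M.adjugate a b) (fun y => ∑ k, cv (M b k) (u k) y) z
        = ∑ k, cv (M.adjugate a b * M b k) (u k) z := by
      intro b
      rw [cv_sum_right]
      exact Finset.sum_congr rfl fun k _ => (cv_mul _ _ _ _).symm
    rw [Finset.sum_congr rfl fun b _ => h2 b, Finset.sum_comm]
    have h3 : ∀ k, ∑ b, cv (M.adjugate a b * M b k) (u k) z = cv ((M.adjugate * M) a k) (u k) z := by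
      intro k
      rw [Matrix.mul_apply, cv_sum_left]
    rw [Finset.sum_congr rfl fun k _ => h3 k, Matrix.adjugate_mul, Finset.sum_eq_single a]
    · simp
    · intro k _ hk
      rw [Matrix.smul_apply, Matrix.one_apply_ne (Ne.symm hk), smul_zero, cv_zero_left]
    · intro h4
      exact absurd (Finset.mem_univ a) h4
  · rw [Phi_sum]
    exact Finset.sum_congr rfl fun b _ => cv_Phi _ _ _

end Pool.Agent.SQR
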