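import Pool.Agent.SQR.GenL

/-!
# SQR module NRM: normalisation

PROOF. Put `U' = mv (g i0) (c i0) '' U`, `g' i = g i * (g i0)⁻¹`, `c' i = c i - act (g' i) (c i0)`.  Then
`mv (g' i) (c' i) (mv (g i0) (c i0) z) = mv (g i) (c i) z` (`mv_mul`; or `act_mul`, `map_add`), so
`mv (g' i) (c' i) '' U' = mv (g i) (c i) '' U`, and the same for closures (`closure U' = mv (g i0) (c i0) '' closure U`,
`mvH` is a homeomorphism).  `U'` is open, connected, and `interior (closure U') ⊆ U'`
(`Homeomorph.image_interior`, `image_closure`).  `g' i0 = 1`, `c' i0 = 0`, `U' ⊆ closure U' ⊆ sq` by `h.cover`.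
`Hyp`: `(g' i)⁻¹ * g' j = g i0 * ((g i)⁻¹ * g j) * (g i0)⁻¹`, and for all `a b : SP` the element
`b * a * b⁻¹` has the same `w` as `a` and, if `a.w = true` and `a.s = a.t`, equal signs (`decide` over the finite
group, or `chi_mul`: if `a.w` then `a.s = a.t` iff `chi a = 1`).  For the determinant:
`∑ i, mat (g' i) = (∑ i, mat (g i)) * mat (g i0)⁻¹` (`mat_mul`, `Finset.sum_mul`), and `det (mat a) = ± 1`, so
`p ∣ det (∑ mat (g' i))` implies `p ∣ det (∑ mat (g i))`.
-/

set_option autoImplicit false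

open AddMonoidAlgebra

namespace Pool.Agent.SQR

/-- conjugation preserves the type of a signed permutation -/
private theorem conj_aux (x y : SP) (h : (x * y * x⁻¹).w = true) :
    y.w = true ∧ (y.s = y.t → (x * y * x⁻¹).s = (x * y * x⁻¹).t) := by
  have hs := Int.units_mul_self x.s
  have ht := Int.units_mul_self x.t
  cases hx : x.w <;> cases hy : y.w <;> simp [hx, hy] at h ⊢
  · intro e
    rw [e]
    ac_rfl
  · intro e
    rw [e]
    ac_rfl

theorem nrm (p : ℕ) (U : Set V) (g : Fin p → SP) (c : Fin p → V) (h : IsTil p U g c) (hyp : Hyp p g)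
    (i0 : Fin p) :
    ∃ (U' : Set V) (g' : Fin p → SP) (c' : Fin p → V), IsTil p U' g' c' ∧ Hyp p g' ∧ g' i0 = 1 ∧ c' i0 = 0 ∧
      U' ⊆ sq ∧ ∀ i, mv (g' i) (c' i) '' closure U' = mv (g i) (c i) '' closure U := by
  have key : ∀ (i : Fin p) (z : V), mv (g i * (g i0)⁻¹) (c i - act (g i * (g i0)⁻¹) (c i0)) (mv (g i0) (c i0) z) =
      mv (g i) (c i) z := by
    intro i z
    rw [mv_mul, inv_mul_cancel_right, add_sub_cancel]
  have img : ∀ (i : Fin p) (T : Set V),
      mv (g i * (g i0)⁻¹) (c i - act (g i * (g i0)⁻¹) (c i0)) '' (mv (g i0) (c i0) '' T) = mv (g i) (c i) '' T := by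
    intro i T
    rw [Set.image_image]
    exact Set.image_congr (fun z _ => key i z)
  have hcl : closure (mv (g i0) (c i0) '' U) = mv (g i0) (c i0) '' closure U :=
    ((mvH (g i0) (c i0)).image_closure U).symm
  refine ⟨mv (g i0) (c i0) '' U, fun i => g i * (g i0)⁻¹, fun i => c i - act (g i * (g i0)⁻¹) (c i0),
    ⟨?_, ?_, ?_, ?_, ?_⟩, ?_, ?_, ?_, ?_, ?_⟩
  · exact (mvH (g i0) (c i0)).isOpenMap U h.opn
  · rw [hcl]
    have e : interior (mv (g i0) (c i0) '' closure U) = mv (g i0) (c i0) '' interior (closure U) :=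
      ((mvH (g i0) (c i0)).image_interior _).symm
    rw [e]
    exact Set.image_mono h.reg
  · exact h.conn.image _ (continuous_mv (g i0) (c i0)).continuousOn
  · intro i j hij
    rw [img, img]
    exact h.disj i j hij
  · rw [hcl]
    simp only [img]
    exact h.cover
  · rcases hyp with hyp | hyp
    · left
      intro i j hw
      have e : (g i * (g i0)⁻¹)⁻¹ * (g j * (g i0)⁻¹) = g i0 * ((g i)⁻¹ * g j) * (g i0)⁻¹ := by group
      dsimp only at hw ⊢
      rw [e] at hw ⊢
      obtain ⟨h1, h2⟩ := conj_aux _ _ hw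
      exact h2 (hyp i j h1)
    · right
      intro hd
      apply hyp
      have e : ∑ i, mat (g i * (g i0)⁻¹) = (∑ i, mat (g i)) * mat (g i0)⁻¹ := by
        rw [Finset.sum_mul]
        exact Finset.sum_congr rfl fun i _ => mat_mul _ _
      dsimp only at hd
      rw [e, Matrix.det_mul] at hd
      have e2 : (mat (g i0)⁻¹).det * (mat (g i0)).det = 1 := by
        rw [← Matrix.det_mul, ← mat_mul, inv_mul_cancel]
        simp [mat]
      have h3 := hd.mul_right (mat (g i0)).det
      rwa [mul_assoc, e2, mul_one] at h3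
  · exact mul_inv_cancel _
  · dsimp only
    rw [mul_inv_cancel, act_one, sub_self]
  · intro z hz
    rw [← h.cover]
    exact Set.mem_iUnion.2 ⟨i0, Set.image_mono subset_closure hz⟩
  · intro i
    rw [hcl, img]

end Pool.Agent.SQR
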