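import Pool.Agent.SQR.GenL

/-!
# SQR module RAT: from real to integer exponents

PROOF. Let `T : Finset ℝ` consist of `1`, all coordinates of the `c i` and all coordinates of the points of the
support of `F`.  Let `Λ = Submodule.span ℤ T ⊆ ℝ`, a finitely generated torsion free, hence free `ℤ`-module of
finite rank.  Let `E` be the finite set of nonzero elements of `Λ` consisting of `1` and of the nonzero ones among
the differences `(c i).1 - (c j).1`, `(c i).2 - (c j).2`.  There is a homomorphism `ψ : Λ → ℤ` with `ψ e ≠ 0` for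
all `e ∈ E` (a nonzero integer vector combination: `Module.exists_dual_forall_apply_ne_zero` or similar in Mathlib;
otherwise: in coordinates `Λ ≅ ℤ^r`, `ψ = (1, N, N², ..)` for large `N`; or first take a `ℚ`-linear functional on
`ℝ` or on the `ℚ`-span of `T` and clear denominators).  Replacing `ψ` by `-ψ` we may assume
`L = ψ 1 > 0`.  Put `d i = (ψ (c i).1, ψ (c i).2)`.  If `(d i).1 = (d j).1` then `ψ` vanishes at
`(c i).1 - (c j).1`, so this difference is `0`.

Let `j : Λ × Λ → V` be the inclusion, an injective homomorphism, and `π = ψ × ψ : Λ × Λ → ℤ × ℤ`.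
Define the signed permutation action on `Λ × Λ` by the same formula (`act` is polymorphic:
`Λ` is an additive group).  All of `F`, `single (c i) 1`, `qq K 1` are images under `mapDomainRingHom K j` of
`F'`, `single (c' i) 1`, `qq K 1'` over `Λ × Λ`; `mapDomainRingHom K j` is injective
(`AddMonoidAlgebra.mapDomain_injective`) and commutes with `sig K g`, hence `tsm K g c' F' = qq K 1'`.  Apply
`mapDomainRingHom K π`, which also commutes with `sig K g`, and put `f = mapDomain π F'`.
(General lemma: for `φ : M →+ N`, the ring homomorphism induced by `φ × φ` (`AddMonoidHom.prodMap φ φ`) maps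
`tsm K g c F` to `tsm K g (fun i => (φ (c i).1, φ (c i).2)) (mapDomain .. F)` and `qq K e` to `qq K (φ e)`; check on
`single`s by `induction_linear`.)
-/

set_option autoImplicit false

open AddMonoidAlgebra

namespace Pool.Agent.SQR

/-- The ring homomorphism induced by `φ × φ`. -/
private noncomputable def rr (K : Type*) [CommRing K] {M N : Type*} [AddCommGroup M] [AddCommGroup N]
    (φ : M →+ N) : AddMonoidAlgebra K (M × M) →+* AddMonoidAlgebra K (N × N) :=
  mapDomainRingHom K (φ.prodMap φ)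

private theorem rr_single (K : Type*) [CommRing K] {M N : Type*} [AddCommGroup M] [AddCommGroup N]
    (φ : M →+ N) (w : M × M) (a : K) : rr K φ (single w a) = single (φ w.1, φ w.2) a := by
  simp only [rr, mapDomainRingHom_apply, mapDomain_single]
  rfl

private theorem rr_sig (K : Type*) [CommRing K] {M N : Type*} [AddCommGroup M] [AddCommGroup N]
    (φ : M →+ N) (g : SP) (F : AddMonoidAlgebra K (M × M)) :
    rr K φ (sig K g F) = sig K g (rr K φ F) := by
  induction F using AddMonoidAlgebra.induction_linear with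
  | zero => simp
  | add x y hx hy => rw [map_add, map_add, map_add, map_add, hx, hy]
  | single w a =>
    rw [sig_single, rr_single, rr_single, sig_single]
    congr 1
    cases h : g.w <;> simp [act, h, map_zsmul]

private theorem rr_tsm {p : ℕ} (K : Type*) [CommRing K] {M N : Type*} [AddCommGroup M] [AddCommGroup N]
    (φ : M →+ N) (g : Fin p → SP) (c : Fin p → M × M) (F : AddMonoidAlgebra K (M × M)) :
    rr K φ (tsm K g c F) = tsm K g (fun i => (φ (c i).1, φ (c i).2)) (rr K φ F) := by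
  unfold tsm
  rw [map_sum]
  refine Finset.sum_congr rfl fun i _ => ?_
  rw [map_zsmul, map_mul, rr_single, rr_sig]

private theorem rr_qq (K : Type*) [CommRing K] {M N : Type*} [AddCommGroup M] [AddCommGroup N]
    (φ : M →+ N) (e : M) : rr K φ (qq K e) = qq K (φ e) := by
  unfold qq
  rw [map_mul, map_sub, map_sub, map_one, rr_single, rr_single, map_zero]

private theorem rat_md (K : Type*) [CommRing K] (a : V → ℤ × ℤ) (b : ℤ × ℤ → ℚ × ℚ) (c : V → ℚ × ℚ)
    (F : AddMonoidAlgebra K V) (h : ∀ w ∈ F.coeff.support, b (a w) = c w) :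
    mapDomain b (mapDomain a F) = mapDomain c F := by
  apply coeff_injective
  simp only [coeff_mapDomain]
  rw [← Finsupp.mapDomain_comp]
  exact Finsupp.mapDomain_congr h

private theorem rat_den (T : Finset ℝ) (G : ℝ → ℚ) :
    ∃ D : ℕ, 0 < D ∧ ∀ t ∈ T, ∃ n : ℤ, (n : ℚ) = D * G t := by
  refine ⟨∏ t ∈ T, (G t).den, Finset.prod_pos fun t _ => (G t).den_pos, fun t ht => ?_⟩
  obtain ⟨k, hk⟩ := Finset.dvd_prod_of_mem (fun t => (G t).den) ht
  refine ⟨k * (G t).num, ?_⟩
  rw [hk]
  push_cast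
  rw [← Rat.mul_den_eq_num (G t)]
  ring

private theorem rat_fun (S T : Finset ℝ) (hS : ∀ x ∈ S, x ≠ 0) (h1 : (1 : ℝ) ∈ S) :
    ∃ G : ℝ →+ ℚ, 0 < G 1 ∧ (∀ x ∈ S, G x ≠ 0) ∧ ∀ t ∈ T, ∃ n : ℤ, (n : ℚ) = G t := by
  obtain ⟨g, hg⟩ := Module.exists_dual_forall_apply_ne_zero (K := ℚ) (M := ℝ)
    (fun x : S => (x : ℝ)) (fun x => hS x x.2)
  obtain ⟨D, hD, hDT⟩ := rat_den T g
  have hD' : (D : ℚ) ≠ 0 := by
    exact_mod_cast hD.ne'
  have hg1 : g 1 ≠ 0 := hg ⟨1, h1⟩
  rcases lt_or_gt_of_ne hg1 with hneg | hpos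
  · refine ⟨-(D • g.toAddMonoidHom), ?_, fun x hx => ?_, fun t ht => ?_⟩
    · have : (-(D • g.toAddMonoidHom)) (1 : ℝ) = -((D : ℚ) * g 1) := by
        simp
      rw [this]
      have := mul_neg_of_pos_of_neg (show (0 : ℚ) < D by exact_mod_cast hD) hneg
      linarith
    · have h2 : (-(D • g.toAddMonoidHom)) x = -((D : ℚ) * g x) := by
        simp
      rw [h2]
      exact neg_ne_zero.2 (mul_ne_zero hD' (hg ⟨x, hx⟩))
    · obtain ⟨n, hn⟩ := hDT t ht
      refine ⟨-n, ?_⟩
      have h2 : (-(D • g.toAddMonoidHom)) t = -((D : ℚ) * g t) := by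
        simp
      rw [h2, ← hn]
      push_cast
      ring
  · refine ⟨D • g.toAddMonoidHom, ?_, fun x hx => ?_, fun t ht => ?_⟩
    · have : (D • g.toAddMonoidHom) (1 : ℝ) = (D : ℚ) * g 1 := by
        simp
      rw [this]
      exact mul_pos (show (0 : ℚ) < D by exact_mod_cast hD) hpos
    · have h2 : (D • g.toAddMonoidHom) x = (D : ℚ) * g x := by
        simp
      rw [h2]
      exact mul_ne_zero hD' (hg ⟨x, hx⟩)
    · obtain ⟨n, hn⟩ := hDT t ht
      refine ⟨n, ?_⟩
      have h2 : (D • g.toAddMonoidHom) t = (D : ℚ) * g t := by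
        simp
      rw [h2, ← hn]

theorem rat {p : ℕ} (K : Type*) [CommRing K] (g : Fin p → SP) (c : Fin p → V) (F : AddMonoidAlgebra K V)
    (h : tsm K g c F = qq K (1 : ℝ)) :
    ∃ (L : ℤ) (d : Fin p → ℤ × ℤ) (f : AddMonoidAlgebra K (ℤ × ℤ)), 0 < L ∧ tsm K g d f = qq K L ∧
      (∀ i j, (d i).1 = (d j).1 → (c i).1 = (c j).1) ∧ (∀ i j, (d i).2 = (d j).2 → (c i).2 = (c j).2) := by
  classical
  set S1 : Finset ℝ := (Finset.univ.image fun ij : Fin p × Fin p => (c ij.1).1 - (c ij.2).1) with hS1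
  set S2 : Finset ℝ := (Finset.univ.image fun ij : Fin p × Fin p => (c ij.1).2 - (c ij.2).2) with hS2
  set S : Finset ℝ := (insert 1 (S1 ∪ S2)).filter (fun x => x ≠ 0) with hSd
  set T : Finset ℝ := insert 1 ((Finset.univ.image fun i => (c i).1) ∪ (Finset.univ.image fun i => (c i).2) ∪
    ((F.coeff.support.image Prod.fst) ∪ (F.coeff.support.image Prod.snd))) with hTd
  obtain ⟨G, hG1, hGS, hGT⟩ := rat_fun S T (fun x hx => (Finset.mem_filter.1 hx).2)
    (Finset.mem_filter.2 ⟨Finset.mem_insert_self _ _, one_ne_zero⟩)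
  have hfl : ∀ t ∈ T, ((⌊G t⌋ : ℤ) : ℚ) = G t := by
    intro t ht
    obtain ⟨n, hn⟩ := hGT t ht
    rw [← hn, Int.floor_intCast]
  have h1T : (1 : ℝ) ∈ T := Finset.mem_insert_self _ _
  have hc1 : ∀ i, (c i).1 ∈ T := fun i => Finset.mem_insert_of_mem (Finset.mem_union_left _
    (Finset.mem_union_left _ (Finset.mem_image_of_mem _ (Finset.mem_univ i))))
  have hc2 : ∀ i, (c i).2 ∈ T := fun i => Finset.mem_insert_of_mem (Finset.mem_union_left _
    (Finset.mem_union_right _ (Finset.mem_image_of_mem _ (Finset.mem_univ i))))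
  have hF1 : ∀ w ∈ F.coeff.support, w.1 ∈ T := fun w hw => Finset.mem_insert_of_mem
    (Finset.mem_union_right _ (Finset.mem_union_left _ (Finset.mem_image_of_mem _ hw)))
  have hF2 : ∀ w ∈ F.coeff.support, w.2 ∈ T := fun w hw => Finset.mem_insert_of_mem
    (Finset.mem_union_right _ (Finset.mem_union_right _ (Finset.mem_image_of_mem _ hw)))
  refine ⟨⌊G 1⌋, fun i => (⌊G (c i).1⌋, ⌊G (c i).2⌋), mapDomain (fun w : V => (⌊G w.1⌋, ⌊G w.2⌋)) F,
    ?_, ?_, ?_, ?_⟩
  · have h2 := hfl 1 h1T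
    rw [← h2] at hG1
    exact_mod_cast hG1
  · have hinj : Function.Injective (rr K (Int.castAddHom ℚ)) := by
      have h2 : Function.Injective ⇑((Int.castAddHom ℚ).prodMap (Int.castAddHom ℚ)) := by
        intro x y hxy
        have h3 : (((x.1 : ℤ) : ℚ), ((x.2 : ℤ) : ℚ)) = (((y.1 : ℤ) : ℚ), ((y.2 : ℤ) : ℚ)) := hxy
        rw [Prod.mk.injEq, Int.cast_inj, Int.cast_inj] at h3
        exact Prod.ext h3.1 h3.2
      exact mapDomain_injective h2
    apply hinj
    have hF : rr K (Int.castAddHom ℚ) (mapDomain (fun w : V => (⌊G w.1⌋, ⌊G w.2⌋)) F) = rr K G F := by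
      refine rat_md K _ _ _ F fun w hw => ?_
      exact Prod.ext (hfl _ (hF1 w hw)) (hfl _ (hF2 w hw))
    rw [rr_tsm, rr_qq, hF]
    have h3 : (fun i => ((Int.castAddHom ℚ) (⌊G (c i).1⌋), (Int.castAddHom ℚ) (⌊G (c i).2⌋)))
        = fun i => (G (c i).1, G (c i).2) := by
      funext i
      exact Prod.ext (hfl _ (hc1 i)) (hfl _ (hc2 i))
    have h4 : (Int.castAddHom ℚ) ⌊G 1⌋ = G 1 := hfl 1 h1T
    have h5 := congrArg (rr K G) h
    rw [rr_tsm, rr_qq] at h5
    rw [h4, ← h5]
    exact congrArg (fun d => tsm K g d (rr K G F)) h3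
  · intro i j hij
    by_contra hne
    have hne' : (c i).1 - (c j).1 ≠ 0 := sub_ne_zero.2 hne
    have hmem : (c i).1 - (c j).1 ∈ S := Finset.mem_filter.2 ⟨Finset.mem_insert_of_mem
      (Finset.mem_union_left _ (Finset.mem_image.2 ⟨(i, j), Finset.mem_univ _, rfl⟩)), hne'⟩
    apply hGS _ hmem
    have e1 : ⌊G (c i).1⌋ = ⌊G (c j).1⌋ := hij
    rw [map_sub, ← hfl _ (hc1 i), ← hfl _ (hc1 j), e1, sub_self]
  · intro i j hij
    by_contra hne
    have hne' : (c i).2 - (c j).2 ≠ 0 := sub_ne_zero.2 hne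
    have hmem : (c i).2 - (c j).2 ∈ S := Finset.mem_filter.2 ⟨Finset.mem_insert_of_mem
      (Finset.mem_union_right _ (Finset.mem_image.2 ⟨(i, j), Finset.mem_univ _, rfl⟩)), hne'⟩
    apply hGS _ hmem
    have e1 : ⌊G (c i).2⌋ = ⌊G (c j).2⌋ := hij
    rw [map_sub, ← hfl _ (hc2 i), ← hfl _ (hc2 j), e1, sub_self]

end Pool.Agent.SQR
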