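import Pool.Agent.SQR.Tsm

/-!
# SQR module SLA: diagonal linear parts, the structure of the corner sum modulo 2

PROOF. Write `K = ZMod 2`, `a i = (c i).1`, and for `b : ℝ` let `single (a, b)` mean `single (a, b) 1`.  In
characteristic 2, `chi (g i) • G = G`.  Let `T G = ∑ i, single (a i, 0) * sig K ⟨s_i, 1, false⟩ G` (additive in
`G`) and `ι G = single (0, 1) * sig K ⟨1, -1, false⟩ G`, an additive involution which commutes with `T`.
(1) The hypothesis reads `∑_{t_i = 1} single (a i, 0) * sig ⟨s_i, 1⟩ F + ∑_{t_i = -1} single (a i, 0) * sig ⟨s_i, 1⟩ (ι F) = q`,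
`q = qq K 1`.  Apply `ι` (`ι q = q` in characteristic 2, `ι (ι F) = F`) and add the two equations:
`T (F + ι F) = 0`.
(2) `T` is injective: put `A = ∑_{s_i = 1} single (a i, 0)`, `B = ∑_{s_i = -1} single (a i, 0)` and
`G* = sig K ⟨-1, 1, false⟩ G`, so that `T G = A * G + B * G*`.  If `T G = 0` then `A * G = B * G*` and, applying `*`,
`A* * G* = B* * G`; so `A * A* * (G * G*) = B * B* * (G * G*)`.  If `G ≠ 0` then `G* ≠ 0` and, the group ring
`AddMonoidAlgebra (ZMod 2) (ℝ × ℝ)` being a domain (instances), `A * A* = B * B*`; apply `aug`: with `m, n` the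
numbers of `i` with `s_i = 1`, `s_i = -1`, `m ^ 2 = n ^ 2` in `ZMod 2`, so `m + n = p` is even, a contradiction.
(3) So `F = ι F` (characteristic 2), and the hypothesis becomes `T F = q`.
(4) Let `π_b` be the additive projection keeping the terms with second coordinate `b` (for instance
`AddMonoidAlgebra.ofCoeff (Finsupp.filter (fun w => w.2 = b) ..)`, additive, determined on `single`s).  It commutes
with `T` (check on `single`s: `T` does not change the second coordinate), so for `b ≠ 0, 1`,
`T (π_b F) = π_b q = 0`, and `π_b F = 0` by (2).  So the coefficients of `F` at `w` with `w.2 ≠ 0, 1` vanish.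
-/

set_option autoImplicit false

open AddMonoidAlgebra

namespace Pool.Agent.SQR

private abbrev R2 : Type := AddMonoidAlgebra (ZMod 2) V

private theorem dbl (G : R2) : G + G = 0 := by
  have h2 : (2 : ZMod 2) = 0 := by decide
  have h1 : G + G = (2 : ZMod 2) • G := by rw [two_smul]
  rw [h1, h2, zero_smul]

private theorem neg2 (G : R2) : -G = G := (eq_neg_of_add_eq_zero_left (dbl G)).symm

private theorem eq_of_add (F G : R2) (h : F + G = 0) : F = G := by
  rw [eq_neg_of_add_eq_zero_left h, neg2]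

private theorem chi_smul2 (g : SP) (G : R2) : chi g • G = G := by
  unfold chi
  rcases Int.units_eq_one_or g.s with h1 | h1 <;> rcases Int.units_eq_one_or g.t with h2 | h2 <;>
    simp [h1, h2, neg2]

/-- One term of `T`. -/
private noncomputable def UU (a : ℝ) (s : ℤˣ) (G : R2) : R2 :=
  single (a, (0 : ℝ)) 1 * sig (ZMod 2) ⟨s, 1, false⟩ G

private noncomputable def io (G : R2) : R2 := single ((0 : ℝ), (1 : ℝ)) 1 * sig (ZMod 2) ⟨1, -1, false⟩ G

private theorem UU_add (a : ℝ) (s : ℤˣ) (G H : R2) : UU a s (G + H) = UU a s G + UU a s H := by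
  unfold UU
  rw [map_add, mul_add]

private theorem io_add (G H : R2) : io (G + H) = io G + io H := by
  unfold io
  rw [map_add, mul_add]

private theorem io_sum {ι : Type*} (t : Finset ι) (f : ι → R2) : io (∑ i ∈ t, f i) = ∑ i ∈ t, io (f i) := by
  unfold io
  rw [map_sum, Finset.mul_sum]

private theorem spmul (s t s' t' : ℤˣ) :
    (⟨s, t, false⟩ : SP) * ⟨s', t', false⟩ = ⟨s * s', t * t', false⟩ := by
  apply SP.ext' <;> simp

private theorem UU_io (a : ℝ) (s : ℤˣ) (G : R2) :
    UU a s (io G) = single (a, (1 : ℝ)) 1 * sig (ZMod 2) ⟨s, -1, false⟩ G := by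
  unfold UU io
  rw [map_mul, sig_single, ← sig_mul, spmul, ← mul_assoc, single_mul_single]
  simp [act]

private theorem io_UU (a : ℝ) (s : ℤˣ) (G : R2) : io (UU a s G) = UU a s (io G) := by
  rw [UU_io]
  unfold UU io
  rw [map_mul, sig_single, ← sig_mul, spmul, ← mul_assoc, single_mul_single]
  simp [act]

private theorem io_io (G : R2) : io (io G) = G := by
  unfold io
  rw [map_mul, sig_single, ← sig_mul, spmul, ← mul_assoc, single_mul_single]
  have h1 : (⟨1 * 1, -1 * -1, false⟩ : SP) = 1 := by apply SP.ext' <;> simp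
  rw [h1, sig_one]
  have h2 : ((0 : ℝ), (1 : ℝ)) + act ⟨1, -1, false⟩ ((0 : ℝ), (1 : ℝ)) = 0 := by
    ext <;> simp [act]
  rw [h2, mul_one, ← one_def, one_mul]

private theorem io_qq : io (qq (ZMod 2) (1 : ℝ)) = qq (ZMod 2) (1 : ℝ) := by
  unfold io qq
  rw [map_mul, map_sub, map_sub, sig_single, sig_single, map_one]
  have h1 : act ⟨1, -1, false⟩ ((1 : ℝ), (0 : ℝ)) = (1, 0) := by simp [act]
  have h2 : act ⟨1, -1, false⟩ ((0 : ℝ), (1 : ℝ)) = (0, -1) := by simp [act]
  have h3 : (single ((0 : ℝ), (1 : ℝ)) 1 * single ((0 : ℝ), (-1 : ℝ)) 1 : R2) = 1 := by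
    have h5 : ((0 : ℝ), (1 : ℝ)) + ((0 : ℝ), (-1 : ℝ)) = 0 := by ext <;> simp
    rw [single_mul_single, one_def, h5, mul_one]
  rw [h1, h2]
  have h4 : (single ((0 : ℝ), (1 : ℝ)) 1 * ((single ((1 : ℝ), (0 : ℝ)) 1 - 1) *
      (single ((0 : ℝ), (-1 : ℝ)) 1 - 1)) : R2) =
      -((single ((1 : ℝ), (0 : ℝ)) 1 - 1) * (single ((0 : ℝ), (1 : ℝ)) 1 - 1)) := by
    linear_combination (single ((1 : ℝ), (0 : ℝ)) 1 - 1 : R2) * h3
  rw [h4, neg2]

private noncomputable def TT {p : ℕ} (g : Fin p → SP) (c : Fin p → V) (G : R2) : R2 :=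
  ∑ i, UU (c i).1 (g i).s G

private theorem TT_add {p : ℕ} (g : Fin p → SP) (c : Fin p → V) (G H : R2) :
    TT g c (G + H) = TT g c G + TT g c H := by
  unfold TT
  rw [← Finset.sum_add_distrib]
  exact Finset.sum_congr rfl fun i _ => UU_add _ _ _ _

private noncomputable def stf (G : R2) : R2 := sig (ZMod 2) ⟨-1, 1, false⟩ G

private theorem stf_mul (G H : R2) : stf (G * H) = stf G * stf H := by
  unfold stf
  rw [map_mul]

private theorem stf_stf (G : R2) : stf (stf G) = G := by
  unfold stf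
  rw [← sig_mul, spmul]
  have h1 : (⟨-1 * -1, 1 * 1, false⟩ : SP) = 1 := by apply SP.ext' <;> simp
  rw [h1, sig_one]

private theorem TT_eq {p : ℕ} (g : Fin p → SP) (c : Fin p → V) (G : R2) :
    TT g c G = (∑ i with (g i).s = 1, single ((c i).1, (0 : ℝ)) 1) * G +
      (∑ i with ¬ (g i).s = 1, single ((c i).1, (0 : ℝ)) 1) * stf G := by
  unfold TT
  rw [← Finset.sum_filter_add_sum_filter_not Finset.univ (fun i => (g i).s = 1), Finset.sum_mul,
    Finset.sum_mul]
  congr 1
  · refine Finset.sum_congr rfl fun i hi => ?_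
    rw [Finset.mem_filter] at hi
    unfold UU
    rw [hi.2]
    have h1 : (⟨1, 1, false⟩ : SP) = 1 := rfl
    rw [h1, sig_one]
  · refine Finset.sum_congr rfl fun i hi => ?_
    rw [Finset.mem_filter] at hi
    unfold UU stf
    rcases Int.units_eq_one_or (g i).s with h1 | h1
    · exact absurd h1 hi.2
    · rw [h1]

private theorem TT_inj {p : ℕ} (hp : Odd p) (g : Fin p → SP) (c : Fin p → V) (G : R2)
    (h : TT g c G = 0) : G = 0 := by
  by_contra hG
  rw [TT_eq] at h
  set A : R2 := ∑ i with (g i).s = 1, single ((c i).1, (0 : ℝ)) 1 with hA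
  set B : R2 := ∑ i with ¬ (g i).s = 1, single ((c i).1, (0 : ℝ)) 1 with hB
  have h1 : A * G = B * stf G := eq_of_add _ _ h
  have h2 : stf A * stf G = stf B * G := by
    have h3 := congrArg stf h1
    rwa [stf_mul, stf_mul, stf_stf] at h3
  have hs : stf G ≠ 0 := by
    intro h3
    apply hG
    rw [← stf_stf G, h3]
    unfold stf
    rw [map_zero]
  have h3 : (A * stf A - B * stf B) * (G * stf G) = 0 := by
    linear_combination stf A * stf G * h1 + B * stf G * h2
  have h4 : A * stf A - B * stf B = 0 := by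
    rcases mul_eq_zero.mp h3 with h5 | h5
    · exact h5
    · exact absurd h5 (mul_ne_zero hG hs)
  have h5 := congrArg (aug (ZMod 2)) h4
  have hAa : aug (ZMod 2) A = ((Finset.univ.filter fun i => (g i).s = 1).card : ZMod 2) := by
    rw [hA, map_sum]
    simp
  have hBa : aug (ZMod 2) B = ((Finset.univ.filter fun i => ¬ (g i).s = 1).card : ZMod 2) := by
    rw [hB, map_sum]
    simp
  have h6 : ∀ X : R2, aug (ZMod 2) (stf X) = aug (ZMod 2) X := fun X => aug_sig _ _ X
  rw [map_sub, map_mul, map_mul, h6, h6, map_zero] at h5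
  have h7 : (((Finset.univ.filter fun i => (g i).s = 1).card +
      (Finset.univ.filter fun i => ¬ (g i).s = 1).card : ℕ) : ZMod 2) = 0 := by
    rw [Nat.cast_add, ← hAa, ← hBa]
    generalize aug (ZMod 2) A = x at h5
    generalize aug (ZMod 2) B = y at h5
    revert x y
    decide
  rw [Finset.card_filter_add_card_filter_not, Finset.card_univ, Fintype.card_fin] at h7
  have h8 : (2 : ℕ) ∣ p := (ZMod.natCast_eq_zero_iff p 2).mp h7
  rcases hp with ⟨k, hk⟩
  omega

open Classical in
/-- The projection. -/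
private noncomputable def pj (b : ℝ) (G : R2) : R2 := ofCoeff (G.coeff.filter fun w => w.2 = b)

open Classical in
private theorem pj_add (b : ℝ) (G H : R2) : pj b (G + H) = pj b G + pj b H := by
  unfold pj
  rw [coeff_add, Finsupp.filter_add, ofCoeff_add]

open Classical in
private theorem pj_single (b : ℝ) (w : V) (a : ZMod 2) :
    pj b (single w a) = if w.2 = b then single w a else 0 := by
  unfold pj
  rw [coeff_single]
  by_cases h : w.2 = b
  · rw [if_pos h, Finsupp.filter_single_of_pos (fun w : V => w.2 = b) h]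
    rfl
  · rw [if_neg h, Finsupp.filter_single_of_neg (fun w : V => w.2 = b) h]
    rfl

private theorem pj_zero (b : ℝ) : pj b 0 = 0 := by
  have h := pj_add b 0 0
  rw [add_zero] at h
  have h1 : pj b 0 + 0 = pj b 0 + pj b 0 := by rw [add_zero]; exact h
  exact (add_left_cancel h1).symm

private theorem pj_sum {ι : Type*} (b : ℝ) (t : Finset ι) (f : ι → R2) :
    pj b (∑ i ∈ t, f i) = ∑ i ∈ t, pj b (f i) := by
  classical
  induction t using Finset.induction_on with
  | empty => rw [Finset.sum_empty, Finset.sum_empty, pj_zero]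
  | insert a s ha ih => rw [Finset.sum_insert ha, Finset.sum_insert ha, pj_add, ih]

private theorem pj_UU (b a : ℝ) (s : ℤˣ) (G : R2) : pj b (UU a s G) = UU a s (pj b G) := by
  induction G using AddMonoidAlgebra.induction_linear with
  | zero =>
    rw [pj_zero]
    unfold UU
    rw [map_zero, mul_zero, pj_zero]
  | add x y hx hy => rw [UU_add, pj_add, pj_add, UU_add, hx, hy]
  | single w r =>
    have h1 : UU a s (single w r) = single ((a, (0 : ℝ)) + act ⟨s, 1, false⟩ w) r := by
      unfold UU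
      rw [sig_single, single_mul_single, one_mul]
    have h2 : ((a, (0 : ℝ)) + act ⟨s, 1, false⟩ w).2 = w.2 := by simp [act]
    rw [h1, pj_single, pj_single, h2]
    split
    · rw [h1]
    · unfold UU
      rw [map_zero, mul_zero]

private theorem pj_qq (b : ℝ) (h0 : b ≠ 0) (h1 : b ≠ 1) : pj b (qq (ZMod 2) (1 : ℝ)) = 0 := by
  have h2 : qq (ZMod 2) (1 : ℝ) = single ((1 : ℝ), (1 : ℝ)) 1 + (single ((1 : ℝ), (0 : ℝ)) 1 +
      (single ((0 : ℝ), (1 : ℝ)) 1 + single ((0 : ℝ), (0 : ℝ)) 1)) := by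
    unfold qq
    have h3 : (single ((1 : ℝ), (0 : ℝ)) 1 * single ((0 : ℝ), (1 : ℝ)) 1 : R2) =
        single ((1 : ℝ), (1 : ℝ)) 1 := by
      rw [single_mul_single]
      simp
    have h4 : (single ((0 : ℝ), (0 : ℝ)) 1 : R2) = 1 := by
      rw [one_def]
      rfl
    rw [h4]
    linear_combination h3 - dbl (single ((1 : ℝ), (0 : ℝ)) 1) - dbl (single ((0 : ℝ), (1 : ℝ)) 1)
  rw [h2, pj_add, pj_add, pj_add, pj_single, pj_single, pj_single, pj_single]
  have h3 : ¬ (0 : ℝ) = b := fun h => h0 h.symm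
  have h4 : ¬ (1 : ℝ) = b := fun h => h1 h.symm
  simp [h3, h4]

theorem sla (p : ℕ) (hp : Odd p) (g : Fin p → SP) (hg : ∀ i, (g i).w = false) (c : Fin p → V)
    (hc : ∀ i, (c i).2 = if (g i).t = 1 then 0 else 1) (F : AddMonoidAlgebra (ZMod 2) V)
    (h : tsm (ZMod 2) g c F = qq (ZMod 2) (1 : ℝ)) : ∀ w, F.coeff w ≠ 0 → w.2 = 0 ∨ w.2 = 1 := by
  have h1 : ∀ i, chi (g i) • (single (c i) (1 : ZMod 2) * sig (ZMod 2) (g i) F) =
      UU (c i).1 (g i).s (if (g i).t = 1 then F else io F) := by
    intro i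
    rw [chi_smul2]
    have hci := hc i
    have hgi := hg i
    generalize c i = z at hci
    generalize g i = y at hci hgi
    obtain ⟨z1, z2⟩ := z
    obtain ⟨s, t, w⟩ := y
    simp only at hci hgi ⊢
    subst hgi
    rcases Int.units_eq_one_or t with ht | ht
    · subst ht
      rw [if_pos rfl] at hci ⊢
      rw [hci]
      rfl
    · subst ht
      have h3 : ¬ ((-1 : ℤˣ) = 1) := by decide
      rw [if_neg h3] at hci ⊢
      rw [UU_io, hci]
  have h2 : ∑ i, UU (c i).1 (g i).s (if (g i).t = 1 then F else io F) = qq (ZMod 2) (1 : ℝ) := by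
    rw [← h]
    unfold tsm
    exact (Finset.sum_congr rfl fun i _ => h1 i).symm
  have h3 : ∑ i, UU (c i).1 (g i).s (if (g i).t = 1 then io F else F) = qq (ZMod 2) (1 : ℝ) := by
    rw [← io_qq, ← h2, io_sum]
    refine Finset.sum_congr rfl fun i _ => ?_
    rw [io_UU]
    split
    · rfl
    · rw [io_io]
  have h4 : TT g c (F + io F) = 0 := by
    have h5 : TT g c (F + io F) = ∑ i, UU (c i).1 (g i).s (if (g i).t = 1 then F else io F) +
        ∑ i, UU (c i).1 (g i).s (if (g i).t = 1 then io F else F) := by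
      unfold TT
      rw [← Finset.sum_add_distrib]
      refine Finset.sum_congr rfl fun i _ => ?_
      rw [UU_add]
      split
      · rfl
      · rw [add_comm]
    rw [h5, h2, h3, dbl]
  have h5 : F = io F := eq_of_add _ _ (TT_inj hp g c _ h4)
  have h6 : TT g c F = qq (ZMod 2) (1 : ℝ) := by
    rw [← h2]
    unfold TT
    refine Finset.sum_congr rfl fun i _ => ?_
    rw [← h5]
    split <;> rfl
  intro w hw
  by_contra hcon
  rw [not_or] at hcon
  have h7 : TT g c (pj w.2 F) = 0 := by
    have h8 : TT g c (pj w.2 F) = pj w.2 (TT g c F) := by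
      unfold TT
      rw [pj_sum]
      exact (Finset.sum_congr rfl fun i _ => pj_UU _ _ _ _).symm
    rw [h8, h6, pj_qq _ hcon.1 hcon.2]
  have h8 : pj w.2 F = 0 := TT_inj hp g c _ h7
  classical
  have h9 : (pj w.2 F).coeff w = F.coeff w := by
    unfold pj
    rw [coeff_ofCoeff, Finsupp.filter_apply, if_pos rfl]
  rw [h8] at h9
  exact hw h9.symm

end Pool.Agent.SQR
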