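import Pool.Agent.SQR.GenL

/-!
# SQR module SLB: the piece is a product

PROOF. Let `E = Prod.fst '' U`.  `U ⊆ interior sq` (`U` is open), so every `z ∈ U` has `0 < z.2 < 1` (the interior of
`sq` is `Ioo 0 1 ×ˢ Ioo 0 1`; or directly: a point of `U` with `z.2 = 0` has neighbours with negative second
coordinate in `U`).  It remains to show: if `(x, y) ∈ U` and `0 < y' < 1` then `(x, y') ∈ U`.
Choose an open dense set `O` on which `Phi F = ind U`, and `ε > 0` such that the box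
`(x - ε, x + ε) × (y - ε, y + ε)` is contained in `U` and in `sq` (so `y ± ε ∈ [0, 1]`).
`Phi F z` for `0 < z.2 < 1` is `m (z.1)`, `m x = ∑_{w.1 ≤ x, w.2 = 0} F_w`, since the support points satisfy
`w.2 = 0` (always `≤ z.2`) or `w.2 = 1` (never).  Let `S` be the finite set of the first coordinates of the support.
`m` is constant on a neighbourhood of each point not in `S`.
Claim: `m x' = 1` for every `x' ∈ (x - ε, x + ε)` with `x' ∉ S`: there is a neighbourhood `N` of `x'` on which `m` is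
constant, contained in `(x - ε, x + ε)`; the open set `N × (y - ε, y + ε) ⊆ U` meets `O`, and there `Phi F = 1`.
So `Phi F z = 1` for all `z` with `z.1 ∈ (x - ε, x + ε) \ S` and `0 < z.2 < 1`; those of them in `O` belong to `U`.
These points are dense in the open box `B = (x - ε, x + ε) × (0, 1)`, so `B ⊆ closure U`, `B ⊆ interior (closure U) ⊆ U`
and `(x, y') ∈ U`.
-/

set_option autoImplicit false

open AddMonoidAlgebra

namespace Pool.Agent.SQR

private theorem slb_Phi (F : AddMonoidAlgebra (ZMod 2) V) (h01 : ∀ w, F.coeff w ≠ 0 → w.2 = 0 ∨ w.2 = 1)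
    {z z' : V} (hz : 0 < z.2 ∧ z.2 < 1) (hz' : 0 < z'.2 ∧ z'.2 < 1)
    (h : ∀ s ∈ F.coeff.support.image Prod.fst, (s ≤ z.1 ↔ s ≤ z'.1)) : Phi F z = Phi F z' := by
  unfold Phi
  refine Finset.sum_congr rfl fun w hw => ?_
  have h1 := h w.1 (Finset.mem_image_of_mem _ hw)
  have h2 := h01 w (Finsupp.mem_support_iff.1 hw)
  have h3 : (w.2 ≤ z.2 ↔ w.2 ≤ z'.2) := by
    rcases h2 with h2 | h2
    · rw [h2]
      exact ⟨fun _ => hz'.1.le, fun _ => hz.1.le⟩
    · rw [h2]
      constructor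
      · intro h4
        linarith [hz.2]
      · intro h4
        linarith [hz'.2]
  simp only [h1, h3]

private theorem slb_nhds (S : Finset ℝ) (x : ℝ) (hx : x ∉ S) :
    ∀ᶠ y in nhds x, ∀ s ∈ S, (s ≤ y ↔ s ≤ x) := by
  rw [Filter.eventually_all_finset]
  intro s hs
  have hne : s ≠ x := fun h => hx (h ▸ hs)
  rcases lt_or_gt_of_ne hne with h | h
  · filter_upwards [eventually_gt_nhds h] with y hy
    exact ⟨fun _ => h.le, fun _ => hy.le⟩
  · filter_upwards [eventually_lt_nhds h] with y hy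
    exact ⟨fun h1 => by linarith, fun h1 => by linarith⟩

theorem slb (U : Set V) (hU : IsOpen U) (hr : interior (closure U) ⊆ U) (hsq : U ⊆ sq)
    (F : AddMonoidAlgebra (ZMod 2) V) (hF : Gen (Phi F) (ind (ZMod 2) U))
    (h01 : ∀ w, F.coeff w ≠ 0 → w.2 = 0 ∨ w.2 = 1) :
    ∃ E : Set ℝ, U = {z : V | z.1 ∈ E ∧ 0 < z.2 ∧ z.2 < 1} := by
  have hin : ∀ z ∈ U, 0 < z.2 ∧ z.2 < 1 := by
    intro z hz
    have h1 : z ∈ interior sq := interior_maximal hsq hU hz
    have h2 : sq = Set.Icc (0 : ℝ) 1 ×ˢ Set.Icc (0 : ℝ) 1 := by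
      ext z
      rfl
    rw [h2, interior_prod_eq, interior_Icc] at h1
    exact h1.2
  obtain ⟨O, hO, hOd, hOF⟩ := hF
  set S : Finset ℝ := F.coeff.support.image Prod.fst with hS
  have key : ∀ x y y' : ℝ, (x, y) ∈ U → 0 < y' → y' < 1 → (x, y') ∈ U := by
    intro x y y' hxy h0 h1
    obtain ⟨ε, hε, hball⟩ := Metric.isOpen_iff.1 hU (x, y) hxy
    rw [← ball_prod_same] at hball
    have hy := hin _ hxy
    set O' : Set V := O ∩ {z : V | Off S z} with hO'
    have hO'o : IsOpen O' := hO.inter (isOpen_off S)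
    have hO'd : Dense O' := hOd.inter_of_isOpen_left (dense_off S) hO
    set B : Set V := Metric.ball x ε ×ˢ Set.Ioo (0 : ℝ) 1 with hB
    have hBo : IsOpen B := Metric.isOpen_ball.prod isOpen_Ioo
    have hsub : B ∩ O' ⊆ U := by
      rintro z ⟨⟨hz1, hz2⟩, hz3, hz4⟩
      have hzS : z.1 ∉ S := hz4.1
      obtain ⟨N, hN, hNo, hzN⟩ := eventually_nhds_iff.1 (slb_nhds S z.1 hzS)
      have hne : ((N ∩ Metric.ball x ε) ×ˢ (Metric.ball y ε ∩ Set.Ioo (0 : ℝ) 1) : Set V).Nonempty :=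
        ⟨(z.1, y), ⟨hzN, hz1⟩, Metric.mem_ball_self hε, hy⟩
      obtain ⟨z0, ⟨⟨h2, h3⟩, h4, h5⟩, h6⟩ := hOd.inter_open_nonempty _
        ((hNo.inter Metric.isOpen_ball).prod (Metric.isOpen_ball.inter isOpen_Ioo)) hne
      have h7 : z0 ∈ U := hball ⟨h3, h4⟩
      have h8 : Phi F z = Phi F z0 := slb_Phi F h01 hz2 h5 (fun s hs => (hN z0.1 h2 s hs).symm)
      rw [hOF z hz3, hOF z0 h6] at h8
      unfold ind at h8
      rw [if_pos h7] at h8
      by_contra hcon
      rw [if_neg hcon] at h8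
      exact zero_ne_one h8
    have hBc : B ⊆ closure U := (hO'd.open_subset_closure_inter hBo).trans (closure_mono hsub)
    have hBU : B ⊆ U := (interior_maximal hBc hBo).trans hr
    exact hBU ⟨Metric.mem_ball_self hε, h0, h1⟩
  refine ⟨{x | (x, 1 / 2) ∈ U}, ?_⟩
  ext z
  constructor
  · intro hz
    exact ⟨key z.1 z.2 (1 / 2) hz (by norm_num) (by norm_num), hin z hz⟩
  · rintro ⟨h1, h2, h3⟩
    exact key z.1 (1 / 2) z.2 h1 h2 h3

end Pool.Agent.SQR
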