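import Pool.Agent.SQR.GenL

/-!
# SQR module SWP: exchanging the coordinates

PROOF. Write `τ = ⟨1, 1, true⟩` (`τ⁻¹ = τ`, `act τ z = (z.2, z.1)`); `act τ` is a homeomorphism (`mvH τ 0`).
`mv (τ * g i * τ⁻¹) (act τ (c i)) (act τ z) = act τ (mv (g i) (c i) z)` (`act_mul`, `map_add`), so the images of
`act τ '' U` are the images under `act τ` of the old pieces; closures and interiors are compatible with
homeomorphisms, and `act τ '' sq = sq`.
-/

set_option autoImplicit false

open AddMonoidAlgebra

namespace Pool.Agent.SQR

/-- The exchange of the coordinates. -/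
def tau : SP := ⟨1, 1, true⟩

private theorem act_tau (z : V) : act tau z = (z.2, z.1) := by
  simp [act, tau]

/-- The exchange as a homeomorphism. -/
private noncomputable def tauH : V ≃ₜ V := mvH tau 0

private theorem tauH_apply : (tauH : V → V) = act tau := by
  funext z
  show mv tau 0 z = act tau z
  simp [mv]

private theorem img_act (g : SP) (c : V) (A : Set V) :
    mv (tau * g * tau⁻¹) (act tau c) '' (act tau '' A) = act tau '' (mv g c '' A) := by
  rw [Set.image_image, Set.image_image]
  congr 1
  funext z
  unfold mv
  rw [map_add, act_mul, act_mul, act_inv_act]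

private theorem sq_tau : act tau '' sq = sq := by
  ext z
  constructor
  · rintro ⟨w, hw, rfl⟩
    rw [act_tau]
    exact ⟨hw.2, hw.1⟩
  · intro hz
    refine ⟨(z.2, z.1), ⟨hz.2, hz.1⟩, ?_⟩
    rw [act_tau]

theorem til_swap (p : ℕ) (U : Set V) (g : Fin p → SP) (c : Fin p → V) (h : IsTil p U g c) :
    IsTil p (act tau '' U) (fun i => tau * g i * tau⁻¹) (fun i => act tau (c i)) ∧
      ∀ i, mv (tau * g i * tau⁻¹) (act tau (c i)) '' closure (act tau '' U) =
        act tau '' (mv (g i) (c i) '' closure U) := by
  have hcl : closure (act tau '' U) = act tau '' closure U := by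
    rw [← tauH_apply, Homeomorph.image_closure]
  have hinj : Function.Injective (act tau : V → V) := by
    rw [← tauH_apply]
    exact tauH.injective
  have h2 : ∀ i, mv (tau * g i * tau⁻¹) (act tau (c i)) '' closure (act tau '' U) =
        act tau '' (mv (g i) (c i) '' closure U) := by
    intro i
    rw [hcl, img_act]
  refine ⟨⟨?_, ?_, ?_, ?_, ?_⟩, h2⟩
  · rw [← tauH_apply]
    exact tauH.isOpenMap _ h.opn
  · rw [hcl, ← tauH_apply, ← Homeomorph.image_interior]
    exact Set.image_mono h.reg
  · exact h.conn.image _ (continuous_act tau).continuousOn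
  · intro i j hij
    simp only [img_act]
    exact (Set.disjoint_image_iff hinj).mpr (h.disj i j hij)
  · simp only [h2]
    rw [← Set.image_iUnion, h.cover, sq_tau]

end Pool.Agent.SQR
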