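import Pool.Agent.SQR.Defs

/-!
# SQR module STP: intervals of equal length covering the unit interval

PROOF. Let `σ = Tuple.sort e`, so that `e ∘ σ` is monotone (`Tuple.monotone_sort`).  For `k < k'` (as elements of
`Fin p`): `e (σ k) ≤ e (σ k')`, and `hd` gives `e (σ k) + l ≤ e (σ k')` (the other alternative
`e (σ k') + l ≤ e (σ k)` contradicts `l > 0`).
Claim: `e (σ k) = k * l` for every `k`, by strong induction on `k`.  `e (σ k) ≥ k * l`: for `k = 0`, `e (σ 0) ≥ 0` since
`e (σ 0)` is a point of its own interval (`hc`); for `k + 1`: `≥ e (σ k) + l = (k + 1) * l`.  Suppose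
`e (σ k) > k * l`.  Every `k' ≥ k` has `e (σ k') ≥ e (σ k) > k * l` and every `k' < k` has
`e (σ k') + l = (k' + 1) * l ≤ k * l`.  Choose a point `x` with `k * l < x < e (σ k)`; it is in none of the intervals,
but `0 ≤ x ≤ 1` (`x < e (σ k) ≤ 1`), contradicting `hc`.
Finally `p * l = 1`: the last interval ends at `(p - 1) * l + l = p * l`, which is at most `1` (`hc`); if `p * l < 1` then
`1` is in none of the intervals.
-/

set_option autoImplicit false

open AddMonoidAlgebra

namespace Pool.Agent.SQR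

theorem stp (p : ℕ) (hp : 0 < p) (e : Fin p → ℝ) (l : ℝ) (hl : 0 < l)
    (hd : ∀ i j, i ≠ j → e i + l ≤ e j ∨ e j + l ≤ e i)
    (hc : ∀ x, (∃ i, e i ≤ x ∧ x ≤ e i + l) ↔ (0 ≤ x ∧ x ≤ 1)) :
    l = 1 / p ∧ ∃ σ : Equiv.Perm (Fin p), ∀ k : Fin p, e (σ k) = ((k : ℕ) : ℝ) / p := by
  have h0 : ∀ i, 0 ≤ e i := fun i => ((hc (e i)).1 ⟨i, le_refl _, by linarith⟩).1
  have h1 : ∀ i, e i + l ≤ 1 := fun i => ((hc (e i + l)).1 ⟨i, by linarith, le_refl _⟩).2
  set σ : Equiv.Perm (Fin p) := Tuple.sort e with hσ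
  have hmono : Monotone (e ∘ σ) := Tuple.monotone_sort e
  have hgap : ∀ k k' : Fin p, k < k' → e (σ k) + l ≤ e (σ k') := by
    intro k k' hk
    have hm : e (σ k) ≤ e (σ k') := hmono hk.le
    rcases hd (σ k) (σ k') (fun h => hk.ne (σ.injective h)) with h | h
    · exact h
    · linarith
  have key : ∀ n : ℕ, ∀ hn : n < p, e (σ ⟨n, hn⟩) = n * l := by
    intro n
    induction n using Nat.strong_induction_on with
    | _ n ih =>
      intro hn
      have hlow : (n : ℝ) * l ≤ e (σ ⟨n, hn⟩) := by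
        rcases Nat.eq_zero_or_pos n with h | h
        · subst h
          have := h0 (σ ⟨0, hn⟩)
          simpa using this
        · obtain ⟨m, rfl⟩ : ∃ m, n = m + 1 := ⟨n - 1, by omega⟩
          have h2 := ih m (by omega) (by omega)
          have h3 := hgap ⟨m, by omega⟩ ⟨m + 1, hn⟩ (by
            rw [Fin.lt_def]
            show m < m + 1
            omega)
          rw [h2] at h3
          push_cast
          linarith
      by_contra hne
      have hlt : (n : ℝ) * l < e (σ ⟨n, hn⟩) := lt_of_le_of_ne hlow (fun h => hne h.symm)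
      have hn0 : (0 : ℝ) ≤ (n : ℝ) * l := by positivity
      have h5 := h1 (σ ⟨n, hn⟩)
      obtain ⟨i, hi1, hi2⟩ := (hc (((n : ℝ) * l + e (σ ⟨n, hn⟩)) / 2)).2 ⟨by linarith, by linarith⟩
      obtain ⟨k', rfl⟩ : ∃ k', i = σ k' := ⟨σ.symm i, (σ.apply_symm_apply i).symm⟩
      rcases lt_or_ge (k' : ℕ) n with h | h
      · have h6 := ih k' h k'.isLt
        have h7 : ((k' : ℕ) : ℝ) + 1 ≤ n := by exact_mod_cast h
        have h8 : e (σ k') = ((k' : ℕ) : ℝ) * l := h6
        have h9 : (((k' : ℕ) : ℝ) + 1) * l ≤ n * l := mul_le_mul_of_nonneg_right h7 hl.le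
        rw [h8] at hi2
        linarith
      · have h6 : e (σ ⟨n, hn⟩) ≤ e (σ k') := hmono (by
          rw [Fin.le_def]
          exact h)
        linarith
  have hp0 : (0 : ℝ) < p := by exact_mod_cast hp
  have hpl : (p : ℝ) * l = 1 := by
    apply le_antisymm
    · have h2 := key (p - 1) (by omega)
      have h3 := h1 (σ ⟨p - 1, by omega⟩)
      rw [h2, Nat.cast_sub (by omega : 1 ≤ p)] at h3
      push_cast at h3
      linarith
    · by_contra hlt
      push Not at hlt
      obtain ⟨i, hi1, hi2⟩ := (hc 1).2 ⟨by norm_num, le_refl _⟩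
      obtain ⟨k', rfl⟩ : ∃ k', i = σ k' := ⟨σ.symm i, (σ.apply_symm_apply i).symm⟩
      have h8 : e (σ k') = ((k' : ℕ) : ℝ) * l := key k' k'.isLt
      have h7 : ((k' : ℕ) : ℝ) + 1 ≤ p := by exact_mod_cast k'.isLt
      have h9 : (((k' : ℕ) : ℝ) + 1) * l ≤ p * l := mul_le_mul_of_nonneg_right h7 hl.le
      rw [h8] at hi2
      linarith
  have hl' : l = 1 / p := by
    rw [eq_div_iff hp0.ne', mul_comm]
    exact hpl
  refine ⟨hl', σ, fun k => ?_⟩
  have h8 : e (σ k) = ((k : ℕ) : ℝ) * l := key k k.isLt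
  rw [h8, hl']
  ring

end Pool.Agent.SQR
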