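import Pool.Agent.SQR.GenL
import Pool.Agent.SQR.Stp

/-!
# SQR module VER: vertical strips

PROOF. `E = Prod.fst '' U` (take `z.2 = 1 / 2`), so `E` is open (`isOpenMap_fst`), connected
(`h.conn`, `IsConnected.image`), contained in `[0, 1]` (`hsq`).  So `E = Ioo α β` with `α < β` (a nonempty bounded open
preconnected set of reals, e.g. with `α = sInf E`, `β = sSup E`: `IsPreconnected.Ioo_csInf_csSup_subset` and
openness).  `closure U = Icc α β ×ˢ Icc 0 1` (`U = Ioo α β ×ˢ Ioo 0 1`, `closure_prod_eq`, `closure_Ioo`).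
Let `l = β - α` and `e i = (c i).1 + α` if `s_i = 1`, `e i = (c i).1 - β` if `s_i = -1`.  Then
`mv (g i) (c i) '' closure U = Icc (e i) (e i + l) ×ˢ Icc 0 1` and `mv (g i) (c i) '' U = Ioo (e i) (e i + l) ×ˢ Ioo 0 1`
(`mem_mv_image`, `hc`).  By `h.disj` the open intervals `Ioo (e i) (e i + l)` are pairwise disjoint, so
`e i + l ≤ e j ∨ e j + l ≤ e i` for `i ≠ j` (otherwise `max (e i) (e j) < min (e i + l) (e j + l)` and a point
between belongs to both), and by `h.cover` (use the points `(x, 0)`) they cover: `x` belongs to some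
`Icc (e i) (e i + l)` iff `0 ≤ x ≤ 1`.  Conclude with `stp` (`e (σ k) + l = (k + 1) / p`).
-/

set_option autoImplicit false

open AddMonoidAlgebra

namespace Pool.Agent.SQR

private theorem ver_act (g : SP) (hg : g.w = false) (z : V) :
    act g⁻¹ z = (((g.s : ℤ) : ℝ) * z.1, ((g.t : ℤ) : ℝ) * z.2) := by
  unfold act
  simp [hg]

private theorem ver_y (t : ℤˣ) (y : ℝ) :
    (((t : ℤ) : ℝ) * (y - (if t = 1 then 0 else 1)) = y ∨ ((t : ℤ) : ℝ) * (y - (if t = 1 then 0 else 1)) = 1 - y) := by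
  rcases Int.units_eq_one_or t with rfl | rfl
  · left
    simp
  · right
    have h : ¬ ((-1 : ℤˣ) = 1) := by decide
    rw [if_neg h]
    push_cast
    ring

private theorem ver_x (s : ℤˣ) (x c α β : ℝ) :
    ((((s : ℤ) : ℝ) * (x - c) = x - c ∧ (if s = 1 then c + α else c - β) = c + α) ∨
      (((s : ℤ) : ℝ) * (x - c) = c - x ∧ (if s = 1 then c + α else c - β) = c - β)) := by
  rcases Int.units_eq_one_or s with rfl | rfl
  · left
    simp
  · right
    have h : ¬ ((-1 : ℤˣ) = 1) := by decide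
    rw [if_neg h]
    refine ⟨?_, rfl⟩
    push_cast
    ring

theorem ver (p : ℕ) (hp : 0 < p) (U : Set V) (g : Fin p → SP) (c : Fin p → V) (h : IsTil p U g c)
    (hsq : U ⊆ sq) (hg : ∀ i, (g i).w = false) (hc : ∀ i, (c i).2 = if (g i).t = 1 then 0 else 1)
    (E : Set ℝ) (hE : U = {z : V | z.1 ∈ E ∧ 0 < z.2 ∧ z.2 < 1}) :
    ∃ σ : Equiv.Perm (Fin p), ∀ k : Fin p, mv (g (σ k)) (c (σ k)) '' closure U =
      {z : V | z ∈ sq ∧ ((k : ℕ) : ℝ) / p ≤ z.1 ∧ z.1 ≤ (((k : ℕ) : ℝ) + 1) / p} := by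
  set I : Set ℝ := Prod.fst '' U with hI
  have hIo : IsOpen I := isOpenMap_fst _ h.opn
  have hIc : IsConnected I := h.conn.image _ continuous_fst.continuousOn
  have hIb : ∀ x ∈ I, 0 ≤ x ∧ x ≤ 1 := by
    rintro _ ⟨z, hz, rfl⟩
    exact (hsq hz).1
  have hbb : BddBelow I := ⟨0, fun x hx => (hIb x hx).1⟩
  have hba : BddAbove I := ⟨1, fun x hx => (hIb x hx).2⟩
  set α := sInf I with hα
  set β := sSup I with hβ
  have hII : I = Set.Ioo α β := by
    apply Set.Subset.antisymm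
    · intro x hx
      obtain ⟨δ, hδ, hball⟩ := Metric.isOpen_iff.1 hIo x hx
      have h1 : x - δ / 2 ∈ I := hball (by
        rw [Metric.mem_ball, Real.dist_eq, abs_lt]
        constructor <;> linarith)
      have h2 : x + δ / 2 ∈ I := hball (by
        rw [Metric.mem_ball, Real.dist_eq, abs_lt]
        constructor <;> linarith)
      have h3 := csInf_le hbb h1
      have h4 := le_csSup hba h2
      constructor
      · rw [hα]
        linarith
      · rw [hβ]
        linarith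
    · exact IsConnected.Ioo_csInf_csSup_subset hIc hbb hba
  have hαβ : α < β := by
    obtain ⟨x, hx⟩ := hIc.nonempty
    rw [hII] at hx
    exact hx.1.trans hx.2
  have hU : U = Set.Ioo α β ×ˢ Set.Ioo (0 : ℝ) 1 := by
    rw [← hII]
    ext z
    constructor
    · intro hz
      have h1 := hz
      rw [hE] at h1
      exact ⟨⟨z, hz, rfl⟩, h1.2.1, h1.2.2⟩
    · rintro ⟨⟨z', hz', h1⟩, h2, h3⟩
      rw [hE] at hz' ⊢
      refine ⟨?_, h2, h3⟩
      rw [← h1]
      exact hz'.1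
  have hcl : closure U = Set.Icc α β ×ˢ Set.Icc (0 : ℝ) 1 := by
    rw [hU, closure_prod_eq, closure_Ioo hαβ.ne, closure_Ioo (by norm_num)]
  set l := β - α with hl
  have hl0 : 0 < l := by rw [hl]; linarith
  set e : Fin p → ℝ := fun i => if (g i).s = 1 then (c i).1 + α else (c i).1 - β with he
  have hmem : ∀ i (z : V), z ∈ mv (g i) (c i) '' closure U ↔
      (e i ≤ z.1 ∧ z.1 ≤ e i + l) ∧ (0 ≤ z.2 ∧ z.2 ≤ 1) := by
    intro i z
    rw [mem_mv_image, ver_act _ (hg i), hcl, Set.mem_prod, Set.mem_Icc, Set.mem_Icc]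
    simp only [Prod.fst_sub, Prod.snd_sub, he]
    rw [hc i]
    refine and_congr ?_ ?_
    · rcases ver_x (g i).s z.1 (c i).1 α β with ⟨h1, h2⟩ | ⟨h1, h2⟩
      · rw [h1, h2, hl]
        constructor <;> rintro ⟨h3, h4⟩ <;> constructor <;> linarith
      · rw [h1, h2, hl]
        constructor <;> rintro ⟨h3, h4⟩ <;> constructor <;> linarith
    · rcases ver_y (g i).t z.2 with h1 | h1
      · rw [h1]
      · rw [h1]
        constructor <;> rintro ⟨h3, h4⟩ <;> constructor <;> linarith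
  have hmem' : ∀ i (z : V), z ∈ mv (g i) (c i) '' U ↔
      (e i < z.1 ∧ z.1 < e i + l) ∧ (0 < z.2 ∧ z.2 < 1) := by
    intro i z
    rw [mem_mv_image, ver_act _ (hg i), hU, Set.mem_prod, Set.mem_Ioo, Set.mem_Ioo]
    simp only [Prod.fst_sub, Prod.snd_sub, he]
    rw [hc i]
    refine and_congr ?_ ?_
    · rcases ver_x (g i).s z.1 (c i).1 α β with ⟨h1, h2⟩ | ⟨h1, h2⟩
      · rw [h1, h2, hl]
        constructor <;> rintro ⟨h3, h4⟩ <;> constructor <;> linarith
      · rw [h1, h2, hl]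
        constructor <;> rintro ⟨h3, h4⟩ <;> constructor <;> linarith
    · rcases ver_y (g i).t z.2 with h1 | h1
      · rw [h1]
      · rw [h1]
        constructor <;> rintro ⟨h3, h4⟩ <;> constructor <;> linarith
  have hd : ∀ i j, i ≠ j → e i + l ≤ e j ∨ e j + l ≤ e i := by
    intro i j hij
    by_contra hcon
    push Not at hcon
    obtain ⟨h1, h2⟩ := hcon
    have h3 : max (e i) (e j) < min (e i + l) (e j + l) := by
      rw [max_lt_iff, lt_min_iff, lt_min_iff]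
      refine ⟨⟨?_, ?_⟩, ⟨?_, ?_⟩⟩ <;> linarith
    obtain ⟨x, hx1, hx2⟩ := exists_between h3
    rw [max_lt_iff] at hx1
    rw [lt_min_iff] at hx2
    have h4 : ((x, 1 / 2) : V) ∈ mv (g i) (c i) '' U := (hmem' i _).2 ⟨⟨hx1.1, hx2.1⟩, by norm_num, by norm_num⟩
    have h5 : ((x, 1 / 2) : V) ∈ mv (g j) (c j) '' U := (hmem' j _).2 ⟨⟨hx1.2, hx2.2⟩, by norm_num, by norm_num⟩
    exact Set.disjoint_left.1 (h.disj i j hij) h4 h5
  have hcov : ∀ x, (∃ i, e i ≤ x ∧ x ≤ e i + l) ↔ (0 ≤ x ∧ x ≤ 1) := by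
    intro x
    have h1 : ((x, 0) : V) ∈ sq ↔ (0 ≤ x ∧ x ≤ 1) := by
      unfold sq
      rw [Set.mem_ofPred_eq]
      constructor
      · exact fun h2 => h2.1
      · exact fun h2 => ⟨h2, le_refl _, by norm_num⟩
    rw [← h1, ← h.cover, Set.mem_iUnion]
    constructor
    · rintro ⟨i, hi⟩
      exact ⟨i, (hmem i _).2 ⟨hi, le_refl _, by norm_num⟩⟩
    · rintro ⟨i, hi⟩
      exact ⟨i, ((hmem i _).1 hi).1⟩
  obtain ⟨h1, σ, hσ⟩ := stp p hp e l hl0 hd hcov
  have hp0 : (0 : ℝ) < p := by exact_mod_cast hp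
  refine ⟨σ, fun k => ?_⟩
  ext z
  rw [hmem, hσ k, h1, Set.mem_ofPred_eq]
  have h2 : ((k : ℕ) : ℝ) / p + 1 / p = (((k : ℕ) : ℝ) + 1) / p := by ring
  rw [h2]
  have h3 : (0 : ℝ) ≤ ((k : ℕ) : ℝ) / p := by positivity
  have h4 : (((k : ℕ) : ℝ) + 1) / p ≤ 1 := by
    rw [div_le_one hp0]
    exact_mod_cast k.isLt
  constructor
  · rintro ⟨⟨h5, h6⟩, h7⟩
    exact ⟨⟨⟨by linarith, by linarith⟩, h7⟩, h5, h6⟩
  · rintro ⟨⟨_, h7⟩, h5, h6⟩
    exact ⟨⟨h5, h6⟩, h7⟩

end Pool.Agent.SQR
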