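import Pool.Agent.SQR.Tfi
import Pool.Agent.SQR.Rat
import Pool.Agent.SQR.Alg
import Pool.Agent.SQR.Sla
import Pool.Agent.SQR.Bet
import Pool.Agent.SQR.Slb
import Pool.Agent.SQR.Ver
import Pool.Agent.SQR.Swp
import Pool.Agent.SQR.Nrm
import Pool.Agent.SQR.Gex
import Pool.Agent.SQR.Dca

/-!
# SQR: the main theorem in the plane `ℝ × ℝ`
-/

set_option autoImplicit false

open AddMonoidAlgebra

namespace Pool.Agent.SQR

/-- Diagonal linear parts, heights constant on the classes of `t`. -/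
theorem diag_case (p : ℕ) (hp : Odd p) (U : Set V) (g : Fin p → SP) (c : Fin p → V) (h : IsTil p U g c)
    (hsq : U ⊆ sq) (hg : ∀ i, (g i).w = false) (i0 : Fin p) (hg0 : g i0 = 1) (hc0 : c i0 = 0)
    (hb : ∀ i j, (g i).t = (g j).t → (c i).2 = (c j).2) :
    ∃ σ : Equiv.Perm (Fin p), ∀ k : Fin p, mv (g (σ k)) (c (σ k)) '' closure U =
      {z : V | z ∈ sq ∧ ((k : ℕ) : ℝ) / p ≤ z.1 ∧ z.1 ≤ (((k : ℕ) : ℝ) + 1) / p} := by
  have hc := bet p U g c h hg i0 hg0 hc0 hb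
  obtain ⟨F, hF, hFe⟩ := tfi p hp U g c h hsq (ZMod 2)
  have h01 := sla p hp g hg c hc F hFe
  obtain ⟨E, hE⟩ := slb U h.opn h.reg hsq F hF h01
  exact ver p hp.pos U g c h hsq hg hc E hE

theorem act_tau (z : V) : act tau z = (z.2, z.1) := by
  simp [act, tau]

theorem til_main (p : ℕ) (hp : p.Prime) (hp2 : p ≠ 2) (U : Set V) (g : Fin p → SP) (c : Fin p → V)
    (h : IsTil p U g c) (hyp : Hyp p g) :
    ∃ σ : Equiv.Perm (Fin p),
      (∀ k : Fin p, mv (g (σ k)) (c (σ k)) '' closure U =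
        {z : V | z ∈ sq ∧ ((k : ℕ) : ℝ) / p ≤ z.1 ∧ z.1 ≤ (((k : ℕ) : ℝ) + 1) / p}) ∨
      (∀ k : Fin p, mv (g (σ k)) (c (σ k)) '' closure U =
        {z : V | z ∈ sq ∧ ((k : ℕ) : ℝ) / p ≤ z.2 ∧ z.2 ≤ (((k : ℕ) : ℝ) + 1) / p}) := by
  have hodd : Odd p := hp.odd_of_ne_two hp2
  obtain ⟨U', g', c', h', hyp', hg0, hc0, hsq, him⟩ := nrm p U g c h hyp ⟨0, hp.pos⟩
  set i0 : Fin p := ⟨0, hp.pos⟩ with hi0
  by_cases hw : ∃ i1, (g' i1).w = true
  · exfalso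
    obtain ⟨i1, hi1⟩ := hw
    obtain ⟨H, _, _, _, ρ, γ, hργ, hdet⟩ := dca p hp hp2 g' hyp' i0 hg0 i1 hi1
    obtain ⟨F, hF, hFe⟩ := tfi p hodd U' g' c' h' hsq ℤ
    obtain ⟨L, d, f, hL, hf, -, -⟩ := rat ℤ g' c' F hFe
    refine gex p hp ρ γ (γ i1) (by rw [hργ, hi1]) hdet d f L hL ?_
    have h1 : (fun i => ρ (γ i)) = g' := funext hργ
    rw [h1]
    exact hf
  · push Not at hw
    have hg : ∀ i, (g' i).w = false := fun i => Bool.eq_false_of_not_eq_true (hw i)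
    have : Fact p.Prime := ⟨hp⟩
    obtain ⟨F, hF, hFe⟩ := tfi p hodd U' g' c' h' hsq (ZMod p)
    obtain ⟨L, d, f, hL, hf, hd1, hd2⟩ := rat (ZMod p) g' c' F hFe
    rcases alg p hp2 g' hg d f L hL hf with h1 | h1
    · obtain ⟨σ, hσ⟩ := diag_case p hodd U' g' c' h' hsq hg i0 hg0 hc0
        fun i j hij => hd2 i j (h1 i j hij)
      refine ⟨σ, Or.inl fun k => ?_⟩
      rw [← him, hσ]
    · obtain ⟨h2, h3⟩ := til_swap p U' g' c' h'
      have h4 : act tau '' U' ⊆ sq := by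
        rintro _ ⟨z, hz, rfl⟩
        rw [act_tau]
        exact ⟨(hsq hz).2, (hsq hz).1⟩
      obtain ⟨σ, hσ⟩ := diag_case p hodd (act tau '' U') _ _ h2 h4
        (fun i => by simp [tau, hg i]) i0 (by rw [hg0]; simp) (by rw [hc0]; simp)
        (fun i j hij => by
          rw [act_tau, act_tau]
          refine hd1 i j (h1 i j ?_)
          simpa [tau] using hij)
      refine ⟨σ, Or.inr fun k => ?_⟩
      have h5 : act tau '' (mv (g' (σ k)) (c' (σ k)) '' closure U') =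
          {z : V | z ∈ sq ∧ ((k : ℕ) : ℝ) / p ≤ z.1 ∧ z.1 ≤ (((k : ℕ) : ℝ) + 1) / p} := by
        rw [← h3, hσ]
      rw [← him]
      ext z
      constructor
      · intro hz
        have h6 : act tau z ∈ act tau '' (mv (g' (σ k)) (c' (σ k)) '' closure U') := ⟨z, hz, rfl⟩
        rw [h5, act_tau] at h6
        exact ⟨⟨h6.1.2, h6.1.1⟩, h6.2⟩
      · intro hz
        have h6 : act tau z ∈ {z : V | z ∈ sq ∧ ((k : ℕ) : ℝ) / p ≤ z.1 ∧ z.1 ≤ (((k : ℕ) : ℝ) + 1) / p} := by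
          rw [act_tau]
          exact ⟨⟨hz.1.2, hz.1.1⟩, hz.2⟩
        rw [← h5] at h6
        obtain ⟨z', hz', he⟩ := h6
        rw [act_tau, act_tau] at he
        have h7 : z' = z := Prod.ext (congrArg Prod.snd he) (congrArg Prod.fst he)
        rw [← h7]
        exact hz'

end Pool.Agent.SQR
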