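import Pool.Agent.SQR.GenL

/-!
# SQR module QQS: the corner sum of the unit square

PROOF. `qq K 1 = single (1, 1) 1 - single (1, 0) 1 - single (0, 1) 1 + single (0, 0) 1` (expand the product with
`single_mul_single` and `AddMonoidAlgebra.one_def`).  By `Phi_sub`, `Phi_add`, `Phi_single`, for `z` off
`S = {0, 1}`: the value is `1` if `0 < z.1 < 1` and `0 < z.2 < 1` and `0` otherwise (case analysis).  Then
`Gen.of_off`.
-/

set_option autoImplicit false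

open AddMonoidAlgebra

namespace Pool.Agent.SQR

theorem gen_qq (K : Type*) [CommRing K] : Gen (Phi (qq K (1 : ℝ))) (ind K sq) := by
  have h0 : qq K (1 : ℝ) = single ((1 : ℝ), (1 : ℝ)) 1 - single ((1 : ℝ), (0 : ℝ)) 1 - single ((0 : ℝ), (1 : ℝ)) 1
      + single ((0 : ℝ), (0 : ℝ)) 1 := by
    unfold qq
    rw [AddMonoidAlgebra.one_def, sub_mul, mul_sub, mul_sub, single_mul_single, single_mul_single,
      single_mul_single, single_mul_single]
    have e1 : (((1 : ℝ), (0 : ℝ)) + ((0 : ℝ), (1 : ℝ)) : ℝ × ℝ) = (1, 1) := by ext <;> simp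
    have e2 : ((0 : ℝ × ℝ)) = ((0 : ℝ), (0 : ℝ)) := rfl
    rw [e1, add_zero, zero_add, zero_add, mul_one, e2]
    abel
  refine Gen.of_off ({0, 1} : Finset ℝ) fun z hz => ?_
  rw [h0, Phi_add, Phi_sub, Phi_sub, Phi_single, Phi_single, Phi_single, Phi_single]
  obtain ⟨h1, h2⟩ := hz
  simp only [Finset.mem_insert, Finset.mem_singleton, not_or] at h1 h2
  have hc : ∀ x : ℝ, ¬ x = 0 → ¬ x = 1 → (¬ 0 ≤ x ∧ ¬ 1 ≤ x ∧ x ≤ 1) ∨ (0 ≤ x ∧ ¬ 1 ≤ x ∧ x ≤ 1) ∨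
      (0 ≤ x ∧ 1 ≤ x ∧ ¬ x ≤ 1) := by
    intro x hx0 hx1
    rcases lt_or_gt_of_ne hx0 with h | h
    · left
      exact ⟨by linarith, by linarith, by linarith⟩
    · rcases lt_or_gt_of_ne hx1 with h' | h'
      · right; left
        exact ⟨h.le, by linarith, h'.le⟩
      · right; right
        exact ⟨h.le, h'.le, by linarith⟩
  unfold ind sq
  simp only [Set.mem_ofPred_eq]
  rcases hc z.1 h1.1 h1.2 with ⟨a1, a2, a3⟩ | ⟨a1, a2, a3⟩ | ⟨a1, a2, a3⟩ <;>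
  rcases hc z.2 h2.1 h2.2 with ⟨b1, b2, b3⟩ | ⟨b1, b2, b3⟩ | ⟨b1, b2, b3⟩ <;>
  simp [a1, a2, a3, b1, b2, b3]

end Pool.Agent.SQR
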