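import Pool.Agent.SQR.GenL

/-!
# SQR module TLG: the indicator functions of the pieces add up to that of the square

PROOF. Let `U_i = mv (g i) (c i) '' U`, open (`mvH` is a homeomorphism: `(mvH g c).image_closure`, `isOpenMap`), with
closure `mv (g i) (c i) '' closure U`.  Let `O` be the complement of the closed set `⋃ i, frontier (U_i)`; it is
open, and dense, since each `frontier (U_i)` is closed with empty interior (`interior_frontier` for open sets; a
finite intersection of open dense sets is dense, `dense_iInter_of_isOpen` or induction).  Let `z ∈ O`.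
If `z ∈ sq`, then by `h.cover` there is `i` with `z ∈ closure (U_i)`, so `z ∈ U_i` (`z ∉ frontier`), and for
`j ≠ i` we have `z ∉ U_j` by `h.disj`: the sum is `1`.  If `z ∉ sq`, then `z ∉ closure (U_i)` for all `i` and the
sum is `0`.  Here `ind K U (act (g i)⁻¹ (z - c i)) = 1` iff `z ∈ U_i` (`mem_mv_image`).
-/

set_option autoImplicit false

open AddMonoidAlgebra

namespace Pool.Agent.SQR

theorem tlg (K : Type*) [CommRing K] (p : ℕ) (U : Set V) (g : Fin p → SP) (c : Fin p → V) (h : IsTil p U g c) :
    Gen (fun z => ∑ i, ind K U (act (g i)⁻¹ (z - c i))) (ind K sq) := by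
  classical
  have hop : ∀ i, IsOpen (mv (g i) (c i) '' U) := fun i => (mvH (g i) (c i)).isOpenMap U h.opn
  have hcl : ∀ i, closure (mv (g i) (c i) '' U) = mv (g i) (c i) '' closure U :=
    fun i => ((mvH (g i) (c i)).image_closure U).symm
  refine ⟨⋂ i, (frontier (mv (g i) (c i) '' U))ᶜ, ?_, ?_, ?_⟩
  · exact isOpen_iInter_of_finite fun i => isClosed_frontier.isOpen_compl
  · refine dense_iInter_of_isOpen (fun i => isClosed_frontier.isOpen_compl) fun i => ?_
    rw [← interior_eq_empty_iff_dense_compl, ← frontier_compl]
    exact interior_frontier (hop i).isClosed_compl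
  · intro z hz
    have hfr : ∀ i, z ∈ closure (mv (g i) (c i) '' U) → z ∈ mv (g i) (c i) '' U := by
      intro i hi
      by_contra hn
      refine Set.mem_iInter.1 hz i ?_
      rw [(hop i).frontier_eq]
      exact ⟨hi, hn⟩
    have hind : ∀ i, ind K U (act (g i)⁻¹ (z - c i)) = if z ∈ mv (g i) (c i) '' U then (1 : K) else 0 := by
      intro i
      unfold ind
      simp only [mem_mv_image]
    simp only [hind]
    unfold ind
    by_cases hs : z ∈ sq
    · rw [if_pos hs]
      rw [← h.cover] at hs
      obtain ⟨i, hi⟩ := Set.mem_iUnion.1 hs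
      rw [← hcl i] at hi
      have hi2 := hfr i hi
      rw [Finset.sum_eq_single i]
      · rw [if_pos hi2]
      · intro j _ hj
        rw [if_neg]
        intro h3
        exact Set.disjoint_left.1 (h.disj j i hj) h3 hi2
      · intro h3
        exact absurd (Finset.mem_univ i) h3
    · rw [if_neg hs]
      refine Finset.sum_eq_zero fun i _ => ?_
      rw [if_neg]
      intro h3
      refine hs ?_
      rw [← h.cover]
      refine Set.mem_iUnion.2 ⟨i, ?_⟩
      rw [← hcl i]
      exact subset_closure h3

end Pool.Agent.SQR
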