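import Pool.Agent.SQR.DetSp
import Pool.Agent.SQR.Lin
import Pool.Agent.SQR.Tlg
import Pool.Agent.SQR.Qqs
import Pool.Agent.SQR.Eqv

/-!
# SQR module MTL: a tiling gives an equation for the indicator function over `F_2`

PROOF. Let `u = ind (ZMod 2) U` and, for `k : SP`, `u_k z = u (act k⁻¹ z)`.  Let
`M h k = ∑ i, if h * g i = k then single (act h (c i)) 1 else 0` in the group ring of `V` over `ZMod 2`.

(1) For every `h`: `∑ k, cv (M h k) (u_k) z = ∑ i, u (act (h * g i)⁻¹ (z - act h (c i)))` for all `z`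
(`cv_sum_left`, `cv_single`, `Finset.sum_comm`, `Finset.sum_ite_eq`)
`= ∑ i, u (act (g i)⁻¹ (act h⁻¹ z - c i))` (`act_mul`, `map_sub`, `mul_inv_rev`, `act_inv_act`).
(2) By `tlg` and `Gen.mv` with `h` and the translation `0` this agrees generically with
`ind (ZMod 2) sq (act h⁻¹ z)`, and by `gen_qq` and `gen_mv` (with `c = 0`; `sq` is bounded, `R = 1`) this agrees
generically with `Phi (W h)`, `W h = chi h • (single 0 1 * sig (ZMod 2) h (qq (ZMod 2) 1))`.
(3) `lin` with `a = 1` gives `Gen (cv M.det (u_1)) (Phi ..)` and `u_1 = u` (`act_one`).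
(4) `M.det ≠ 0`: apply the ring homomorphism `aug (ZMod 2)`: `aug (M.det) = det (fun h k => aug (M h k))`
(`RingHom.map_det`), and `aug (M h k) = (N (h⁻¹ * k) : ZMod 2)` with `N a = #{i | g i = a}` (an integer), so this
is the image in `ZMod 2` of the determinant of `det_sp`.  Each of its factors is odd, as is the sum of all `N a`,
which is `p`: modulo 2 we have `cD a ≡ chi a ≡ 1`, so the first four factors are congruent to `p`; and
`R = ∑ N a • mat a` has `R 0 0 = ∑_{a.w = false} a.s * N a ≡ m`, `R 1 1 ≡ m`, `R 0 1 ≡ R 1 0 ≡ n` with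
`m = ∑_{a.w = false} N a`, `n = ∑_{a.w = true} N a`, `m + n = p`, so `R.det ≡ m * m - n * n ≡ m + n = p`.
(In `ZMod 2` all signs are `1`, and `x * x = x`: one can do the whole computation there.)
-/

set_option autoImplicit false

open AddMonoidAlgebra

namespace Pool.Agent.SQR

private theorem u_cast (x : ℤˣ) : (((x : ℤ)) : ZMod 2) = 1 := by
  rcases Int.units_eq_one_or x with h | h
  · rw [h]; simp
  · rw [h]; decide

private theorem chi_cast (g : SP) : ((chi g : ℤ) : ZMod 2) = 1 := by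
  unfold chi
  rw [Int.cast_mul, u_cast, u_cast, one_mul]

private theorem cD_cast (g : SP) : ((cD g : ℤ) : ZMod 2) = 1 := by
  unfold cD
  split_ifs
  · decide
  · simp

private theorem mat_cast (g : SP) : ((mat g 0 0 : ℤ) : ZMod 2) = (if g.w then 0 else 1) ∧
    ((mat g 1 1 : ℤ) : ZMod 2) = (if g.w then 0 else 1) ∧ ((mat g 0 1 : ℤ) : ZMod 2) = (if g.w then 1 else 0) ∧
    ((mat g 1 0 : ℤ) : ZMod 2) = (if g.w then 1 else 0) := by
  cases hw : g.w <;> simp [mat, hw, u_cast]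

private theorem det_odd (N : SP → ℤ) (hN : ((∑ a, N a : ℤ) : ZMod 2) = 1) :
    (((Matrix.of fun h k : SP => N (h⁻¹ * k)).det : ℤ) : ZMod 2) = 1 := by
  have e0 : ∑ a, ((N a : ℤ) : ZMod 2) = 1 := by
    rw [← hN, Int.cast_sum]
  have e1 : ((∑ a, cD a * N a : ℤ) : ZMod 2) = 1 := by
    rw [Int.cast_sum, ← e0]
    exact Finset.sum_congr rfl fun a _ => by rw [Int.cast_mul, cD_cast, one_mul]
  have e2 : ((∑ a, chi a * N a : ℤ) : ZMod 2) = 1 := by
    rw [Int.cast_sum, ← e0]
    exact Finset.sum_congr rfl fun a _ => by rw [Int.cast_mul, chi_cast, one_mul]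
  have e3 : ((∑ a, cD a * chi a * N a : ℤ) : ZMod 2) = 1 := by
    rw [Int.cast_sum, ← e0]
    exact Finset.sum_congr rfl fun a _ => by rw [Int.cast_mul, Int.cast_mul, cD_cast, chi_cast, one_mul, one_mul]
  have e4 : (((∑ a, N a • mat a).det : ℤ) : ZMod 2) = 1 := by
    rw [Matrix.det_fin_two]
    have r : ∀ i j : Fin 2, (((∑ a, N a • mat a) i j : ℤ) : ZMod 2) = ∑ a, ((N a : ℤ) : ZMod 2) * ((mat a i j : ℤ) : ZMod 2) := by
      intro i j
      rw [Matrix.sum_apply, Int.cast_sum]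
      exact Finset.sum_congr rfl fun a _ => by rw [Matrix.smul_apply, smul_eq_mul, Int.cast_mul]
    rw [Int.cast_sub, Int.cast_mul, Int.cast_mul, r, r, r, r]
    simp only [fun a => (mat_cast a).1, fun a => (mat_cast a).2.1, fun a => (mat_cast a).2.2.1, fun a => (mat_cast a).2.2.2]
    have key : ∀ m n : ZMod 2, m + n = 1 → m * m - n * n = 1 := by decide
    apply key
    rw [← Finset.sum_add_distrib]
    refine Eq.trans (Finset.sum_congr rfl fun a _ => ?_) e0
    cases hw : a.w <;> simp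
  rw [det_sp, Int.cast_mul, Int.cast_mul, Int.cast_mul, Int.cast_mul, Int.cast_pow, hN, e1, e2, e3, e4]
  decide

theorem mat_til (p : ℕ) (hp : Odd p) (U : Set V) (g : Fin p → SP) (c : Fin p → V) (h : IsTil p U g c) :
    ∃ D W : AddMonoidAlgebra (ZMod 2) V, D ≠ 0 ∧ Gen (cv D (ind (ZMod 2) U)) (Phi W) := by
  classical
  obtain ⟨M, hM⟩ : ∃ M : Matrix SP SP (AddMonoidAlgebra (ZMod 2) V), ∀ a b, M a b =
      ∑ i, if a * g i = b then single (act a (c i)) (1 : ZMod 2) else 0 := ⟨fun a b => _, fun _ _ => rfl⟩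
  have h1 : ∀ a z, ∑ b, cv (M a b) (fun y => ind (ZMod 2) U (act b⁻¹ y)) z =
      ∑ i, ind (ZMod 2) U (act (g i)⁻¹ (act a⁻¹ (z - 0) - c i)) := by
    intro a z
    have e1 : ∀ b, cv (M a b) (fun y => ind (ZMod 2) U (act b⁻¹ y)) z =
        ∑ i, if a * g i = b then ind (ZMod 2) U (act b⁻¹ (z - act a (c i))) else 0 := by
      intro b
      rw [hM, cv_sum_left]
      refine Finset.sum_congr rfl fun i _ => ?_
      split_ifs
      · rw [cv_single, one_mul]
      · rw [cv_zero_left]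
    rw [Finset.sum_congr rfl fun b _ => e1 b, Finset.sum_comm]
    refine Finset.sum_congr rfl fun i _ => ?_
    rw [Finset.sum_ite_eq, if_pos (Finset.mem_univ _), mul_inv_rev, act_mul, map_sub, act_inv_act, sub_zero]
  have hb : ∃ R : ℝ, ∀ z, ind (ZMod 2) sq z ≠ 0 → |z.1| ≤ R ∧ |z.2| ≤ R := by
    refine ⟨1, fun z hz => ?_⟩
    have hz' : z ∈ sq := by
      by_contra hn
      apply hz
      unfold ind
      rw [if_neg hn]
    exact ⟨by rw [abs_of_nonneg hz'.1.1]; exact hz'.1.2, by rw [abs_of_nonneg hz'.2.1]; exact hz'.2.2⟩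
  have h2 : ∀ a, Gen (fun z => ∑ b, cv (M a b) (fun y => ind (ZMod 2) U (act b⁻¹ y)) z)
      (Phi (chi a • (single 0 (1 : ZMod 2) * sig (ZMod 2) a (qq (ZMod 2) (1 : ℝ))))) := by
    intro a
    have e1 := (tlg (ZMod 2) p U g c h).mv a 0
    have e2 := gen_mv (qq (ZMod 2) (1 : ℝ)) (ind (ZMod 2) sq) (gen_qq (ZMod 2)) hb a 0
    exact (Gen.of_eq fun z => h1 a z).trans (e1.trans e2.symm)
  have h3 := lin M (fun b y => ind (ZMod 2) U (act b⁻¹ y)) _ h2 1
  have h4 : (fun y => ind (ZMod 2) U (act (1 : SP)⁻¹ y)) = ind (ZMod 2) U := by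
    funext y
    rw [inv_one, act_one]
  simp only [h4] at h3
  refine ⟨M.det, _, ?_, h3⟩
  intro h0
  obtain ⟨N, hN⟩ : ∃ N : SP → ℤ, ∀ a, N a = ∑ i, if g i = a then 1 else 0 := ⟨_, fun _ => rfl⟩
  have hsum : ((∑ a, N a : ℤ) : ZMod 2) = 1 := by
    have e1 : ∑ a, N a = (p : ℤ) := by
      rw [Finset.sum_congr rfl fun a _ => hN a, Finset.sum_comm]
      have e2 : ∀ i : Fin p, ∑ a, (if g i = a then (1 : ℤ) else 0) = 1 := fun i => by
        rw [Finset.sum_ite_eq, if_pos (Finset.mem_univ _)]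
      rw [Finset.sum_congr rfl fun i _ => e2 i]
      simp
    rw [e1]
    obtain ⟨m, rfl⟩ := hp
    push_cast
    rw [(by decide : (2 : ZMod 2) = 0), zero_mul, zero_add]
  have h5 := det_odd N hsum
  have h6 : aug (ZMod 2) M.det = (((Matrix.of fun h k : SP => N (h⁻¹ * k)).det : ℤ) : ZMod 2) := by
    rw [RingHom.map_det]
    have e1 := RingHom.map_det (Int.castRingHom (ZMod 2)) (Matrix.of fun h k : SP => N (h⁻¹ * k))
    rw [eq_intCast] at e1
    rw [e1]
    congr 1
    ext a b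
    rw [RingHom.mapMatrix_apply, RingHom.mapMatrix_apply, Matrix.map_apply, Matrix.map_apply, Matrix.of_apply, hM, hN,
      map_sum, eq_intCast, Int.cast_sum]
    refine Finset.sum_congr rfl fun i _ => ?_
    have e2 : a * g i = b ↔ g i = a⁻¹ * b := by
      rw [eq_inv_mul_iff_mul_eq]
    by_cases hc : a * g i = b
    · rw [if_pos hc, if_pos (e2.1 hc), aug_single, Int.cast_one]
    · rw [if_neg hc, if_neg (fun h' => hc (e2.2 h')), map_zero, Int.cast_zero]
  rw [h0, map_zero, h5] at h6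
  exact absurd h6 (by decide)

end Pool.Agent.SQR
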