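import Pool.Agent.SQR.GenL

/-!
# SQR module PIN: the corner sum is determined by the function

PROOF. Put `H = F - G`; `Phi H = Phi F - Phi G` (`Phi_sub`), so `Gen (Phi H) 0`.  Suppose `H ≠ 0`.  Choose a
support point `w` with `w.1` minimal among the support and, among these, `w.2` minimal (for instance a minimum of
the support for the lexicographic order).  Let `ε > 0` be such that no support point `v` has
`w.1 < v.1 < w.1 + ε` or `w.2 < v.2 < w.2 + ε` (finitely many conditions; or take `ε` a third of the minimum of the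
positive differences, or argue with the finite set of coordinates).  For every `z` in the open box
`(w.1, w.1 + ε) × (w.2, w.2 + ε)`: the support points `v` with `v.1 ≤ z.1` satisfy `v.1 ≤ w.1`, hence `v.1 = w.1`,
and those with `v.2 ≤ z.2` satisfy `v.2 ≤ w.2`, hence `v.2 = w.2` by the choice of `w`.  So
`Phi H z = H.coeff w ≠ 0` on the whole box, but the box contains a point where `Phi H z = 0` (`Gen.exists_mem`).
-/

set_option autoImplicit false

open AddMonoidAlgebra

namespace Pool.Agent.SQR

private theorem gap (S : Finset ℝ) (a : ℝ) : ∃ ε : ℝ, 0 < ε ∧ ∀ b ∈ S, a < b → a + ε ≤ b := by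
  induction S using Finset.induction_on with
  | empty => exact ⟨1, one_pos, by simp⟩
  | insert b S hb ih =>
    obtain ⟨ε, h1, h2⟩ := ih
    by_cases hab : a < b
    · refine ⟨min ε (b - a), lt_min h1 (sub_pos.2 hab), fun c hc hac => ?_⟩
      rcases Finset.mem_insert.1 hc with rfl | hc
      · have := min_le_right ε (c - a)
        linarith
      · have h3 := min_le_left ε (b - a)
        have h4 := h2 c hc hac
        linarith
    · refine ⟨ε, h1, fun c hc hac => ?_⟩
      rcases Finset.mem_insert.1 hc with rfl | hc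
      · exact absurd hac hab
      · exact h2 c hc hac

theorem gen_inj {K : Type*} [CommRing K] (F G : AddMonoidAlgebra K V) (h : Gen (Phi F) (Phi G)) : F = G := by
  classical
  by_contra hne
  set H := F - G with hH
  have hH0 : H ≠ 0 := sub_ne_zero.2 hne
  set S : Finset V := H.coeff.support with hS
  have hSne : S.Nonempty := by
    rw [Finset.nonempty_iff_ne_empty]
    intro h0
    apply hH0
    have h1 : H.coeff = 0 := Finsupp.support_eq_empty.1 h0
    ext v
    rw [h1]
    simp
  obtain ⟨w0, hw0, hmin0⟩ := S.exists_min_image Prod.fst hSne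
  obtain ⟨w, hw, hminw⟩ := (S.filter fun v => v.1 = w0.1).exists_min_image Prod.snd
    ⟨w0, Finset.mem_filter.2 ⟨hw0, rfl⟩⟩
  have hw1 : w ∈ S := (Finset.mem_filter.1 hw).1
  have hw2 : w.1 = w0.1 := (Finset.mem_filter.1 hw).2
  obtain ⟨ε1, he1, hg1⟩ := gap (S.image Prod.fst) w.1
  obtain ⟨ε2, he2, hg2⟩ := gap (S.image Prod.snd) w.2
  set U : Set V := Set.Ioo w.1 (w.1 + ε1) ×ˢ Set.Ioo w.2 (w.2 + ε2) with hU
  have hUo : IsOpen U := isOpen_Ioo.prod isOpen_Ioo
  have hUne : U.Nonempty := by
    refine ⟨(w.1 + ε1 / 2, w.2 + ε2 / 2), ?_, ?_⟩ <;> constructor <;> simp only <;> linarith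
  obtain ⟨z, hz, -, hz3⟩ := h.exists_mem hUo hUne ∅
  have hz0 : Phi H z = 0 := by
    rw [hH, Phi_sub, hz3, sub_self]
  have hz4 : Phi H z = H.coeff w := by
    unfold Phi Finsupp.sum
    rw [Finset.sum_eq_single w]
    · exact if_pos ⟨hz.1.1.le, hz.2.1.le⟩
    · intro v hv hvw
      refine if_neg ?_
      rintro ⟨c1, c2⟩
      have d1 : v.1 = w.1 := by
        refine le_antisymm ?_ (hw2 ▸ hmin0 v hv)
        by_contra hlt
        have := hg1 v.1 (Finset.mem_image_of_mem _ hv) (not_le.1 hlt)
        have h5 := hz.1.2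
        linarith
      have d2 : v.2 = w.2 := by
        refine le_antisymm ?_ (hminw v (Finset.mem_filter.2 ⟨hv, d1.trans hw2⟩))
        by_contra hlt
        have := hg2 v.2 (Finset.mem_image_of_mem _ hv) (not_le.1 hlt)
        have h5 := hz.2.2
        linarith
      exact hvw (Prod.ext d1 d2)
    · intro hn
      exact absurd hw1 hn
  exact (Finsupp.mem_support_iff.1 hw1) (hz4.symm.trans hz0)

end Pool.Agent.SQR
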