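import Pool.Agent.SQR.GenL

/-!
# SQR module ROW: divisibility by a polynomial in the first variable

PROOF. Choose `m : ℕ` with `0 ≤ w.1 + m` for all `w` in the support of `G`.  For `b : ℤ` let
`P_b = ∑_{w ∈ support, w.2 = b} G_w X ^ (w.1 + m).toNat`.  For `ζ ∈ Z`, `aeval ζ P_b = ζ ^ m * (evx ζ G).coeff b = 0`
(`evx_single` and linearity: `evx ζ G = ∑_{w ∈ support} single w.2 (G_w * ζ ^ w.1)`).  So `P_b = q * Q_b`, and, with
`x = single (1, 0) 1`,
`G = ∑_b single (-m, b) 1 * aeval x P_b = aeval x q * ∑_b single (-m, b) 1 * aeval x Q_b`, the sum over the finitely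
many second coordinates `b` of the support (`aeval x (X ^ k) = single (k, 0) 1`).
-/

set_option autoImplicit false

open AddMonoidAlgebra

namespace Pool.Agent.SQR

private theorem sum_supp (G : AddMonoidAlgebra ℤ (ℤ × ℤ)) :
    G = ∑ w ∈ G.coeff.support, single w (G.coeff w) := by
  conv_lhs => rw [← AddMonoidAlgebra.sum_coeff_single G]
  rfl

private theorem evx_coeff (ζ : ℂˣ) (G : AddMonoidAlgebra ℤ (ℤ × ℤ)) (b : ℤ) :
    (evx ζ G).coeff b = ∑ w ∈ G.coeff.support with w.2 = b,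
      ((G.coeff w : ℤ) : ℂ) * ((ζ ^ w.1 : ℂˣ) : ℂ) := by
  classical
  conv_lhs => rw [sum_supp G]
  rw [map_sum, AddMonoidAlgebra.coeff_sum, Finsupp.finsetSum_apply, Finset.sum_filter]
  refine Finset.sum_congr rfl fun w _ => ?_
  rw [evx_single, coeff_single, Finsupp.single_apply]

private theorem aeval_mono (k : ℕ) (a : ℤ) :
    Polynomial.aeval (single ((1 : ℤ), (0 : ℤ)) (1 : ℤ) : AddMonoidAlgebra ℤ (ℤ × ℤ))
      (Polynomial.monomial k a) = single (((k : ℤ)), (0 : ℤ)) a := by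
  rw [Polynomial.aeval_monomial, AddMonoidAlgebra.single_pow]
  have h1 : algebraMap ℤ (AddMonoidAlgebra ℤ (ℤ × ℤ)) a = single (0 : ℤ × ℤ) a := by
    rfl
  rw [h1, single_mul_single]
  simp

theorem row (q : Polynomial ℤ) (Z : Set ℂˣ)
    (hq : ∀ P : Polynomial ℤ, (∀ ζ ∈ Z, Polynomial.aeval ((ζ : ℂˣ) : ℂ) P = 0) → q ∣ P)
    (G : AddMonoidAlgebra ℤ (ℤ × ℤ)) (h : ∀ ζ ∈ Z, evx ζ G = 0) :
    ∃ Q : AddMonoidAlgebra ℤ (ℤ × ℤ),
      G = Polynomial.aeval (single ((1 : ℤ), (0 : ℤ)) (1 : ℤ) : AddMonoidAlgebra ℤ (ℤ × ℤ)) q * Q := by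
  classical
  obtain ⟨m, hm⟩ : ∃ m : ℕ, ∀ w ∈ G.coeff.support, 0 ≤ w.1 + (m : ℤ) := by
    refine ⟨G.coeff.support.sup fun w => (-w.1).toNat, fun w hw => ?_⟩
    have h1 : (-w.1).toNat ≤ G.coeff.support.sup fun w : ℤ × ℤ => (-w.1).toNat :=
      Finset.le_sup (f := fun w : ℤ × ℤ => (-w.1).toNat) hw
    have h2 := Int.self_le_toNat (-w.1)
    have h3 : (((-w.1).toNat : ℕ) : ℤ) ≤
        ((G.coeff.support.sup fun w : ℤ × ℤ => (-w.1).toNat : ℕ) : ℤ) := by exact_mod_cast h1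
    linarith
  let P : ℤ → Polynomial ℤ := fun b => ∑ w ∈ G.coeff.support with w.2 = b,
    Polynomial.monomial (w.1 + (m : ℤ)).toNat (G.coeff w)
  have hP : ∀ b, q ∣ P b := by
    intro b
    refine hq _ fun ζ hζ => ?_
    have h1 : Polynomial.aeval ((ζ : ℂˣ) : ℂ) (P b) = ((ζ : ℂ)) ^ m * (evx ζ G).coeff b := by
      rw [evx_coeff, Finset.mul_sum]
      simp only [P, map_sum]
      refine Finset.sum_congr rfl fun w hw => ?_
      rw [Polynomial.aeval_monomial]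
      have h2 : ((ζ : ℂ)) ^ (w.1 + (m : ℤ)).toNat = (ζ : ℂ) ^ m * ((ζ ^ w.1 : ℂˣ) : ℂ) := by
        rw [← zpow_natCast, Int.toNat_of_nonneg (hm w (Finset.mem_filter.1 hw).1),
          Units.val_zpow_eq_zpow_val, zpow_add₀ ζ.ne_zero, zpow_natCast, mul_comm]
      rw [h2]
      simp
      ring
    rw [h1, h ζ hζ]
    simp
  choose Q hQ using hP
  refine ⟨∑ b ∈ G.coeff.support.image Prod.snd,
    single (-(m : ℤ), b) 1 * Polynomial.aeval (single ((1 : ℤ), (0 : ℤ)) (1 : ℤ)) (Q b), ?_⟩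
  rw [Finset.mul_sum]
  have h2 : ∀ b, Polynomial.aeval (single ((1 : ℤ), (0 : ℤ)) (1 : ℤ) : AddMonoidAlgebra ℤ (ℤ × ℤ)) q *
      (single (-(m : ℤ), b) 1 * Polynomial.aeval (single ((1 : ℤ), (0 : ℤ)) (1 : ℤ)) (Q b)) =
      ∑ w ∈ G.coeff.support with w.2 = b, single w (G.coeff w) := by
    intro b
    rw [mul_left_comm, ← map_mul, ← hQ b]
    simp only [P, map_sum]
    rw [Finset.mul_sum]
    refine Finset.sum_congr rfl fun w hw => ?_
    rw [aeval_mono, single_mul_single, one_mul,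
      Int.toNat_of_nonneg (hm w (Finset.mem_filter.1 hw).1)]
    congr 1
    have h3 := (Finset.mem_filter.1 hw).2
    ext
    · simp
    · simp [h3]
  simp only [h2]
  rw [Finset.sum_fiberwise_of_maps_to (g := Prod.snd) (fun w hw => Finset.mem_image_of_mem _ hw)]
  exact sum_supp G

end Pool.Agent.SQR
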