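import Pool.Agent.SQR.Mtl
import Pool.Agent.SQR.Ext
import Pool.Agent.SQR.Grd
import Pool.Agent.SQR.Cor
import Pool.Agent.SQR.Pin

/-!
# SQR module TFI: the corner sum of a piece and its equation, over every ring

PROOF. Let `u = ind (ZMod 2) U`.  `mat_til` gives `D, W`; `ext` (with `u z = 0` outside `sq`, as `U ⊆ sq`) gives
`F₀, O`; `grd` gives `S`; `cor` applied to `ind K U` (zero outside `sq`; equal at points of the same cell by
`grd`) gives `F` with `Gen (Phi F) (ind K U)`.  The equation: by `gen_mv` for each `i` (bounded: if `ind K U z ≠ 0`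
then `z ∈ U ⊆ sq`, so `|z.1| ≤ 1`, `|z.2| ≤ 1`) and `Gen.sum`,
`Gen (fun z => ∑ i, Phi (chi (g i) • (single (c i) 1 * sig K (g i) F)) z) (fun z => ∑ i, ind K U (act (g i)⁻¹ (z - c i)))`.
The left side is `Phi (tsm K g c F)` (`Phi_sum`, `tsm`), the right side agrees generically with `ind K sq` (`tlg`)
and so with `Phi (qq K 1)` (`gen_qq`).  Conclude with `gen_inj`.
-/

set_option autoImplicit false

open AddMonoidAlgebra

namespace Pool.Agent.SQR

theorem tfi (p : ℕ) (hp : Odd p) (U : Set V) (g : Fin p → SP) (c : Fin p → V) (h : IsTil p U g c)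
    (hsq : U ⊆ sq) (K : Type*) [CommRing K] :
    ∃ F : AddMonoidAlgebra K V, Gen (Phi F) (ind K U) ∧ tsm K g c F = qq K (1 : ℝ) := by
  obtain ⟨D, W, hD, hDW⟩ := mat_til p hp U g c h
  have h0 : ∀ z, z ∉ sq → ind (ZMod 2) U z = 0 := fun z hz => by
    unfold ind
    rw [if_neg fun hu => hz (hsq hu)]
  have h0K : ∀ z, z ∉ sq → ind K U z = 0 := fun z hz => by
    unfold ind
    rw [if_neg fun hu => hz (hsq hu)]
  obtain ⟨F0, O, hO, hOd, hF0⟩ := ext D W hD (ind (ZMod 2) U) h0 hDW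
  obtain ⟨S, hS⟩ := grd U h.opn h.reg hsq F0 O hO hOd hF0
  obtain ⟨F, hF⟩ := cor S (ind K U) h0K fun z z' hz hz' hzz => by
    have e := hS z z' hz hz' hzz
    unfold ind
    by_cases hu : z ∈ U
    · rw [if_pos hu, if_pos (e.1 hu)]
    · rw [if_neg hu, if_neg fun hh => hu (e.2 hh)]
  refine ⟨F, hF, gen_inj _ _ ?_⟩
  have hb : ∃ R : ℝ, ∀ z, ind K U z ≠ 0 → |z.1| ≤ R ∧ |z.2| ≤ R := by
    refine ⟨1, fun z hz => ?_⟩
    have hzs : z ∈ sq := by
      by_contra hn
      exact hz (h0K z hn)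
    obtain ⟨⟨a1, a2⟩, b1, b2⟩ := hzs
    rw [abs_of_nonneg a1, abs_of_nonneg b1]
    exact ⟨a2, b2⟩
  have h1 : Gen (fun z => ∑ i, Phi (chi (g i) • (single (c i) (1 : K) * sig K (g i) F)) z)
      (fun z => ∑ i, ind K U (act (g i)⁻¹ (z - c i))) :=
    Gen.sum _ fun i _ => gen_mv F _ hF hb (g i) (c i)
  have h2 : Gen (Phi (tsm K g c F))
      (fun z => ∑ i, Phi (chi (g i) • (single (c i) (1 : K) * sig K (g i) F)) z) :=
    Gen.of_eq fun z => by
      unfold tsm
      rw [Phi_sum]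
  exact (h2.trans h1).trans ((tlg K p U g c h).trans (gen_qq K).symm)

end Pool.Agent.SQR
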